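import Pool.Agent.Lib.UNQ.Rows
import Pool.Agent.Lib.UNIT.UC

/-!
# UNQ, row QC: the rational Lie algebras and the root vectors (helper36)
-/

set_option autoImplicit false

open scoped TensorProduct ComplexConjugate
open Complex Pool.Agent.HCM Pool.Agent.RAT Pool.Agent.UNIT

namespace Pool.Agent.UNQ

noncomputable section

namespace UCx

variable {κ : Type} {K G : κ → Type} [∀ k, Field (K k)]

open Classical in
/-- the matrix `Y` in the block `k` -/
def upd (k : κ) (Y : Matrix (G k) (G k) (K k)) : ∀ k, Matrix (G k) (G k) (K k) :=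
  Function.update (fun _ => 0) k Y

theorem upd_self (k : κ) (Y : Matrix (G k) (G k) (K k)) : upd k Y k = Y := by
  classical
  unfold upd
  rw [Function.update_self]

theorem upd_ne (k : κ) (Y : Matrix (G k) (G k) (K k)) {k' : κ} (h : k' ≠ k) : upd k Y k' = 0 := by
  classical
  unfold upd
  rw [Function.update_of_ne h]

variable {T : Type} [Fintype T] [DecidableEq T]

open Classical in
/-- the matrix unit `(g, g')` on the letters `(k, ., τ)` -/
def EE (k : κ) (g g' : G k) (τ : K k →+* ℂ) (u : (T → LU K G) → ℂ) (t : T → LU K G) : ℂ :=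
  ∑ a, if t a = ⟨⟨k, g⟩, τ⟩ then u (Function.update t a ⟨⟨k, g'⟩, τ⟩) else 0

theorem der_upd [Fintype κ] [∀ k, NumberField (K k)] [∀ k, Fintype (G k)] (k : κ)
    (Y : Matrix (G k) (G k) (K k)) (u : (T → LU K G) → ℂ) (t : T → LU K G) :
    der (upd k Y) u t = ∑ g, ∑ g', ∑ τ : K k →+* ℂ, τ (Y g g') * EE k g g' τ u t := by
  classical
  rw [der_apply]
  unfold EE
  simp only [Finset.mul_sum]
  have h1 : ∀ g g' : G k, ∑ τ : K k →+* ℂ, ∑ a : T, (τ (Y g g') *
      if t a = ⟨⟨k, g⟩, τ⟩ then u (Function.update t a ⟨⟨k, g'⟩, τ⟩) else 0) =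
      ∑ a : T, ∑ τ : K k →+* ℂ, (τ (Y g g') *
      if t a = ⟨⟨k, g⟩, τ⟩ then u (Function.update t a ⟨⟨k, g'⟩, τ⟩) else 0) :=
    fun g g' => Finset.sum_comm
  simp only [h1]
  have h2 : ∀ g : G k, ∑ g' : G k, ∑ a : T, ∑ τ : K k →+* ℂ, (τ (Y g g') *
      if t a = ⟨⟨k, g⟩, τ⟩ then u (Function.update t a ⟨⟨k, g'⟩, τ⟩) else 0) =
      ∑ a : T, ∑ g' : G k, ∑ τ : K k →+* ℂ, (τ (Y g g') *
      if t a = ⟨⟨k, g⟩, τ⟩ then u (Function.update t a ⟨⟨k, g'⟩, τ⟩) else 0) :=
    fun g => Finset.sum_comm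
  simp only [h2]
  refine Eq.trans ?_ Finset.sum_comm
  refine Finset.sum_congr rfl fun a _ => ?_
  rcases hta : t a with ⟨⟨k1, g1⟩, τ1⟩
  simp only
  by_cases hk : k1 = k
  · subst hk
    rw [upd_self]
    refine Eq.trans ?_ (Finset.sum_eq_single g1 ?_ ?_).symm
    · refine Finset.sum_congr rfl fun g' _ => ?_
      rw [Finset.sum_eq_single τ1, if_pos rfl]
      · intro τ2 _ h3
        rw [if_neg, mul_zero]
        intro h4
        exact h3 (eq_of_heq (Sigma.mk.inj h4).2).symm
      · intro h3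
        exact absurd (Finset.mem_univ _) h3
    · intro g2 _ h3
      refine Finset.sum_eq_zero fun g' _ => Finset.sum_eq_zero fun τ2 _ => ?_
      rw [if_neg, mul_zero]
      intro h4
      exact h3 (eq_of_heq (Sigma.mk.inj (Sigma.mk.inj h4).1).2).symm
    · intro h3
      exact absurd (Finset.mem_univ _) h3
  · rw [upd_ne _ _ hk]
    refine Eq.trans (Finset.sum_eq_zero fun g2 _ => ?_) (Finset.sum_eq_zero fun g2 _ => ?_).symm
    · rw [Matrix.zero_apply, map_zero, zero_mul]
    · refine Finset.sum_eq_zero fun g' _ => Finset.sum_eq_zero fun τ2 _ => ?_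
      rw [if_neg, mul_zero]
      intro h4
      exact hk (congrArg (fun y : LU K G => y.1.1) h4)

theorem sum_single [∀ k, NumberField (K k)] [∀ k, Fintype (G k)] (k : κ) [DecidableEq (G k)]
    (p r : G k) (l : K k) (f : G k → G k → (K k →+* ℂ) → ℂ) :
    ∑ g, ∑ g', ∑ τ : K k →+* ℂ, τ (Matrix.single p r l g g') * f g g' τ =
      ∑ τ : K k →+* ℂ, τ l * f p r τ := by
  rw [Finset.sum_eq_single p, Finset.sum_eq_single r]
  · simp
  · intro g' _ h3
    refine Finset.sum_eq_zero fun τ _ => ?_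
    rw [Matrix.single_apply, if_neg (fun h4 => h3 h4.2.symm), map_zero, zero_mul]
  · intro h3
    exact absurd (Finset.mem_univ _) h3
  · intro g _ h3
    refine Finset.sum_eq_zero fun g' _ => Finset.sum_eq_zero fun τ _ => ?_
    rw [Matrix.single_apply, if_neg (fun h4 => h3 h4.1.symm), map_zero, zero_mul]
  · intro h3
    exact absurd (Finset.mem_univ _) h3

section four

variable {F A : Type} [Field F]

theorem ite_skew (τ : F →+* ℂ) (P : Prop) [Decidable P] (x y u v : F)
    (h : P → τ (x * u) + conj (τ v) * τ y = 0) :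
    τ (x * if P then u else 0) + conj (τ (if P then v else 0)) * τ y = 0 := by
  by_cases hP : P
  · rw [if_pos hP, if_pos hP]
    exact h hP
  · rw [if_neg hP, if_neg hP]
    simp

theorem ite_comm (τ : F →+* ℂ) (P : Prop) [Decidable P] (x y u v : F)
    (h : P → τ (y * u) = τ x * conj (τ v)) :
    τ (y * if P then u else 0) = τ x * conj (τ (if P then v else 0)) := by
  by_cases hP : P
  · rw [if_pos hP, if_pos hP]
    exact h hP
  · rw [if_neg hP, if_neg hP]
    simp

variable [DecidableEq A]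

/-- four matrix units -/
def Y4 (q : A → A) (a b : A) (l1 l2 l3 l4 : F) : Matrix A A F :=
  Matrix.single a b l1 + Matrix.single b a l2 + Matrix.single (q a) (q b) l3 +
    Matrix.single (q b) (q a) l4

theorem Y4_apply (q : A → A) (a b : A) (l1 l2 l3 l4 : F) (x y : A) :
    Y4 q a b l1 l2 l3 l4 x y = (if a = x ∧ b = y then l1 else 0) +
      (if b = x ∧ a = y then l2 else 0) + (if q a = x ∧ q b = y then l3 else 0) +
      (if q b = x ∧ q a = y then l4 else 0) := by
  simp only [Y4, Matrix.add_apply, Matrix.single_apply]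

theorem Y4_swap (q : A → A) (a b : A) (l1 l2 l3 l4 : F) (x y : A) :
    Y4 q a b l1 l2 l3 l4 y x = (if a = x ∧ b = y then l2 else 0) +
      (if b = x ∧ a = y then l1 else 0) + (if q a = x ∧ q b = y then l4 else 0) +
      (if q b = x ∧ q a = y then l3 else 0) := by
  rw [Y4_apply]
  have e1 : (if a = y ∧ b = x then l1 else 0) = if b = x ∧ a = y then l1 else 0 :=
    if_congr and_comm rfl rfl
  have e2 : (if b = y ∧ a = x then l2 else 0) = if a = x ∧ b = y then l2 else 0 :=
    if_congr and_comm rfl rfl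
  have e3 : (if q a = y ∧ q b = x then l3 else 0) = if q b = x ∧ q a = y then l3 else 0 :=
    if_congr and_comm rfl rfl
  have e4 : (if q b = y ∧ q a = x then l4 else 0) = if q a = x ∧ q b = y then l4 else 0 :=
    if_congr and_comm rfl rfl
  rw [e1, e2, e3, e4]
  ring

theorem Y4_q (q : A → A) (hq : ∀ g, q (q g) = g) (a b : A) (l1 l2 l3 l4 : F) (x y : A) :
    Y4 q a b l1 l2 l3 l4 (q x) (q y) = (if a = x ∧ b = y then l3 else 0) +
      (if b = x ∧ a = y then l4 else 0) + (if q a = x ∧ q b = y then l1 else 0) +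
      (if q b = x ∧ q a = y then l2 else 0) := by
  have h1 : ∀ c z : A, c = q z ↔ q c = z := by
    intro c z
    constructor
    · intro h; rw [h, hq]
    · intro h; rw [← h, hq]
  have h2 : ∀ c z : A, q c = q z ↔ c = z := by
    intro c z
    rw [h1, hq]
  rw [Y4_apply]
  simp only [h1, hq]
  ring

variable [Fintype A]

omit [Fintype A] in
theorem Y4_skew (h : A → F) (q : A → A) (a b : A) (l1 l2 l3 l4 : F) (τ : F →+* ℂ)
    (s12 : τ (h a * l1) + conj (τ l2) * τ (h b) = 0)
    (s21 : τ (h b * l2) + conj (τ l1) * τ (h a) = 0)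
    (s34 : τ (h (q a) * l3) + conj (τ l4) * τ (h (q b)) = 0)
    (s43 : τ (h (q b) * l4) + conj (τ l3) * τ (h (q a)) = 0) (x y : A) :
    τ (h x * Y4 q a b l1 l2 l3 l4 x y) + conj (τ (Y4 q a b l1 l2 l3 l4 y x)) * τ (h y) = 0 := by
  rw [Y4_apply, Y4_swap]
  have h1 := ite_skew τ (a = x ∧ b = y) (h x) (h y) l1 l2 (fun h0 => by rw [← h0.1, ← h0.2]; exact s12)
  have h2 := ite_skew τ (b = x ∧ a = y) (h x) (h y) l2 l1 (fun h0 => by rw [← h0.1, ← h0.2]; exact s21)
  have h3 := ite_skew τ (q a = x ∧ q b = y) (h x) (h y) l3 l4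
    (fun h0 => by rw [← h0.1, ← h0.2]; exact s34)
  have h4 := ite_skew τ (q b = x ∧ q a = y) (h x) (h y) l4 l3
    (fun h0 => by rw [← h0.1, ← h0.2]; exact s43)
  simp only [mul_add, map_add, add_mul]
  linear_combination h1 + h2 + h3 + h4

omit [Fintype A] in
theorem Y4_comm (d : A → F) (q : A → A) (hq : ∀ g, q (q g) = g) (a b : A) (l1 l2 l3 l4 : F)
    (τ : F →+* ℂ)
    (j13 : τ (d b * l3) = τ (d a) * conj (τ l1))
    (j24 : τ (d a * l4) = τ (d b) * conj (τ l2))
    (j31 : τ (d (q b) * l1) = τ (d (q a)) * conj (τ l3))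
    (j42 : τ (d (q a) * l2) = τ (d (q b)) * conj (τ l4)) (x y : A) :
    τ (d y * Y4 q a b l1 l2 l3 l4 (q x) (q y)) =
      τ (d x) * conj (τ (Y4 q a b l1 l2 l3 l4 x y)) := by
  rw [Y4_apply (x := x), Y4_q q hq]
  have h1 := ite_comm τ (a = x ∧ b = y) (d x) (d y) l3 l1 (fun h0 => by rw [← h0.1, ← h0.2]; exact j13)
  have h2 := ite_comm τ (b = x ∧ a = y) (d x) (d y) l4 l2 (fun h0 => by rw [← h0.1, ← h0.2]; exact j24)
  have h3 := ite_comm τ (q a = x ∧ q b = y) (d x) (d y) l1 l3
    (fun h0 => by rw [← h0.1, ← h0.2]; exact j31)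
  have h4 := ite_comm τ (q b = x ∧ q a = y) (d x) (d y) l2 l4
    (fun h0 => by rw [← h0.1, ← h0.2]; exact j42)
  simp only [mul_add, map_add]
  linear_combination h1 + h2 + h3 + h4

theorem Y4_trace (q : A → A) (a b : A) (l1 l2 l3 l4 : F)
    (h0 : a = b → l1 + l2 + l3 + l4 = 0) (hq : ∀ g, q (q g) = g) :
    (Y4 q a b l1 l2 l3 l4).trace = 0 := by
  by_cases h : a = b
  · subst h
    simp only [Y4, Matrix.trace_add, Matrix.trace_single_eq_same]
    exact h0 rfl
  · have h1 : q a ≠ q b := by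
      intro h2
      apply h
      rw [← hq a, h2, hq]
    simp only [Y4, Matrix.trace_add, Matrix.trace_single_eq_of_ne _ _ _ h,
      Matrix.trace_single_eq_of_ne _ _ _ (Ne.symm h), Matrix.trace_single_eq_of_ne _ _ _ h1,
      Matrix.trace_single_eq_of_ne _ _ _ (Ne.symm h1), add_zero]

end four

theorem isSUQ_upd [∀ k, Fintype (G k)] (h : ∀ k, G k → K k) (q : ∀ k, G k → G k)
    (d : ∀ k, G k → K k) (k : κ) (Y : Matrix (G k) (G k) (K k)) (h1 : Y.trace = 0)
    (h2 : ∀ (τ : K k →+* ℂ) (x y : G k),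
      τ (h k x * Y x y) + conj (τ (Y y x)) * τ (h k y) = 0)
    (h3 : ∀ (τ : K k →+* ℂ) (x y : G k),
      τ (d k y * Y (q k x) (q k y)) = τ (d k x) * conj (τ (Y x y))) :
    IsSUQ h q d (upd k Y) := by
  refine ⟨fun k' => ?_, fun k' => ?_⟩
  · by_cases hk : k' = k
    · subst hk
      rw [upd_self]
      exact ⟨h1, h2⟩
    · rw [upd_ne _ _ hk]
      exact ⟨Matrix.trace_zero _ _, fun τ a b => by simp⟩
  · by_cases hk : k' = k
    · subst hk
      rw [upd_self]
      exact h3
    · rw [upd_ne _ _ hk]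
      intro τ a b
      simp

theorem der_Y4 [Fintype κ] [∀ k, NumberField (K k)] [∀ k, Fintype (G k)] (k : κ)
    [DecidableEq (G k)] (q : G k → G k) (a b : G k) (l1 l2 l3 l4 : K k) (u : (T → LU K G) → ℂ)
    (t : T → LU K G) :
    der (upd k (Y4 q a b l1 l2 l3 l4)) u t = ∑ τ : K k →+* ℂ, τ l1 * EE k a b τ u t +
      ∑ τ : K k →+* ℂ, τ l2 * EE k b a τ u t + ∑ τ : K k →+* ℂ, τ l3 * EE k (q a) (q b) τ u t +
      ∑ τ : K k →+* ℂ, τ l4 * EE k (q b) (q a) τ u t := by
  rw [der_upd]
  have key : ∀ (p r : G k) (l : K k), ∑ g, ∑ g', ∑ τ : K k →+* ℂ,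
      τ (Matrix.single p r l g g') * EE k g g' τ u t = ∑ τ : K k →+* ℂ, τ l * EE k p r τ u t := by
    intro p r l
    exact sum_single k p r l (fun g g' τ => EE k g g' τ u t)
  simp only [Y4, Matrix.add_apply, map_add, add_mul, Finset.sum_add_distrib, key]

theorem sum_cj (F : Type) [Field F] [NumberField F] (f : (F →+* ℂ) → ℂ) :
    ∑ τ : F →+* ℂ, f τ = ∑ τ : F →+* ℂ, f (cj τ) := by
  have hinv : Function.Involutive (cj : (F →+* ℂ) → (F →+* ℂ)) := by
    intro τ
    ext x
    simp [cj]
  exact (Equiv.sum_comp (hinv.toPerm _) f).symm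

end UCx

theorem qc : QC := by
  classical
  intro κ _ _ K G _ _ _ _ h hh q d hq T _ _ u hu k
  have hH : ∀ (g : G k) (τ : K k →+* ℂ), conj (τ (h k g)) = τ (h k g) := by
    intro g τ
    exact Complex.conj_eq_iff_im.2 ((hh k g).2 τ)
  have hH0 : ∀ (g : G k) (τ : K k →+* ℂ), τ (h k g) ≠ 0 := by
    intro g τ
    exact (map_ne_zero τ).2 (hh k g).1
  have hcc : ∀ τ : K k →+* ℂ, cj (cj τ) = τ := by
    intro τ
    ext x
    simp [cj]
  have hcj : ∀ (τ : K k →+* ℂ) (x : K k), (cj τ) x = conj (τ x) := fun τ x => rfl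
  let c : K k → K k := fun x => NumberField.IsCMField.complexConj (K k) x
  have hc : ∀ (τ : K k →+* ℂ) (x : K k), τ (c x) = conj (τ x) := by
    intro τ x
    simp only [c, NumberField.IsCMField.complexEmbedding_complexConj]
  constructor
  · intro hd a b τ hab t
    refine UNIT.UCx.coeff_eq_zero (fun τ => root h k a b τ u t) ?_ τ
    intro l
    have hX : IsSUQ h q d (UNQ.UCx.upd k (UNQ.UCx.Y4 id a b l (-(h k a / h k b * c l)) 0 0)) := by
      apply UNQ.UCx.isSUQ_upd
      · exact UNQ.UCx.Y4_trace id a b _ _ _ _ (fun h0 => absurd h0 hab) (fun g => rfl)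
      · intro τ x y
        apply UNQ.UCx.Y4_skew
        · rw [map_neg, map_mul, map_mul, map_div₀, hc, map_neg, map_mul, map_div₀, hH, hH,
            Complex.conj_conj]
          have := hH0 b τ
          field_simp
          ring
        · rw [map_mul, map_neg, map_mul, map_div₀, hc]
          have := hH0 b τ
          field_simp
          ring
        · simp
        · simp
      · intro τ x y
        have h0 : ∀ g, d k g = 0 := fun g => congrFun hd g
        rw [h0, h0]
        simp
    have h1 := congrFun (hu _ hX) t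
    rw [UNQ.UCx.der_Y4, Pi.zero_apply] at h1
    simp only [map_zero, zero_mul, Finset.sum_const_zero, add_zero] at h1
    rw [UNQ.UCx.sum_cj _ (fun τ => τ (-(h k a / h k b * c l)) * UNQ.UCx.EE k b a τ u t),
      ← Finset.sum_add_distrib] at h1
    rw [← h1]
    refine Finset.sum_congr rfl fun τ _ => ?_
    have h2 : (cj τ) (-(h k a / h k b * c l)) = -(τ (h k a) / τ (h k b) * τ l) := by
      rw [hcj, map_neg, map_mul, map_div₀, hc, map_neg, map_mul, map_div₀, hH, hH,
        Complex.conj_conj]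
    rw [h2]
    have h3 : root h k a b τ u t = UNQ.UCx.EE k a b τ u t -
        τ (h k a) / τ (h k b) * UNQ.UCx.EE k b a (cj τ) u t := rfl
    rw [h3]
    ring
  · intro hd a b τ t
    rcases hq k with h0 | ⟨hqq, β, s, hβ, hs, hb⟩
    · exact absurd (funext h0) hd
    have hβ' : ∀ τ : K k →+* ℂ, τ β ≠ 0 := fun τ => (map_ne_zero τ).2 hβ
    have hD0 : ∀ (g : G k) (τ : K k →+* ℂ), τ (d k g) ≠ 0 := by
      intro g τ h0
      have h1 := (hb g).1 τ
      rw [h0, zero_mul] at h1
      exact hβ' τ h1.symm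
    -- `conj (d g) = β / d (q g)`
    have hDc : ∀ (g : G k) (τ : K k →+* ℂ), conj (τ (d k g)) = τ β / τ (d k (q k g)) := by
      intro g τ
      have h1 := (hb (q k g)).1 τ
      rw [hqq] at h1
      rw [eq_div_iff (hD0 _ τ), mul_comm]
      exact h1
    have hsh : ∀ (g : G k) (τ : K k →+* ℂ),
        τ (h k g) * τ (d k (q k g)) = τ s * (τ (h k (q k g)) * τ (d k g)) := by
      intro g τ
      rw [← map_mul, (hb g).2, map_mul, map_mul, mul_assoc]
    have hs2 : ∀ τ : K k →+* ℂ, τ s * τ s = 1 := by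
      intro τ
      rcases hs with rfl | rfl
      · simp
      · simp
    have hsh' : ∀ (g : G k) (τ : K k →+* ℂ),
        τ (h k (q k g)) = τ s * (τ (h k g) * τ (d k (q k g))) / τ (d k g) := by
      intro g τ
      rw [eq_div_iff (hD0 g τ), hsh, ← mul_assoc, hs2, one_mul]
    refine UNIT.UCx.coeff_eq_zero (fun τ => rootQ h q d k a b τ u t) ?_ τ
    intro l
    have e2 : ∀ τ : K k →+* ℂ, τ (-(h k a / h k b * c l)) =
        -(τ (h k a) / τ (h k b) * conj (τ l)) := by
      intro τ
      rw [map_neg, map_mul, map_div₀, hc]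
    have e3 : ∀ τ : K k →+* ℂ, τ (d k a / d k b * c l) =
        τ (d k a) / τ (d k b) * conj (τ l) := by
      intro τ
      rw [map_mul, map_div₀, hc]
    have e4 : ∀ τ : K k →+* ℂ, τ (-(d k b / d k a * (h k a / h k b) * l)) =
        -(τ (d k b) / τ (d k a) * (τ (h k a) / τ (h k b)) * τ l) := by
      intro τ
      rw [map_neg, map_mul, map_mul, map_div₀, map_div₀]
    have hX : IsSUQ h q d (UNQ.UCx.upd k (UNQ.UCx.Y4 (q k) a b l (-(h k a / h k b * c l))
        (d k a / d k b * c l) (-(d k b / d k a * (h k a / h k b) * l)))) := by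
      apply UNQ.UCx.isSUQ_upd
      · apply UNQ.UCx.Y4_trace
        · intro h0
          subst h0
          have h1 : d k a ≠ 0 := (map_ne_zero τ).1 (hD0 a τ)
          have h2 : h k a ≠ 0 := (hh k a).1
          rw [div_self h1, div_self h2]
          ring
        · exact hqq
      · intro τ x y
        have n1 := hH0 a τ
        have n2 := hH0 b τ
        have n3 := hD0 a τ
        have n4 := hD0 b τ
        have n5 := hD0 (q k a) τ
        have n6 := hD0 (q k b) τ
        have n7 := hβ' τ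
        have n8 := hs2 τ
        have n9 : τ s ≠ 0 := fun h0 => by rw [h0, zero_mul] at n8; exact zero_ne_one n8
        apply UNQ.UCx.Y4_skew
        · rw [e2, map_mul]
          simp only [map_neg, map_mul, map_div₀, hH, Complex.conj_conj]
          field_simp
          ring
        · rw [map_mul, e2]
          field_simp
          ring
        · rw [map_mul, e3, e4]
          simp only [map_neg, map_mul, map_div₀, hH, hDc]
          rw [hsh' a, hsh' b]
          field_simp
          ring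
        · rw [map_mul, e3, e4]
          simp only [map_mul, map_div₀, hDc, Complex.conj_conj]
          rw [hsh' a, hsh' b]
          field_simp
          ring
      · intro τ x y
        have n1 := hH0 a τ
        have n2 := hH0 b τ
        have n3 := hD0 a τ
        have n4 := hD0 b τ
        have n5 := hD0 (q k a) τ
        have n6 := hD0 (q k b) τ
        have n7 := hβ' τ
        apply UNQ.UCx.Y4_comm _ _ hqq
        · rw [map_mul, e3]
          field_simp
        · rw [map_mul, e4, e2]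
          simp only [map_neg, map_mul, map_div₀, hH, Complex.conj_conj]
          field_simp
        · rw [map_mul, e3]
          simp only [map_mul, map_div₀, hDc, Complex.conj_conj]
          field_simp
        · rw [map_mul, e4, e2]
          simp only [map_neg, map_mul, map_div₀, hH, hDc]
          field_simp
    have h1 := congrFun (hu _ hX) t
    rw [UNQ.UCx.der_Y4, Pi.zero_apply,
      UNQ.UCx.sum_cj _ (fun τ => τ (-(h k a / h k b * c l)) * UNQ.UCx.EE k b a τ u t),
      UNQ.UCx.sum_cj _ (fun τ => τ (d k a / d k b * c l) * UNQ.UCx.EE k (q k a) (q k b) τ u t),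
      ← Finset.sum_add_distrib, ← Finset.sum_add_distrib, ← Finset.sum_add_distrib] at h1
    rw [← h1]
    refine Finset.sum_congr rfl fun τ _ => ?_
    have n1 := hH0 a τ
    have n2 := hH0 b τ
    have n3 := hD0 a τ
    have n4 := hD0 b τ
    have n5 := hD0 (q k a) τ
    have n6 := hD0 (q k b) τ
    have n7 := hβ' τ
    have n8 := hs2 τ
    have n9 : τ s ≠ 0 := fun h0 => by rw [h0, zero_mul] at n8; exact zero_ne_one n8
    have h3 : rootQ h q d k a b τ u t = (UNQ.UCx.EE k a b τ u t -
        τ (h k a) / τ (h k b) * UNQ.UCx.EE k b a (cj τ) u t) +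
        τ (d k (q k b)) / τ (d k (q k a)) * (UNQ.UCx.EE k (q k a) (q k b) (cj τ) u t -
        (cj τ) (h k (q k a)) / (cj τ) (h k (q k b)) *
          UNQ.UCx.EE k (q k b) (q k a) (cj (cj τ)) u t) := rfl
    rw [h3, hcc, e2, e3, e4]
    simp only [hcj, Complex.conj_conj, hH, hDc]
    rw [hsh' a, hsh' b]
    field_simp
    ring

end

end Pool.Agent.UNQ
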