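import Pool.Agent.Lib.UNQ.Basic
import Pool.Agent.Lib.UNIT.Rows

/-!
# UNQ: statements of the rows

Row `X` is `theorem x : X` (small first letter) in the file `Pool/Agent/Lib/UNQ/X.lean`.  `root`, `pc`,
`dc`, `bt`, `IsBT`, `Bal`, `BalD` and the rows `UD`, `UF`, `UG`, `UH`, `UI`, `UJ`, `UK`, `UL`, `UM` are
those of `UNIT`.
-/

set_option autoImplicit false

open scoped TensorProduct ComplexConjugate
open Complex Pool.Agent.HCM Pool.Agent.RAT Pool.Agent.UNIT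

namespace Pool.Agent.UNQ

noncomputable section

section defs

variable {κ : Type} {K G : κ → Type} [∀ k, Field (K k)] {T : Type} [Fintype T] [DecidableEq T]

/-- The root vectors of the blocks with `J`: `root (g, g', τ)` plus its conjugate by `J`. -/
def rootQ (h : ∀ k, G k → K k) (q : ∀ k, G k → G k) (d : ∀ k, G k → K k) (k : κ) (g g' : G k)
    (τ : K k →+* ℂ) (u : (T → LU K G) → ℂ) (t : T → LU K G) : ℂ :=
  root h k g g' τ u t +
    τ (d k (q k g')) / τ (d k (q k g)) * root h k (q k g) (q k g') (cj τ) u t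

/-- All root vectors kill `u` (for the blocks with `J` also those with `g = g'`). -/
def KilledQ (h : ∀ k, G k → K k) (q : ∀ k, G k → G k) (d : ∀ k, G k → K k)
    (u : (T → LU K G) → ℂ) : Prop :=
  ∀ k : κ, (d k = 0 → ∀ (g g' : G k) (τ : K k →+* ℂ), g ≠ g' → ∀ t, root h k g g' τ u t = 0) ∧
    (d k ≠ 0 → ∀ (g g' : G k) (τ : K k →+* ℂ) (t : T → LU K G), rootQ h q d k g g' τ u t = 0)

end defs

/-- QB: all blocks, first fundamental theorems for `𝔰𝔩`, `𝔰𝔭`, `𝔰𝔬`. -/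
def QB : Prop :=
  ∀ (κ : Type) [Fintype κ] (K G : κ → Type) [∀ k, Field (K k)] [∀ k, NumberField (K k)]
    [∀ k, NumberField.IsCMField (K k)] [∀ k, Fintype (G k)] [∀ k, Nonempty (G k)]
    (h : ∀ k, G k → K k), (∀ k g, h k g ≠ 0 ∧ ∀ τ : K k →+* ℂ, (τ (h k g)).im = 0) →
    ∀ (q : ∀ k, G k → G k) (d : ∀ k, G k → K k), (∀ k, IsQuat (h k) (q k) (d k)) →
    ∀ (T : Type) [Fintype T] [DecidableEq T] (u : (T → LU K G) → ℂ), KilledQ h q d u →
    u ∈ Submodule.span ℂ {w : (T → LU K G) → ℂ | ∃ (S : Finset T) (w₀ : (T → LU K G) → ℂ),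
      IsBT h w₀ ∧ w = mvJ q d S w₀}

/-- QC: the rational Lie algebras and the root vectors. -/
def QC : Prop :=
  ∀ (κ : Type) [Fintype κ] [DecidableEq κ] (K G : κ → Type) [∀ k, Field (K k)]
    [∀ k, NumberField (K k)] [∀ k, NumberField.IsCMField (K k)] [∀ k, Fintype (G k)]
    (h : ∀ k, G k → K k), (∀ k g, h k g ≠ 0 ∧ ∀ τ : K k →+* ℂ, (τ (h k g)).im = 0) →
    ∀ (q : ∀ k, G k → G k) (d : ∀ k, G k → K k), (∀ k, IsQuat (h k) (q k) (d k)) →
    ∀ (T : Type) [Fintype T] [DecidableEq T] (u : (T → LU K G) → ℂ),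
    (∀ X : ∀ k, Matrix (G k) (G k) (K k), IsSUQ h q d X → der X u = 0) → KilledQ h q d u

/-- QI: `J` does not change the weights. -/
def QI : Prop :=
  ∀ (κ : Type) [Fintype κ] (K G : κ → Type) [∀ k, Field (K k)] [∀ k, NumberField (K k)]
    [∀ k, NumberField.IsCMField (K k)] [∀ k, Fintype (G k)] [∀ k, Nonempty (G k)]
    (h : ∀ k, G k → K k) (q : ∀ k, G k → G k) (d : ∀ k, G k → K k),
    (∀ k, IsQuat (h k) (q k) (d k)) →
    ∀ Φ : ∀ i : Σ k, G k, Set (K i.1 →+* ℂ), IsTypeQ q d Φ →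
    ∀ (e : κ → ℕ) (E : Type) [Field E] [NumberField E] [IsGalois ℚ E] (j : ∀ k, K k →+* E)
    (τ₀ : E →+* ℂ) (m : ℕ) (T : Type) [Fintype T] [DecidableEq T] (S : Finset T)
    (t : T → LU K G), (∏ a ∈ S, jv q d (t a)) ≠ 0 → (Bal Φ e τ₀ m t ↔ Bal Φ e τ₀ m (mw q S t))

/-- QJ: `J` keeps `H_1(X, ℚ)^{⊗ T}`. -/
def QJ : Prop :=
  ∀ (κ : Type) [Fintype κ] (K G : κ → Type) [∀ k, Field (K k)] [∀ k, NumberField (K k)]
    [∀ k, NumberField.IsCMField (K k)] [∀ k, Fintype (G k)]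
    (h : ∀ k, G k → K k) (q : ∀ k, G k → G k) (d : ∀ k, G k → K k),
    (∀ k, IsQuat (h k) (q k) (d k)) →
    ∀ (T : Type) [Fintype T] [DecidableEq T] (S : Finset T),
    ∀ u ∈ TQ K G T, mvJ q d S u ∈ TQ K G T

/-- QL: `J` commutes with the Lie algebra. -/
def QL : Prop :=
  ∀ (κ : Type) [Fintype κ] (K G : κ → Type) [∀ k, Field (K k)] [∀ k, NumberField (K k)]
    [∀ k, NumberField.IsCMField (K k)] [∀ k, Fintype (G k)]
    (h : ∀ k, G k → K k) (q : ∀ k, G k → G k) (d : ∀ k, G k → K k),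
    (∀ k, IsQuat (h k) (q k) (d k)) →
    ∀ (T : Type) [Fintype T] [DecidableEq T] (S : Finset T) (u : (T → LU K G) → ℂ)
    (X : ∀ k, Matrix (G k) (G k) (K k)), IsSUQ h q d X →
    der X (mvJ q d S u) = mvJ q d S (der X u)

/-- QM: `J` commutes with the torus. -/
def QM : Prop :=
  ∀ (κ : Type) [Fintype κ] (K G : κ → Type) [∀ k, Field (K k)] [∀ k, NumberField (K k)]
    [∀ k, NumberField.IsCMField (K k)] [∀ k, Fintype (G k)] [∀ k, Nonempty (G k)]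
    (h : ∀ k, G k → K k) (q : ∀ k, G k → G k) (d : ∀ k, G k → K k),
    (∀ k, IsQuat (h k) (q k) (d k)) →
    ∀ Φ : ∀ i : Σ k, G k, Set (K i.1 →+* ℂ), IsTypeQ q d Φ →
    ∀ (e : κ → ℕ) (E : Type) [Field E] [NumberField E] [IsGalois ℚ E] (j : ∀ k, K k →+* E)
    (τ₀ : E →+* ℂ) (T : Type) [Fintype T] [DecidableEq T] (S : Finset T)
    (u : (T → LU K G) → ℂ) (x : E) (z : ∀ i : Σ k, G k, K i.1),
    IsReflexNorm Φ (fun i => j i.1) τ₀ x z →
    scl (fun k => (∏ g, z ⟨k, g⟩) ^ e k) (mvJ q d S u) =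
      mvJ q d S (scl (fun k => (∏ g, z ⟨k, g⟩) ^ e k) u)

/-- The rational form of the theorem, without `ℚ_p`. -/
def QN : Prop :=
  ∀ (n : ℕ) (κ : Type) [Fintype κ] (K G : κ → Type) [∀ k, Field (K k)]
    [∀ k, NumberField (K k)] [∀ k, NumberField.IsCMField (K k)] [∀ k, Fintype (G k)]
    [∀ k, Nonempty (G k)] (h : ∀ k, G k → K k),
    (∀ k g, h k g ≠ 0 ∧ ∀ τ : K k →+* ℂ, (τ (h k g)).im = 0) →
    ∀ (q : ∀ k, G k → G k) (d : ∀ k, G k → K k), (∀ k, IsQuat (h k) (q k) (d k)) →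
    ∀ Φ : ∀ i : Σ k, G k, Set (K i.1 →+* ℂ), IsTypeQ q d Φ →
    ∀ (N : ℕ) (e : κ → ℕ), 0 < N → (∀ k, e k * Fintype.card (G k) = N) →
    ∀ (E : Type) [Field E] [NumberField E] [IsGalois ℚ E] (j : ∀ k, K k →+* E) (τ₀ : E →+* ℂ)
      (M : ℕ), 0 < M → ∀ u ∈ TQ K G (Fin (2 * n)),
      (∀ X : ∀ k, Matrix (G k) (G k) (K k), IsSUQ h q d X → der X u = 0) →
      (∀ y : E, IsIntegral ℤ y → ∀ z : ∀ i : Σ k, G k, K i.1,
        IsReflexNorm Φ (fun i => j i.1) τ₀ (1 + (M : E) * y) z →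
        scl (fun k => (∏ g, z ⟨k, g⟩) ^ e k) u =
          (Algebra.norm ℚ (1 + (M : E) * y)) ^ (n * N) • u) →
      u ∈ Submodule.span ℚ {w : (Fin (2 * n) → LU K G) → ℂ | IsProdQ Φ h q d n w}

/-- QO: assembly of the rational form, with the rows of `UNIT`. -/
def QO : Prop := QB → QC → QI → QJ → UNIT.UD → UNIT.UH → UNIT.UI → UNIT.UJ → UNIT.UK → QN

/-- QP: from the rational form to `ℚ_p`, with the rows of `UNIT`. -/
def QP : Prop := QN → QL → QM → UNIT.UL → UNIT.UM → TateQ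

end

end Pool.Agent.UNQ
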