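import Pool.Agent.Lib.UNQ.SoFftB

/-!
# The first fundamental theorem for `𝔰𝔬`, scalar tensors, for any symmetric monomial form
(helper26)
-/

set_option autoImplicit false
set_option linter.unusedSectionVars false

open Function

namespace Pool.Agent.UNQ

namespace So

noncomputable section

variable {T G : Type} [Fintype T] [DecidableEq T] [Fintype G] [DecidableEq G] {ι : G → G}

/-- A square root of the form. -/
theorem exists_root (hι : ∀ g, ι (ι g) = g) (h : G → ℂ) (h0 : ∀ g, h g ≠ 0)
    (hh : ∀ g, h (ι g) = h g) : ∃ c : G → ℂ, (∀ g, c g ≠ 0) ∧ ∀ g, c g * c (ι g) = h g := by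
  let o := Fintype.equivFin G
  have hr : ∀ z : ℂ, ∃ w : ℂ, w ^ 2 = z := fun z =>
    IsAlgClosed.exists_pow_nat_eq z (by norm_num)
  choose r hr using hr
  let c : G → ℂ := fun g => if ι g = g then r (h g) else if o g < o (ι g) then 1 else h g
  have hc : ∀ g, c g * c (ι g) = h g := by
    intro g
    by_cases h1 : ι g = g
    · have h2 : c g = r (h g) := if_pos h1
      rw [h1, h2, ← sq, hr]
    · have h1' : ¬ ι (ι g) = ι g := fun h2 => h1 (by rw [hι] at h2; exact h2.symm)
      by_cases h2 : o g < o (ι g)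
      · have h3 : ¬ o (ι g) < o (ι (ι g)) := by
          rw [hι]
          exact not_lt.2 h2.le
        have h4 : c g = 1 := (if_neg h1).trans (if_pos h2)
        have h5 : c (ι g) = h (ι g) := (if_neg h1').trans (if_neg h3)
        rw [h4, h5, hh, one_mul]
      · have h3 : o (ι g) < o (ι (ι g)) := by
          rw [hι]
          refine lt_of_le_of_ne (not_lt.1 h2) fun h4 => h1 (o.injective h4)
        have h4 : c g = h g := (if_neg h1).trans (if_neg h2)
        have h5 : c (ι g) = 1 := (if_neg h1').trans (if_pos h3)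
        rw [h4, h5, mul_one]
  refine ⟨c, fun g hg => h0 g ?_, hc⟩
  rw [← hc g, hg, zero_mul]

theorem prod_update {c : G → ℂ} (hc : ∀ g, c g ≠ 0) (t : T → G) (i : T) (a b : G)
    (h : t i = a) : ∏ k, c (update t i b k) = c b / c a * ∏ k, c (t k) := by
  rw [← Finset.mul_prod_erase _ _ (Finset.mem_univ i),
    ← Finset.mul_prod_erase Finset.univ (fun k => c (t k)) (Finset.mem_univ i), update_self, h]
  have h1 : ∏ k ∈ Finset.univ.erase i, c (update t i b k) =
      ∏ k ∈ Finset.univ.erase i, c (t k) := by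
    refine Finset.prod_congr rfl fun k hk => ?_
    rw [update_of_ne (Finset.ne_of_mem_erase hk)]
  rw [h1]
  have h2 := hc a
  field_simp

theorem E_scale {c : G → ℂ} (hc : ∀ g, c g ≠ 0) (v : (T → G) → ℂ) (a b : G) (t : T → G) :
    E Finset.univ a b (fun t => (∏ k, c (t k)) * v t) t =
      c b / c a * (∏ k, c (t k)) * E Finset.univ a b v t := by
  rw [E, E, Finset.mul_sum]
  refine Finset.sum_congr rfl fun i _ => ?_
  by_cases h1 : t i = a
  · rw [if_pos h1, if_pos h1, prod_update hc t i a b h1]
  · rw [if_neg h1, if_neg h1, mul_zero]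

/-- The determinant, written out. -/
theorem D_eq {S : Finset T} (e : G ≃ S) (t : T → G) :
    D e t = ∑ p : Equiv.Perm G, ((Equiv.Perm.sign p : ℤ) : ℂ) *
      if (fun g => t (e g)) = fun g => p g then 1 else 0 := by
  unfold D
  rw [← Matrix.det_transpose, Matrix.det_apply']
  refine Finset.sum_congr rfl fun p _ => ?_
  congr 1
  simp only [Matrix.transpose_apply, Matrix.of_apply]
  by_cases h1 : (fun g => t (e g)) = fun g => p g
  · rw [if_pos h1]
    exact Finset.prod_eq_one fun g _ => if_pos (congrFun h1 g)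
  · rw [if_neg h1]
    have h2 : ∃ g, t (e g) ≠ p g := by
      by_contra h3
      push Not at h3
      exact h1 (funext h3)
    obtain ⟨g, hg⟩ := h2
    exact Finset.prod_eq_zero (Finset.mem_univ g) (if_neg hg)

/-- The shape of a generator. -/
theorem Gen.shape {h c : G → ℂ} (hc0 : ∀ g, c g ≠ 0) (hc : ∀ g, c g * c (ι g) = h g)
    {S : Finset T} {f : (T → G) → ℂ} (hf : Gen ι S f) :
    ∃ (d r : ℕ) (e : (Fin d × Fin 2) ⊕ (Fin r × G) → T) (c0 : ℂ), Injective e ∧
      (∀ k, k ∈ S ↔ ∃ x, e x = k) ∧ ∀ t, (∏ a ∈ S, c (t a))⁻¹ * f t = c0 *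
        ((∏ i, if t (e (Sum.inl (i, 1))) = ι (t (e (Sum.inl (i, 0)))) then
          (h (t (e (Sum.inl (i, 0)))))⁻¹ else 0) *
        ∏ j, ∑ p : Equiv.Perm G, ((Equiv.Perm.sign p : ℤ) : ℂ) *
          if (fun g => t (e (Sum.inr (j, g)))) = fun g => p g then 1 else 0) := by
  induction hf with
  | one =>
    refine ⟨0, 0, Sum.elim (fun x => Fin.elim0 x.1) (fun x => Fin.elim0 x.1), 1, ?_, ?_, ?_⟩
    · rintro (x | x)
      · exact Fin.elim0 x.1
      · exact Fin.elim0 x.1
    · intro k
      refine ⟨fun h1 => absurd h1 (Finset.notMem_empty k), ?_⟩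
      rintro ⟨x | x, -⟩
      · exact Fin.elim0 x.1
      · exact Fin.elim0 x.1
    · intro t
      simp
  | det S e =>
    refine ⟨0, 1, Sum.elim (fun x => Fin.elim0 x.1) (fun x => e x.2), (∏ g, c g)⁻¹, ?_, ?_, ?_⟩
    · rintro (x | x)
      · exact Fin.elim0 x.1
      · rintro (y | y) hxy
        · exact Fin.elim0 y.1
        · have h1 : x.2 = y.2 := e.injective (Subtype.ext hxy)
          have h2 : x = y := Prod.ext (Subsingleton.elim _ _) h1
          rw [h2]
    · intro k
      refine ⟨fun h1 => ⟨Sum.inr (0, e.symm ⟨k, h1⟩), ?_⟩, ?_⟩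
      · simp
      · rintro ⟨x | x, hx⟩
        · exact Fin.elim0 x.1
        · rw [← hx]
          exact (e x.2).2
    · intro t
      rw [D_eq]
      rw [Fin.prod_univ_zero, one_mul, Fin.prod_univ_one]
      change _ = (∏ g, c g)⁻¹ * ∑ p : Equiv.Perm G, ((Equiv.Perm.sign p : ℤ) : ℂ) *
        if (fun g => t (e g)) = fun g => p g then 1 else 0
      rw [Finset.mul_sum, Finset.mul_sum]
      refine Finset.sum_congr rfl fun p _ => ?_
      by_cases h1 : (fun g => t (e g)) = fun g => p g
      · rw [if_pos h1]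
        have h2 : ∏ a ∈ S, c (t a) = ∏ g, c g := by
          rw [← Finset.prod_coe_sort, ← Equiv.prod_comp e,
            Finset.prod_congr rfl fun g _ => congrArg c (congrFun h1 g)]
          exact Equiv.prod_comp p c
        rw [h2]
      · rw [if_neg h1, mul_zero, mul_zero, mul_zero]
  | pair S f i j hij hi hj hf ih =>
    obtain ⟨d, r, e, c0, hinj, hS, hsh⟩ := ih
    have heS : ∀ x, e x ∈ S := fun x => (hS _).2 ⟨x, rfl⟩
    let e' : (Fin (d + 1) × Fin 2) ⊕ (Fin r × G) → T := Sum.elim
      (fun p => Fin.cases (motive := fun _ => T) (if p.2 = 0 then i else j)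
        (fun k => e (Sum.inl (k, p.2))) p.1) (fun y => e (Sum.inr y))
    have e0 : e' (Sum.inl (0, 0)) = i := rfl
    have e1 : e' (Sum.inl (0, 1)) = j := rfl
    have es : ∀ (k : Fin d) (b : Fin 2), e' (Sum.inl (k.succ, b)) = e (Sum.inl (k, b)) :=
      fun _ _ => rfl
    have er : ∀ y, e' (Sum.inr y) = e (Sum.inr y) := fun _ => rfl
    have hcase : ∀ x, (x = Sum.inl (0, 0) ∨ x = Sum.inl (0, 1)) ∨
        ∃ y : (Fin d × Fin 2) ⊕ (Fin r × G), e' x = e y ∧
          x = Sum.map (fun q => (q.1.succ, q.2)) id y := by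
      rintro (⟨k, b⟩ | y)
      · refine Fin.cases ?_ (fun k => ?_) k
        · left
          fin_cases b
          · left; rfl
          · right; rfl
        · right
          exact ⟨Sum.inl (k, b), rfl, rfl⟩
      · right
        exact ⟨Sum.inr y, rfl, rfl⟩
    refine ⟨d + 1, r, e', c0, ?_, ?_, ?_⟩
    · intro x y hxy
      rcases hcase x with (hx | hx) | ⟨x', hx1, hx2⟩ <;>
        rcases hcase y with (hy | hy) | ⟨y', hy1, hy2⟩
      · rw [hx, hy]
      · rw [hx, hy, e0, e1] at hxy
        exact absurd hxy hij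
      · rw [hx, e0, hy1] at hxy
        exact absurd (heS y') (by rw [← hxy]; exact hi)
      · rw [hx, hy, e0, e1] at hxy
        exact absurd hxy.symm hij
      · rw [hx, hy]
      · rw [hx, e1, hy1] at hxy
        exact absurd (heS y') (by rw [← hxy]; exact hj)
      · rw [hy, e0, hx1] at hxy
        exact absurd (heS x') (by rw [hxy]; exact hi)
      · rw [hy, e1, hx1] at hxy
        exact absurd (heS x') (by rw [hxy]; exact hj)
      · rw [hx1, hy1] at hxy
        rw [hx2, hy2, hinj hxy]
    · intro k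
      constructor
      · intro hk
        rcases Finset.mem_insert.1 hk with rfl | hk
        · exact ⟨_, e0⟩
        · rcases Finset.mem_insert.1 hk with rfl | hk
          · exact ⟨_, e1⟩
          · obtain ⟨x, rfl⟩ := (hS k).1 hk
            refine ⟨Sum.map (fun q => (q.1.succ, q.2)) id x, ?_⟩
            rcases x with x | x
            · rfl
            · rfl
      · rintro ⟨x, rfl⟩
        rcases hcase x with (hx | hx) | ⟨x', hx1, hx2⟩
        · rw [hx, e0]
          simp
        · rw [hx, e1]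
          simp
        · rw [hx1]
          exact Finset.mem_insert_of_mem (Finset.mem_insert_of_mem (heS x'))
    · intro t
      have hi' : i ∉ insert j S := by
        rw [Finset.mem_insert]
        rintro (h1 | h1)
        · exact hij h1
        · exact hi h1
      rw [Finset.prod_insert hi', Finset.prod_insert hj, Fin.prod_univ_succ]
      simp only [es, er, e0, e1]
      have h1 : (c (t i) * (c (t j) * ∏ a ∈ S, c (t a)))⁻¹ * prs ι i j f t =
          (if t j = ι (t i) then (h (t i))⁻¹ else 0) * ((∏ a ∈ S, c (t a))⁻¹ * f t) := by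
        unfold prs
        by_cases h2 : t j = ι (t i)
        · rw [if_pos h2, if_pos h2, ← hc (t i), h2, mul_inv, mul_inv, mul_inv]
          ring
        · rw [if_neg h2, if_neg h2]
          ring
      rw [h1, hsh]
      ring

end

end So

open So in
/-- **The first fundamental theorem for `𝔰𝔬`**, for a symmetric monomial form. -/
theorem sofft {G T : Type} [Fintype G] [DecidableEq G] [Fintype T] [DecidableEq T]
    (ι : G → G) (hι : ∀ g, ι (ι g) = g) (h : G → ℂ) (h0 : ∀ g, h g ≠ 0)
    (hh : ∀ g, h (ι g) = h g) (v : (T → G) → ℂ)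
    (hv : ∀ g g' t, (∑ a, if t a = g then v (update t a g') else 0) -
      h g / h g' * ∑ a, (if t a = ι g' then v (update t a (ι g)) else 0) = 0) :
    v ∈ Submodule.span ℂ {w | ∃ (d r : ℕ) (e : (Fin d × Fin 2) ⊕ (Fin r × G) ≃ T),
      w = fun t => (∏ i, if t (e (Sum.inl (i, 1))) = ι (t (e (Sum.inl (i, 0)))) then
        (h (t (e (Sum.inl (i, 0)))))⁻¹ else 0) *
        ∏ j, ∑ p : Equiv.Perm G, ((Equiv.Perm.sign p : ℤ) : ℂ) *
          if (fun g => t (e (Sum.inr (j, g)))) = fun g => p g then 1 else 0} := by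
  classical
  obtain ⟨c, hc0, hc⟩ := exists_root hι h h0 hh
  let u : (T → G) → ℂ := fun t => (∏ k, c (t k)) * v t
  have hu : u ∈ P ι (Finset.univ : Finset T) := by
    refine core hι _ Finset.univ rfl u (fun t t' htt => ?_) fun a b => ?_
    · rw [funext fun i => htt i (Finset.mem_univ i)]
    · funext t
      rw [E_scale hc0, E_scale hc0]
      have h1 : E Finset.univ a b v t = h a / h b * E Finset.univ (ι b) (ι a) v t :=
        sub_eq_zero.1 (hv a b t)
      rw [h1, ← hc a, ← hc b]
      have h2 := hc0 a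
      have h3 := hc0 b
      have h4 := hc0 (ι b)
      field_simp
  let L : ((T → G) → ℂ) →ₗ[ℂ] ((T → G) → ℂ) :=
    { toFun := fun f t => (∏ a, c (t a))⁻¹ * f t
      map_add' := fun f g => by
        funext t
        simp only [Pi.add_apply, mul_add]
      map_smul' := fun k f => by
        funext t
        simp only [Pi.smul_apply, smul_eq_mul, RingHom.id_apply]
        ring }
  have hL : L u = v := by
    funext t
    change (∏ a, c (t a))⁻¹ * ((∏ a, c (t a)) * v t) = v t
    rw [← mul_assoc, inv_mul_cancel₀ (Finset.prod_ne_zero_iff.2 fun a _ => hc0 _), one_mul]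
  have hmap := Submodule.mem_map_of_mem (f := L) hu
  rw [hL] at hmap
  refine (Submodule.map_span_le L _ _).2 ?_ hmap
  intro f hf
  obtain ⟨d, r, e, c0, hinj, hS, hsh⟩ := Gen.shape hc0 hc hf
  let e' : (Fin d × Fin 2) ⊕ (Fin r × G) ≃ T := Equiv.ofBijective e
    ⟨hinj, fun k => (hS k).1 (Finset.mem_univ k)⟩
  have h1 : L f = c0 • fun t => (∏ i, if t (e' (Sum.inl (i, 1))) = ι (t (e' (Sum.inl (i, 0)))) then
        (h (t (e' (Sum.inl (i, 0)))))⁻¹ else 0) *
        ∏ j, ∑ p : Equiv.Perm G, ((Equiv.Perm.sign p : ℤ) : ℂ) *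
          if (fun g => t (e' (Sum.inr (j, g)))) = fun g => p g then 1 else 0 := by
    funext t
    exact hsh t
  rw [h1]
  exact Submodule.smul_mem _ _ (Submodule.subset_span ⟨d, r, e', rfl⟩)

end Pool.Agent.UNQ
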