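import Pool.Agent.Lib.UNQ.QB
import Pool.Agent.Lib.UNQ.SoFft

/-!
# Row QB of UNQ
-/

set_option autoImplicit false

namespace Pool.Agent.UNQ

theorem soF : SoF := fun _ _ _ _ _ _ ι hι h h0 hh v hv => sofft ι hι h h0 hh v hv

/-- **QB**: all blocks. -/
theorem qb : QB := qb_of_so soF

end Pool.Agent.UNQ
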