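import Pool.Agent.Lib.UNQ.UBO

/-!
# Row QB: all blocks
-/

set_option autoImplicit false
set_option linter.unusedSectionVars false

open Function Pool.Agent.HCM Pool.Agent.RAT Pool.Agent.UNIT Pool.Agent.UNJ.Gl
open scoped ComplexConjugate symmDiff

namespace Pool.Agent.UNQ

namespace VB

noncomputable section

variable {κ : Type} {K G : κ → Type} [∀ k, Field (K k)] [∀ k, Fintype (G k)]
  {q : ∀ k, G k → G k} {d : ∀ k, G k → K k} {h : ∀ k, G k → K k}
  {P : Type} [Fintype P] [DecidableEq P] {k : κ}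

theorem el_comp {Λ Λ' P : Type} [DecidableEq Λ] [DecidableEq Λ'] [Fintype P] [DecidableEq P]
    {j : Λ' → Λ} (hj : Injective j) (p q : Λ') (φ : (P → Λ) → ℂ) (s : P → Λ') :
    el (j p) (j q) φ (fun a => j (s a)) = el p q (fun s => φ fun a => j (s a)) s := by
  unfold el
  refine Finset.sum_congr rfl fun a _ => ?_
  refine if_congr hj.eq_iff ?_ rfl
  congr 1
  funext a'
  by_cases h : a' = a
  · subst h
    rw [update_self, update_self]
  · rw [update_of_ne h, update_of_ne h]

open Classical in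
/-- The hermitian block. -/
theorem one_cm [∀ k, NumberField (K k)] [∀ k, Nonempty (G k)]
    (hcm : NumberField.IsCMField (K k)) (h0 : ∀ g, h k g ≠ 0)
    (hr : ∀ g (τ : K k →+* ℂ), (τ (h k g)).im = 0) (φ : (P → LU K G) → ℂ)
    (hφ : ∀ x, φ x ≠ 0 → ∀ a, (x a).1.1 = k)
    (hu : ∀ (g g' : G k) (τ : K k →+* ℂ), g ≠ g' → ∀ x, el ⟨⟨k, g⟩, τ⟩ ⟨⟨k, g'⟩, τ⟩ φ x =
      τ (h k g) / τ (h k g') * el ⟨⟨k, g'⟩, cj τ⟩ ⟨⟨k, g⟩, cj τ⟩ φ x) :
    φ ∈ Submodule.span ℂ (SQ q d h P) := by
  let j : LU (fun _ : Unit => K k) (fun _ : Unit => G k) → LU K G :=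
    fun y => ⟨⟨k, y.1.2⟩, y.2⟩
  have hj : Injective j := by
    rintro ⟨⟨⟨⟩, g⟩, τ⟩ ⟨⟨⟨⟩, g'⟩, τ'⟩ h1
    simp only [j, Sigma.mk.injEq, heq_eq_eq, true_and] at h1
    obtain ⟨h1, h2⟩ := h1
    rw [h1]
    simp_all
  have hrg : ∀ y : LU K G, y.1.1 = k → ∃ z, y = j z := by
    rintro ⟨⟨k', g⟩, τ⟩ rfl
    exact ⟨⟨⟨(), g⟩, τ⟩, rfl⟩
  have h1 := ub Unit (fun _ => K k) (fun _ => G k) (fun _ g => h k g)
    (fun _ g => ⟨h0 g, hr g⟩) P (fun s => φ fun a => j (s a)) (by
      rintro ⟨⟩ g g' τ hg s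
      have h2 := hu g g' τ hg fun a => j (s a)
      have h3 := el_comp hj (⟨⟨(), g⟩, τ⟩) (⟨⟨(), g'⟩, τ⟩) φ s
      have h4 := el_comp hj (⟨⟨(), g'⟩, cj τ⟩) (⟨⟨(), g⟩, cj τ⟩) φ s
      have h5 := h3.symm.trans (h2.trans (congrArg _ h4))
      unfold UNIT.root
      rw [sub_eq_zero]
      unfold el at h5
      convert h5)
  refine push j _ _ ?_ φ ?_ h1
  · rintro w ⟨n, r, pk, pτ, blk, τ, e, rfl⟩
    let D : PD K G P := ⟨Fin n, Fin r, inferInstance, inferInstance, fun _ => k, pτ, fun _ => k, τ,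
      e⟩
    refine ⟨D.val h, ⟨D, ∅, (mvJ_empty q d _).symm⟩, fun s => ?_, fun t ht => ?_⟩
    · unfold PD.val UNIT.bt
      congr 1
      · refine Finset.prod_congr rfl fun i _ => ?_
        change pc h k (pτ i) (j _) (j _) = UNIT.pc (K := fun _ : Unit => K k)
          (G := fun _ : Unit => G k) _ (pk i) (pτ i) _ _
        unfold UNIT.pc
        refine Finset.sum_congr rfl fun g _ => ?_
        refine ite_iff (and_congr ?_ ?_)
        · exact hj.eq_iff (b := ⟨⟨(), g⟩, pτ i⟩)
        · exact hj.eq_iff (b := ⟨⟨(), g⟩, cj (pτ i)⟩)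
      · refine Finset.prod_congr rfl fun l _ => ?_
        change dc k (τ l) (fun g => j _) = dc (K := fun _ : Unit => K k)
          (G := fun _ : Unit => G k) (blk l) (τ l) _
        unfold dc
        refine Finset.sum_congr rfl fun π _ => ?_
        congr 1
        refine ite_iff ?_
        constructor
        · intro h2
          funext g
          exact hj (congrFun h2 g)
        · intro h2
          funext g
          rw [show s (D.e (Sum.inr ⟨l, g⟩)) = _ from congrFun h2 g]
    · have h2 : ∀ a, (t a).1.1 = k := by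
        intro a
        obtain ⟨z, rfl⟩ := D.e.surjective a
        have h3 := left_ne_zero_of_mul ht
        have h4 := right_ne_zero_of_mul ht
        rw [Finset.prod_ne_zero_iff] at h3 h4
        rcases z with ⟨i, ε⟩ | ⟨l, g⟩
        · obtain ⟨g, h5, h6⟩ := pc_ne h (h3 i (Finset.mem_univ i))
          fin_cases ε
          · exact (congrArg (fun y => y.1.1) h5).trans rfl
          · exact (congrArg (fun y => y.1.1) h6).trans rfl
        · obtain ⟨π, h5⟩ := dc_ne (h4 l (Finset.mem_univ l))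
          exact congrArg (fun y => y.1.1) (congrFun h5 g)
      choose s hs using fun a => hrg (t a) (h2 a)
      exact ⟨s, funext hs⟩
  · intro t ht
    choose s hs using fun a => hrg (t a) (hφ t ht a)
    exact ⟨s, funext hs⟩

/-- No letters. -/
theorem one_none (φ : (P → LU K G) → ℂ) (hφ : ∀ x, φ x ≠ 0 → IsEmpty P) :
    φ ∈ Submodule.span ℂ (SQ q d h P) := by
  by_cases h1 : ∃ x, φ x ≠ 0
  · obtain ⟨x, hx⟩ := h1
    have := hφ x hx
    let D : PD K G P := ⟨Empty, Empty, inferInstance, inferInstance, Empty.elim, fun l => l.elim,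
      Empty.elim, fun l => l.elim, (Equiv.sumEmpty _ _).trans
        ((Equiv.equivEmpty (Empty × Fin 2)).trans (Equiv.equivEmpty P).symm)⟩
    have h2 : φ = φ x • D.val h := by
      funext t
      have h3 : D.val h t = 1 := by
        unfold PD.val
        rw [Finset.prod_eq_one fun i _ => Empty.elim i, Finset.prod_eq_one fun i _ => Empty.elim i,
          one_mul]
      rw [Pi.smul_apply, h3, smul_eq_mul, mul_one]
      exact congrArg φ (Subsingleton.elim _ _)
    rw [h2]
    exact Submodule.smul_mem _ _ (Submodule.subset_span ⟨D, ∅, (mvJ_empty q d _).symm⟩)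
  · push Not at h1
    rw [show φ = 0 from funext h1]
    exact Submodule.zero_mem _

open Classical in
/-- Gluing of moved products. -/
theorem glue_mv {T Bk : Type} [Fintype T] [DecidableEq T] [Fintype Bk] {c : T → Bk}
    (D : ∀ b, PD K G {a // c a = b}) (S : ∀ b, Finset {a // c a = b}) (t : T → LU K G) :
    mvJ q d (Finset.univ.filter fun a => (⟨a, rfl⟩ : {a' // c a' = c a}) ∈ S (c a))
      ((PD.glue D).val h) t = ∏ b, mvJ q d (S b) ((D b).val h) fun a => t a.1 := by
  have hmem : ∀ (b : Bk) (a : {a // c a = b}),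
      a.1 ∈ (Finset.univ.filter fun a => (⟨a, rfl⟩ : {a' // c a' = c a}) ∈ S (c a)) ↔ a ∈ S b := by
    rintro b ⟨a, rfl⟩
    simp
  simp only [mvJ_apply]
  rw [Finset.prod_mul_distrib, PD.glue_val]
  congr 1
  · have h1 : ∀ (X : Type) [Fintype X] [DecidableEq X] (A : Finset X) (f : X → ℂ),
        ∏ a ∈ A, f a = ∏ a, if a ∈ A then f a else 1 := by
      intro X _ _ A f
      rw [Finset.prod_ite_mem, Finset.univ_inter]
    rw [h1, ← Equiv.prod_comp (Equiv.sigmaFiberEquiv c), Fintype.prod_sigma]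
    refine Finset.prod_congr rfl fun b _ => ?_
    rw [h1 _ (S b) fun a => jv q d (t a.1)]
    refine Finset.prod_congr rfl fun a _ => ?_
    exact if_congr (hmem b a) rfl rfl
  · refine Finset.prod_congr rfl fun b _ => ?_
    congr 1
    funext a
    unfold mw
    exact if_congr (hmem b a) rfl rfl

end

end VB

open Classical VB in
/-- **QB**: all blocks. -/
theorem qb_of (sp : SpF) (so : SoF) : QB := by
  intro κ _ K G _ _ _ _ _ h hh q d hq T _ _ u hu
  obtain ⟨sgn, hsgn⟩ := UBx.exists_sgn (K := K)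
  let rep : ∀ k, (K k →+* ℂ) → (K k →+* ℂ) := fun k τ => if sgn ⟨k, τ⟩ = true then τ else cj τ
  have hrep : ∀ k τ, rep k (cj τ) = rep k τ := by
    intro k τ
    have h1 : sgn ⟨k, cj τ⟩ = !sgn ⟨k, τ⟩ := hsgn ⟨k, τ⟩
    simp only [rep, h1]
    cases sgn ⟨k, τ⟩
    · simp
    · simp
  let β : LU K G → Σ k, Option (K k →+* ℂ) := fun y =>
    ⟨y.1.1, if d y.1.1 = 0 then none else some (rep _ y.2)⟩
  have hβ : ∀ (k : κ) (g : G k) (τ : K k →+* ℂ), β ⟨⟨k, g⟩, τ⟩ =
      ⟨k, if d k = 0 then none else some (rep k τ)⟩ := fun _ _ _ => rfl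
  let rel : (Σ k, Option (K k →+* ℂ)) → List (LU K G × LU K G × ℂ) → Prop := fun b l =>
    (∃ (k : κ) (g g' : G k) (τ : K k →+* ℂ), d k = 0 ∧ g ≠ g' ∧ b = ⟨k, none⟩ ∧
      l = [(⟨⟨k, g⟩, τ⟩, ⟨⟨k, g'⟩, τ⟩, 1),
        (⟨⟨k, g'⟩, cj τ⟩, ⟨⟨k, g⟩, cj τ⟩, -(τ (h k g) / τ (h k g')))]) ∨
    (∃ (k : κ) (g g' : G k) (τ : K k →+* ℂ), d k ≠ 0 ∧ b = ⟨k, some (rep k τ)⟩ ∧
      l = [(⟨⟨k, g⟩, τ⟩, ⟨⟨k, g'⟩, τ⟩, 1),
        (⟨⟨k, g'⟩, cj τ⟩, ⟨⟨k, g⟩, cj τ⟩, -(τ (h k g) / τ (h k g'))),
        (⟨⟨k, q k g⟩, cj τ⟩, ⟨⟨k, q k g'⟩, cj τ⟩, τ (d k (q k g')) / τ (d k (q k g))),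
        (⟨⟨k, q k g'⟩, cj (cj τ)⟩, ⟨⟨k, q k g⟩, cj (cj τ)⟩,
          -(τ (d k (q k g')) / τ (d k (q k g)) *
            (cj τ (h k (q k g)) / cj τ (h k (q k g')))))])
  have h1 := Gl.glue (β := β) (fun P _ _ => SQ q d h P) rel ?_ ?_ u ?_
  · refine Submodule.span_le.mpr ?_ h1
    rintro w ⟨c, ψ, hψ, rfl⟩
    choose D S hD using hψ
    refine Submodule.subset_span
      ⟨Finset.univ.filter fun a => (⟨a, rfl⟩ : {a' // c a' = c a}) ∈ S (c a),
        (PD.glue D).val h, (PD.glue D).isBT h, ?_⟩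
    funext t
    rw [glue_mv]
    exact Finset.prod_congr rfl fun b _ => congrFun (hD b) _
  · rintro b l (⟨k, g, g', τ, hk, hg, rfl, rfl⟩ | ⟨k, g, g', τ, hk, rfl, rfl⟩) r hr
    · simp only [List.mem_cons, List.not_mem_nil, or_false] at hr
      rcases hr with rfl | rfl <;> simp only [hβ, if_pos hk, and_self]
    · simp only [List.mem_cons, List.not_mem_nil, or_false] at hr
      rcases hr with rfl | rfl | rfl | rfl <;> simp only [hβ, if_neg hk, hrep, and_self]
  · rintro ⟨k, o⟩ P _ _ φ hφ hkill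
    have hfst : ∀ y : LU K G, ∀ o', β y = ⟨k, o'⟩ → y.1.1 = k :=
      fun y o' h2 => congrArg (fun z => z.1) h2
    by_cases hk : d k = 0
    · cases o with
      | none =>
        refine one_cm (k := k) inferInstance (fun g => (hh k g).1) (fun g τ => (hh k g).2 τ) φ
          (fun x hx a => hfst _ _ (hφ x hx a)) ?_
        intro g g' τ hg x
        have h2 := hkill _ (Or.inl ⟨k, g, g', τ, hk, hg, rfl, rfl⟩) x
        simp only [Gl.rl, List.map_cons, List.map_nil, List.sum_cons, List.sum_nil] at h2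
        linear_combination h2
      | some σ =>
        refine one_none φ fun x hx => ⟨fun a => ?_⟩
        have h2 := hφ x hx a
        generalize x a = y at h2
        obtain ⟨⟨k', g⟩, τ'⟩ := y
        have h3 := hfst _ _ h2
        subst h3
        rw [hβ, if_pos hk] at h2
        simp at h2
    · cases o with
      | none =>
        refine one_none φ fun x hx => ⟨fun a => ?_⟩
        have h2 := hφ x hx a
        generalize x a = y at h2
        obtain ⟨⟨k', g⟩, τ'⟩ := y
        have h3 := hfst _ _ h2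
        subst h3
        rw [hβ, if_neg hk] at h2
        simp at h2
      | some σ =>
        have hlet : ∀ x, φ x ≠ 0 → ∀ a, ∃ (g : G k) (τ : K k →+* ℂ),
            x a = ⟨⟨k, g⟩, τ⟩ ∧ rep k τ = σ := by
          intro x hx a
          have h2 := hφ x hx a
          generalize x a = y at h2
          obtain ⟨⟨k', g⟩, τ'⟩ := y
          have h3 := hfst _ _ h2
          subst h3
          rw [hβ, if_neg hk] at h2
          simp only [Sigma.mk.injEq, heq_eq_eq, true_and, Option.some.injEq] at h2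
          exact ⟨g, τ', rfl, h2⟩
        have hrs : ∀ τ, sgn ⟨k, rep k τ⟩ = true := by
          intro τ
          have h2 : sgn ⟨k, cj τ⟩ = !sgn ⟨k, τ⟩ := hsgn ⟨k, τ⟩
          simp only [rep]
          split_ifs with h3
          · exact h3
          · rw [h2]
            simp [h3]
        by_cases hσ : sgn ⟨k, σ⟩ = true
        · have hσ' : rep k σ = σ := if_pos hσ
          obtain hz | ⟨hinv, b, s, hb0, hs, hbs⟩ := hq k
          · exact absurd (funext hz) hk
          have hd : ∀ g, d k g ≠ 0 := by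
            intro g hg
            have h2 := (hbs g).1 σ
            rw [hg, map_zero, zero_mul] at h2
            exact hb0 ((map_eq_zero σ).mp h2.symm)
          refine one_J (k := k) sp so σ (UBx.cj_ne σ) hd hinv (fun g => (hh k g).1) b hb0
            (fun g => (hbs g).1 σ) s hs (fun g => (hbs g).2)
            (fun g => Complex.conj_eq_iff_im.mpr ((hh k g).2 σ)) φ ?_ ?_
          · intro x hx a
            obtain ⟨g, τ, h2, h3⟩ := hlet x hx a
            by_cases h4 : sgn ⟨k, τ⟩ = true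
            · left
              have h5 : τ = σ := (if_pos h4).symm.trans h3
              exact ⟨g, h5 ▸ h2⟩
            · right
              have h5 : cj τ = σ := (if_neg h4).symm.trans h3
              exact ⟨g, by rw [h2, ← h5, UBx.cj_cj']⟩
          · intro g g' t
            have h2 := hkill _ (Or.inr ⟨k, g, g', σ, hk, by rw [hσ'], rfl⟩) t
            simp only [Gl.rl, List.map_cons, List.map_nil, List.sum_cons, List.sum_nil] at h2
            unfold rootQ root
            unfold el at h2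
            linear_combination h2
        · refine one_none φ fun x hx => ⟨fun a => ?_⟩
          obtain ⟨g, τ, h2, h3⟩ := hlet x hx a
          exact hσ (h3 ▸ hrs τ)
  · rintro b l (⟨k, g, g', τ, hk, hg, rfl, rfl⟩ | ⟨k, g, g', τ, hk, rfl, rfl⟩) t
    · have h2 := (hu k).1 hk g g' τ hg t
      simp only [Gl.rl, List.map_cons, List.map_nil, List.sum_cons, List.sum_nil]
      unfold root at h2
      unfold el
      linear_combination h2
    · have h2 := (hu k).2 hk g g' τ t
      simp only [Gl.rl, List.map_cons, List.map_nil, List.sum_cons, List.sum_nil]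
      unfold rootQ root at h2
      unfold el
      linear_combination h2

open Classical in
theorem spF : SpF := by
  intro G T _ _ _ _ ι hι h h0 hh v hv
  have h1 := UNJ.spfft ι hι h h0 hh v fun g g' _ t => hv g g' t
  unfold UNJ.bet at h1
  convert h1

/-- QB from the first fundamental theorem for `𝔰𝔬`. -/
theorem qb_of_so (so : SoF) : QB := qb_of spF so

end Pool.Agent.UNQ
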