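import Pool.Agent.Lib.UNQ.Stat
import Pool.Agent.Lib.UNIT.Basic

/-!
# UNQ: the endomorphism `J` on tensors
-/

set_option autoImplicit false

open scoped TensorProduct ComplexConjugate
open Complex Pool.Agent.HCM Pool.Agent.RAT Pool.Agent.UNIT

namespace Pool.Agent.UNQ

noncomputable section

variable {κ : Type} {K G : κ → Type} [∀ k, Field (K k)] {T : Type} [Fintype T] [DecidableEq T]
  (q : ∀ k, G k → G k) (d : ∀ k, G k → K k)

@[simp] theorem jm_mk (k : κ) (g : G k) (τ : K k →+* ℂ) :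
    jm q (⟨⟨k, g⟩, τ⟩ : LU K G) = ⟨⟨k, q k g⟩, cj τ⟩ := rfl

@[simp] theorem jv_mk (k : κ) (g : G k) (τ : K k →+* ℂ) :
    jv q d (⟨⟨k, g⟩, τ⟩ : LU K G) = τ (d k (q k g)) := rfl

/-- The word `t` with `J` applied to the letters at the places in `S`. -/
def mw (S : Finset T) (t : T → LU K G) : T → LU K G := fun a => if a ∈ S then jm q (t a) else t a

theorem mvJ_apply (S : Finset T) (u : (T → LU K G) → ℂ) (t : T → LU K G) :
    mvJ q d S u t = (∏ a ∈ S, jv q d (t a)) * u (mw q S t) := rfl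

/-- `mvJ` as a linear map. -/
def mvL (S : Finset T) : ((T → LU K G) → ℂ) →ₗ[ℂ] ((T → LU K G) → ℂ) where
  toFun := mvJ q d S
  map_add' u v := by
    funext t
    simp only [mvJ, Pi.add_apply, mul_add]
  map_smul' c u := by
    funext t
    simp only [mvJ, Pi.smul_apply, smul_eq_mul, RingHom.id_apply]
    ring

@[simp] theorem mvL_apply (S : Finset T) (u : (T → LU K G) → ℂ) : mvL q d S u = mvJ q d S u := rfl

theorem mvJ_empty (u : (T → LU K G) → ℂ) : mvJ q d ∅ u = u := by
  funext t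
  simp [mvJ]

theorem mvJ_smul_rat (S : Finset T) (r : ℚ) (u : (T → LU K G) → ℂ) :
    mvJ q d S (r • u) = r • mvJ q d S u := by
  have h1 := (mvL q d S).map_smul (r : ℂ) u
  funext t
  simp only [mvJ, Pi.smul_apply, Algebra.smul_def]
  ring

theorem mvJ_add (S : Finset T) (u v : (T → LU K G) → ℂ) :
    mvJ q d S (u + v) = mvJ q d S u + mvJ q d S v := (mvL q d S).map_add u v

theorem mvJ_zero (S : Finset T) : mvJ q d S (0 : (T → LU K G) → ℂ) = 0 := (mvL q d S).map_zero

/-- `mvJ` and complex linear combinations. -/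
theorem mvJ_span {A B : Set ((T → LU K G) → ℂ)} (S : Finset T)
    (hAB : ∀ w ∈ A, mvJ q d S w ∈ Submodule.span ℂ B) {u : (T → LU K G) → ℂ}
    (hu : u ∈ Submodule.span ℂ A) : mvJ q d S u ∈ Submodule.span ℂ B := by
  induction hu using Submodule.span_induction with
  | mem w hw => exact hAB w hw
  | zero =>
    rw [mvJ_zero]
    exact Submodule.zero_mem _
  | add v w _ _ hv hw =>
    rw [mvJ_add]
    exact Submodule.add_mem _ hv hw
  | smul c v _ hv =>
    have h1 : mvJ q d S (c • v) = c • mvJ q d S v := (mvL q d S).map_smul c v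
    rw [h1]
    exact Submodule.smul_mem _ _ hv

end

end Pool.Agent.UNQ
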