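import Pool.Agent.Lib.UNQ.Rows
import Pool.Agent.Lib.UNIT.UI

/-!
# UNQ, row QI: the endomorphism `J` does not change the weights (helper21)
-/

set_option autoImplicit false

open scoped TensorProduct ComplexConjugate
open Complex Pool.Agent.HCM Pool.Agent.RAT Pool.Agent.UNIT

namespace Pool.Agent.UNQ

noncomputable section

namespace QIx

/-- If one `d g` is not zero, `q` is an involution and no `d g` is zero. -/
theorem quat_ne {F G : Type} [Field F] {h : G → F} {q : G → G} {d : G → F} (hq : IsQuat h q d)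
    {g₀ : G} (h0 : d g₀ ≠ 0) (τ : F →+* ℂ) : (∀ g, q (q g) = g) ∧ ∀ g, d g ≠ 0 := by
  rcases hq with h1 | ⟨h1, b, s, hb, -, h2⟩
  · exact absurd (h1 g₀) h0
  · refine ⟨h1, fun g hg => ?_⟩
    have h3 := (h2 g).1 τ
    rw [hg, map_zero, zero_mul] at h3
    exact hb ((map_eq_zero τ).1 h3.symm)

section

variable {κ : Type} {K G : κ → Type} [∀ k, Field (K k)] {T : Type} [Fintype T] [DecidableEq T]

/-- A word which `J` does not kill: the blocks with `J` at the places in `S`. -/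
theorem jv_ne {h : ∀ k, G k → K k} {q : ∀ k, G k → G k} {d : ∀ k, G k → K k}
    (hq : ∀ k, IsQuat (h k) (q k) (d k)) {S : Finset T} {t : T → LU K G}
    (hS : (∏ a ∈ S, jv q d (t a)) ≠ 0) {a : T} (ha : a ∈ S) :
    (∀ g, q (t a).1.1 (q (t a).1.1 g) = g) ∧ ∀ g, d (t a).1.1 g ≠ 0 := by
  have h1 := Finset.prod_ne_zero_iff.1 hS a ha
  have h2 : d (t a).1.1 (q (t a).1.1 (t a).1.2) ≠ 0 := by
    intro h3
    apply h1
    have h4 : jv q d (t a) = (t a).2 (d (t a).1.1 (q (t a).1.1 (t a).1.2)) := rfl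
    rw [h4, h3, map_zero]
  exact quat_ne (hq (t a).1.1) h2 (t a).2

end

variable {κ : Type} {K G : κ → Type} [∀ k, Field (K k)] [∀ k, NumberField (K k)]
  {E : Type} [Field E] [NumberField E] [IsGalois ℚ E]

/-- The two letters which `J` exchanges have the same weight. -/
theorem wv_q [∀ k, NumberField.IsCMField (K k)]
    (Φ : ∀ i : Σ k, G k, Set (K i.1 →+* ℂ)) (j : ∀ k, K k →+* E) (τ₀ : E →+* ℂ)
    (g : E ≃ₐ[ℚ] E) (k : κ) (q : G k → G k) (hqq : ∀ g, q (q g) = g)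
    (hΦ : ∀ (g : G k) (τ : K k →+* ℂ), cj τ ∈ Φ ⟨k, q g⟩ ↔ τ ∈ Φ ⟨k, g⟩) (σ : K k →+* ℂ) :
    UIx.wv Φ j τ₀ g k (cj σ) = UIx.wv Φ j τ₀ g k σ := by
  have h1 : τ₀.comp (UIx.lf j τ₀ k (cj σ)) = cj (τ₀.comp (UIx.lf j τ₀ k σ)) := by
    rw [← UIx.lf_spec, ← UIx.lf_spec]
  have h2 := UIx.conj_lift τ₀ (UIx.lf j τ₀ k σ) (UIx.lf j τ₀ k (cj σ)) h1 g
  unfold UIx.wv
  rw [h2]
  have h3 : {g' : G k | cj (τ₀.comp ((g : E →+* E).comp (UIx.lf j τ₀ k σ))) ∈ Φ ⟨k, g'⟩} =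
      q '' {g' : G k | τ₀.comp ((g : E →+* E).comp (UIx.lf j τ₀ k σ)) ∈ Φ ⟨k, g'⟩} := by
    ext g'
    constructor
    · intro h4
      refine ⟨q g', ?_, hqq g'⟩
      have h5 := hΦ (q g') (τ₀.comp ((g : E →+* E).comp (UIx.lf j τ₀ k σ)))
      rw [hqq g'] at h5
      exact h5.1 h4
    · rintro ⟨g'', h4, rfl⟩
      exact (hΦ g'' _).2 h4
  rw [h3]
  refine Set.ncard_image_of_injective _ ?_
  intro x y hxy
  rw [← hqq x, hxy, hqq y]

end QIx

/-- **Row QI.** -/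
theorem qi : QI := by
  intro κ _ K G _ _ _ _ _ h q d hq Φ hΦ e E _ _ _ j τ₀ m T _ _ S t hS
  rw [UIx.bal_iff Φ e j τ₀ m t, UIx.bal_iff Φ e j τ₀ m (mw q S t)]
  have key : ∀ (g : E ≃ₐ[ℚ] E) (a : T), e (t a).1.1 * UIx.wv Φ j τ₀ g (t a).1.1 (t a).2 =
      e (mw q S t a).1.1 * UIx.wv Φ j τ₀ g (mw q S t a).1.1 (mw q S t a).2 := by
    intro g a
    by_cases ha : a ∈ S
    · obtain ⟨h1, h2⟩ := QIx.jv_ne hq hS ha
      have h3 : mw q S t a = jm q (t a) := if_pos ha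
      rw [h3]
      have h4 := QIx.wv_q Φ j τ₀ g (t a).1.1 (q (t a).1.1) h1
        (fun g' τ => hΦ.2 (t a).1.1 g' (h2 g') τ) (t a).2
      change e (t a).1.1 * UIx.wv Φ j τ₀ g (t a).1.1 (t a).2 =
        e (t a).1.1 * UIx.wv Φ j τ₀ g (t a).1.1 (cj (t a).2)
      rw [h4]
    · have h3 : mw q S t a = t a := if_neg ha
      rw [h3]
  simp only [key]

end

end Pool.Agent.UNQ
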