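import Pool.Agent.Lib.UNQ.Rows

/-!
# UNQ, row QJ: `J` keeps `H_1(X, ℚ)^{⊗ T}` (helper94)
-/

set_option autoImplicit false

open scoped TensorProduct ComplexConjugate
open Complex Pool.Agent.HCM Pool.Agent.RAT Pool.Agent.UNIT

namespace Pool.Agent.UNQ

noncomputable section

theorem qj : QJ := by
  intro κ _ K G _ _ _ _ h q d _ T _ _ S u hu
  unfold TQ at hu
  induction hu using Submodule.span_induction with
  | mem u hu =>
    obtain ⟨x, rfl⟩ := hu
    refine Submodule.subset_span ⟨fun a i => if a ∈ S then
      d i.1 (q i.1 i.2) * NumberField.IsCMField.complexConj (K i.1) (x a ⟨i.1, q i.1 i.2⟩)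
      else x a i, ?_⟩
    funext t
    rw [mvJ_apply]
    unfold tens
    have h1 : (∏ a ∈ S, jv q d (t a)) = ∏ a, if a ∈ S then jv q d (t a) else 1 := by
      rw [Finset.prod_ite_mem, Finset.univ_inter]
    rw [h1, ← Finset.prod_mul_distrib]
    refine Finset.prod_congr rfl fun a _ => ?_
    by_cases ha : a ∈ S
    · have h2 : mw q S t a = jm q (t a) := if_pos ha
      rw [h2]
      simp only [if_pos ha, map_mul, NumberField.IsCMField.complexEmbedding_complexConj]
      rfl
    · have h2 : mw q S t a = t a := if_neg ha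
      rw [h2]
      simp only [if_neg ha, one_mul]
  | zero =>
    rw [mvJ_zero]
    exact Submodule.zero_mem _
  | add v w _ _ hv hw =>
    rw [mvJ_add]
    exact Submodule.add_mem _ hv hw
  | smul c v _ hv =>
    rw [mvJ_smul_rat]
    exact Submodule.smul_mem _ _ hv

end

end Pool.Agent.UNQ
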