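import Pool.Agent.Lib.UNQ.Rows

/-!
# UNQ, row QL: `J` commutes with the Lie algebra (helper77)
-/

set_option autoImplicit false

open scoped TensorProduct ComplexConjugate
open Complex Pool.Agent.HCM Pool.Agent.RAT Pool.Agent.UNIT

namespace Pool.Agent.UNQ

noncomputable section

namespace QLx

variable {κ : Type} {K G : κ → Type} [∀ k, Field (K k)] [∀ k, Fintype (G k)]

/-- The action of `X` on the letter `y`, followed by `F`. -/
def dsum (X : ∀ k, Matrix (G k) (G k) (K k)) (y : LU K G) (F : LU K G → ℂ) : ℂ :=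
  ∑ g' : G y.1.1, y.2 (X y.1.1 y.1.2 g') * F ⟨⟨y.1.1, g'⟩, y.2⟩

theorem der_dsum [Fintype κ] [∀ k, NumberField (K k)] {T : Type} [Fintype T] [DecidableEq T]
    (X : ∀ k, Matrix (G k) (G k) (K k)) (u : (T → LU K G) → ℂ) (t : T → LU K G) :
    der X u t = ∑ a, dsum X (t a) fun y' => u (Function.update t a y') := der_apply X u t

theorem core (h : ∀ k, G k → K k) (q : ∀ k, G k → G k) (d : ∀ k, G k → K k)
    (hq : ∀ k, IsQuat (h k) (q k) (d k)) (X : ∀ k, Matrix (G k) (G k) (K k))
    (hX : IsSUQ h q d X) (y : LU K G) (F : LU K G → ℂ) :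
    dsum X y (fun y' => jv q d y' * F (jm q y')) = jv q d y * dsum X (jm q y) F := by
  obtain ⟨⟨k, g⟩, τ⟩ := y
  change ∑ g' : G k, τ (X k g g') * (τ (d k (q k g')) * F ⟨⟨k, q k g'⟩, cj τ⟩) =
    τ (d k (q k g)) * ∑ g' : G k, cj τ (X k (q k g) g') * F ⟨⟨k, g'⟩, cj τ⟩
  rcases hq k with h0 | ⟨hi, _⟩
  · simp only [h0, map_zero, zero_mul, mul_zero, Finset.sum_const_zero]
  · have h0 : ∑ g' : G k, cj τ (X k (q k g) g') * F ⟨⟨k, g'⟩, cj τ⟩ =
        ∑ g' : G k, conj (τ (X k (q k g) (q k g'))) * F ⟨⟨k, q k g'⟩, cj τ⟩ :=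
      (Equiv.sum_comp (Function.Involutive.toPerm (q k) hi)
        fun g' => cj τ (X k (q k g) g') * F ⟨⟨k, g'⟩, cj τ⟩).symm
    rw [h0, Finset.mul_sum]
    refine Finset.sum_congr rfl fun g' _ => ?_
    have h1 := hX.2 k τ (q k g) (q k g')
    rw [hi, hi, map_mul] at h1
    rw [← mul_assoc, ← mul_assoc, mul_comm (τ (X k g g')), h1]

end QLx

open QLx

theorem ql : QL := by
  intro κ _ K G _ _ _ _ h q d hq T _ _ S u X hX
  funext t
  rw [der_dsum, mvJ_apply, der_dsum, Finset.mul_sum]
  refine Finset.sum_congr rfl fun a _ => ?_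
  by_cases haS : a ∈ S
  · have h1 : mw q S t a = jm q (t a) := if_pos haS
    rw [h1, ← Finset.mul_prod_erase S _ haS]
    have h2 : ∀ y' : LU K G, mvJ q d S u (Function.update t a y') =
        jv q d y' * ((∏ b ∈ S.erase a, jv q d (t b)) * u (Function.update (mw q S t) a (jm q y'))) := by
      intro y'
      rw [mvJ_apply, ← Finset.mul_prod_erase S _ haS, Function.update_self]
      have h3 : ∏ b ∈ S.erase a, jv q d (Function.update t a y' b) =
          ∏ b ∈ S.erase a, jv q d (t b) := by
        refine Finset.prod_congr rfl fun b hb => ?_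
        rw [Function.update_of_ne (Finset.ne_of_mem_erase hb)]
      have h4 : mw q S (Function.update t a y') = Function.update (mw q S t) a (jm q y') := by
        funext b
        unfold mw
        by_cases hb : b = a
        · subst hb
          rw [if_pos haS, Function.update_self, Function.update_self]
        · rw [Function.update_of_ne hb, Function.update_of_ne hb]
      rw [h3, h4, mul_assoc]
    simp only [h2]
    have h5 := core h q d hq X hX (t a)
      fun y'' => (∏ b ∈ S.erase a, jv q d (t b)) * u (Function.update (mw q S t) a y'')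
    rw [h5, mul_assoc]
    congr 1
    unfold dsum
    rw [Finset.mul_sum]
    exact Finset.sum_congr rfl fun g _ => by ring
  · have h1 : mw q S t a = t a := if_neg haS
    rw [h1]
    unfold dsum
    rw [Finset.mul_sum]
    refine Finset.sum_congr rfl fun g' _ => ?_
    change _ * mvJ q d S u (Function.update t a ⟨⟨(t a).1.1, g'⟩, (t a).2⟩) =
      _ * (_ * u (Function.update (mw q S t) a ⟨⟨(t a).1.1, g'⟩, (t a).2⟩))
    rw [mvJ_apply]
    have h3 : ∏ b ∈ S, jv q d (Function.update t a ⟨⟨(t a).1.1, g'⟩, (t a).2⟩ b) =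
        ∏ b ∈ S, jv q d (t b) := by
      refine Finset.prod_congr rfl fun b hb => ?_
      rw [Function.update_of_ne]
      rintro rfl
      exact haS hb
    have h4 : mw q S (Function.update t a ⟨⟨(t a).1.1, g'⟩, (t a).2⟩) =
        Function.update (mw q S t) a ⟨⟨(t a).1.1, g'⟩, (t a).2⟩ := by
      funext b
      unfold mw
      by_cases hb : b = a
      · subst hb
        rw [if_neg haS, Function.update_self, Function.update_self]
      · rw [Function.update_of_ne hb, Function.update_of_ne hb]
    rw [h3, h4]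
    ring

end

end Pool.Agent.UNQ
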