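import Pool.Agent.Lib.UNQ.QI

/-!
# UNQ, row QM: the endomorphism `J` commutes with the torus (helper21)
-/

set_option autoImplicit false

open scoped TensorProduct ComplexConjugate
open Complex Pool.Agent.HCM Pool.Agent.RAT Pool.Agent.UNIT

namespace Pool.Agent.UNQ

noncomputable section

namespace QMx

open Classical in
/-- The complex conjugate of the reflex norm for `S` is the reflex norm for the complex conjugate
of `S`. -/
theorem conj_reflex {E : Type} [Field E] [NumberField E] [IsGalois ℚ E] {F : Type} [Field F]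
    [NumberField F] [NumberField.IsCMField F]
    {S S' : Set (F →+* ℂ)} (hS : ∀ τ, cj τ ∈ S ↔ τ ∈ S') {j : F →+* E} {τ₀ : E →+* ℂ} {x : E}
    {z z' : F}
    (hz : j z = ∏ g : E ≃ₐ[ℚ] E, if τ₀.comp ((g : E →+* E).comp j) ∈ S then g.symm x else 1)
    (hz' : j z' = ∏ g : E ≃ₐ[ℚ] E, if τ₀.comp ((g : E →+* E).comp j) ∈ S' then g.symm x else 1)
    (τ : F →+* ℂ) : cj τ z = τ z' := by
  let c : F →+* F := (NumberField.IsCMField.complexConj F : F →+* F)
  have hc : ∀ (τ : F →+* ℂ) (y : F), cj τ y = τ (c y) := by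
    intro τ y
    have h2 := NumberField.IsCMField.complexEmbedding_complexConj F τ y
    exact h2.symm
  obtain ⟨d, hd⟩ := exists_aut τ₀ (cj τ₀)
  have h1 : ∀ y : F, d (j y) = j (c y) := by
    intro y
    apply τ₀.injective
    have h2 : τ₀ (d (j y)) = cj τ₀ (j y) := by rw [hd]; rfl
    have h3 : cj (τ₀.comp j) y = (τ₀.comp j) (c y) := hc _ _
    rw [h2]
    exact h3
  have h2 : ∀ g : E ≃ₐ[ℚ] E,
      (τ₀.comp ((((g * d : E ≃ₐ[ℚ] E)) : E →+* E).comp j) ∈ S ↔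
        τ₀.comp ((g : E →+* E).comp j) ∈ S') := by
    intro g
    rw [← hS]
    have h3 : τ₀.comp ((((g * d : E ≃ₐ[ℚ] E)) : E →+* E).comp j) =
        cj (τ₀.comp ((g : E →+* E).comp j)) := by
      ext y
      rw [hc]
      change τ₀ (g (d (j y))) = τ₀ (g (j (c y)))
      rw [h1 y]
    rw [h3]
  have h3 : j (c z) = j z' := by
    rw [← h1, hz, hz', map_prod]
    symm
    refine Fintype.prod_equiv (Equiv.mulRight d) _ _ ?_
    intro g
    change (if τ₀.comp ((g : E →+* E).comp j) ∈ S' then g.symm x else 1) =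
      d (if τ₀.comp ((((g * d : E ≃ₐ[ℚ] E)) : E →+* E).comp j) ∈ S then
        (g * d : E ≃ₐ[ℚ] E).symm x else 1)
    by_cases h5 : τ₀.comp ((g : E →+* E).comp j) ∈ S'
    · rw [if_pos h5, if_pos ((h2 g).2 h5)]
      have h6 : (g * d : E ≃ₐ[ℚ] E).symm x = d.symm (g.symm x) := rfl
      rw [h6, AlgEquiv.apply_symm_apply]
    · rw [if_neg h5, if_neg (fun h6 => h5 ((h2 g).1 h6)), map_one]
  rw [hc, j.injective h3]

end QMx

/-- **Row QM.** -/
theorem qm : QM := by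
  intro κ _ K G _ _ _ _ _ h q d hq Φ hΦ e E _ _ _ j τ₀ T _ _ S u x z hz
  funext t
  have e1 : scl (fun k => (∏ g, z ⟨k, g⟩) ^ e k) (mvJ q d S u) t =
      (∏ a, (t a).2 ((∏ g, z ⟨(t a).1.1, g⟩) ^ e (t a).1.1)) *
        ((∏ a ∈ S, jv q d (t a)) * u (mw q S t)) := rfl
  have e2 : mvJ q d S (scl (fun k => (∏ g, z ⟨k, g⟩) ^ e k) u) t =
      (∏ a ∈ S, jv q d (t a)) *
        ((∏ a, (mw q S t a).2 ((∏ g, z ⟨(mw q S t a).1.1, g⟩) ^ e (mw q S t a).1.1)) *
          u (mw q S t)) := rfl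
  rw [e1, e2]
  by_cases hS : (∏ a ∈ S, jv q d (t a)) = 0
  · rw [hS, zero_mul, mul_zero, zero_mul]
  have key : ∀ a, (t a).2 ((∏ g, z ⟨(t a).1.1, g⟩) ^ e (t a).1.1) =
      (mw q S t a).2 ((∏ g, z ⟨(mw q S t a).1.1, g⟩) ^ e (mw q S t a).1.1) := by
    intro a
    by_cases ha : a ∈ S
    · obtain ⟨h1, h2⟩ := QIx.jv_ne hq hS ha
      have h3 : mw q S t a = jm q (t a) := if_pos ha
      rw [h3]
      change (t a).2 ((∏ g, z ⟨(t a).1.1, g⟩) ^ e (t a).1.1) =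
        cj (t a).2 ((∏ g, z ⟨(t a).1.1, g⟩) ^ e (t a).1.1)
      have h4 : ∀ g, cj (t a).2 (z ⟨(t a).1.1, g⟩) = (t a).2 (z ⟨(t a).1.1, q (t a).1.1 g⟩) := by
        intro g
        refine QMx.conj_reflex (S := Φ ⟨(t a).1.1, g⟩)
          (S' := Φ ⟨(t a).1.1, q (t a).1.1 g⟩) ?_ (hz ⟨(t a).1.1, g⟩)
          (hz ⟨(t a).1.1, q (t a).1.1 g⟩) (t a).2
        intro τ
        have h5 := hΦ.2 (t a).1.1 (q (t a).1.1 g) (h2 _) τ
        rw [h1 g] at h5
        exact h5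
      let s : Equiv.Perm (G (t a).1.1) := ⟨q (t a).1.1, q (t a).1.1, h1, h1⟩
      have h6 : cj (t a).2 (∏ g, z ⟨(t a).1.1, g⟩) = (t a).2 (∏ g, z ⟨(t a).1.1, g⟩) := by
        rw [map_prod, map_prod, Finset.prod_congr rfl fun g _ => h4 g]
        exact Equiv.prod_comp s fun g => (t a).2 (z ⟨(t a).1.1, g⟩)
      rw [map_pow, map_pow, h6]
    · have h3 : mw q S t a = t a := if_neg ha
      rw [h3]
  rw [Finset.prod_congr rfl fun a _ => key a]
  ring

end

end Pool.Agent.UNQ
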