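import Pool.Agent.Lib.UNQ.Rows
import Pool.Agent.Lib.UNIT.UO

/-!
# UNQ, row QO: assembly of the rational form (helper16)
-/

set_option autoImplicit false

open scoped TensorProduct ComplexConjugate
open Complex Pool.Agent.HCM Pool.Agent.RAT Pool.Agent.UNIT

namespace Pool.Agent.UNQ

noncomputable section

/-- Row QO. -/
theorem qo : QO := by
  intro hB hC hI hJ hD hUH hUI hUJ hK n κ _ K G _ _ _ _ _ h hh q d hq Φ hΦ N e hN he E _ _ _ j
    τ₀ M hM u hu hsu htor
  classical
  have hkill : KilledQ h q d u := hC κ K G h hh q d hq (Fin (2 * n)) u hsu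
  have hspan := hB κ K G h hh q d hq (Fin (2 * n)) u hkill
  have hbal : ∀ t, u t ≠ 0 → Bal Φ e τ₀ (n * N) t :=
    hD κ K G Φ e E j τ₀ M (n * N) hM (Fin (2 * n)) u htor
  let P : (Fin (2 * n) → LU K G) → Prop := fun t => Bal Φ e τ₀ (n * N) t
  have hres : resC P u = u := by
    funext t
    by_cases ht : P t
    · exact resC_apply_pos u ht
    · rw [resC_apply_neg u ht]
      by_contra h0
      exact ht (hbal t fun h1 => h0 h1.symm)
  -- the restriction of a product of pairings and determinants, moved by `J`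
  have hgood : ∀ w : (Fin (2 * n) → LU K G) → ℂ,
      (∃ (S : Finset (Fin (2 * n))) (w₀ : (Fin (2 * n) → LU K G) → ℂ),
        IsBT h w₀ ∧ w = mvJ q d S w₀) →
      resC P w ∈ Submodule.span ℂ {w : (Fin (2 * n) → LU K G) → ℂ | IsProdQ Φ h q d n w} := by
    rintro w ⟨S, w₀, ⟨dd, r, pk, pτ, blk, τ, f, rfl⟩, rfl⟩
    have hcard : dd * 2 + Fintype.card (Σ j, G (blk j)) = 2 * n := by
      have h1 := Fintype.card_congr f
      rw [Fintype.card_sum, Fintype.card_prod, Fintype.card_fin, Fintype.card_fin,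
        Fintype.card_fin] at h1
      exact h1
    have hdn : dd + (n - dd) = n := by omega
    have hI' : ∀ t, mvJ q d S (bt h pk pτ blk τ f) t ≠ 0 → (P t ↔ BalD Φ τ₀ (n - dd) blk τ) := by
      intro t ht
      rw [mvJ_apply] at ht
      have h1 := left_ne_zero_of_mul ht
      have h2 := right_ne_zero_of_mul ht
      exact (hI κ K G h q d hq Φ hΦ e E j τ₀ (n * N) (Fin (2 * n)) S t h1).trans
        (hUI κ K G Φ hΦ.1 h N e hN he E j τ₀ n dd r pk pτ blk τ f (mw q S t) h2)
    by_cases hb : BalD Φ τ₀ (n - dd) blk τ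
    · have h1 : resC P (mvJ q d S (bt h pk pτ blk τ f)) = mvJ q d S (bt h pk pτ blk τ f) := by
        funext t
        by_cases ht : P t
        · exact resC_apply_pos _ ht
        · rw [resC_apply_neg _ ht]
          by_contra h0
          exact ht ((hI' t fun h1 => h0 h1.symm).mpr hb)
      rw [h1]
      refine mvJ_span q d S (A := {w : (Fin (2 * n) → LU K G) → ℂ | IsProdU Φ h n w}) ?_
        (hUH κ K G Φ hΦ.1 h E j τ₀ n dd r (n - dd) pk pτ blk τ f hdn hb)
      intro w hw
      exact Submodule.subset_span ⟨S, w, (isProdL_iff Φ h n w).mpr hw, rfl⟩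
    · have h1 : resC P (mvJ q d S (bt h pk pτ blk τ f)) = 0 := by
        funext t
        by_cases ht : P t
        · rw [resC_apply_pos _ ht, Pi.zero_apply]
          by_contra h0
          exact hb ((hI' t h0).mp ht)
        · rw [resC_apply_neg _ ht, Pi.zero_apply]
      rw [h1]
      exact Submodule.zero_mem _
  have hmem : resC P u ∈
      Submodule.span ℂ {w : (Fin (2 * n) → LU K G) → ℂ | IsProdQ Φ h q d n w} := by
    have h1 : ∀ v ∈ Submodule.span ℂ {w : (Fin (2 * n) → LU K G) → ℂ |
        ∃ (S : Finset (Fin (2 * n))) (w₀ : (Fin (2 * n) → LU K G) → ℂ),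
          IsBT h w₀ ∧ w = mvJ q d S w₀},
        resC P v ∈ Submodule.span ℂ {w : (Fin (2 * n) → LU K G) → ℂ | IsProdQ Φ h q d n w} := by
      intro v hv
      induction hv using Submodule.span_induction with
      | mem w hw => exact hgood w hw
      | zero =>
        rw [map_zero]
        exact Submodule.zero_mem _
      | add v w _ _ hv hw =>
        rw [map_add]
        exact Submodule.add_mem _ hv hw
      | smul c v _ hv =>
        rw [map_smul]
        exact Submodule.smul_mem _ _ hv
    exact h1 u hspan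
  rw [hres] at hmem
  refine hK κ K G (Fin (2 * n)) _ ?_ u hu hmem
  rintro w ⟨S, w₀, hw₀, rfl⟩
  exact hJ κ K G h q d hq (Fin (2 * n)) S w₀
    (hUJ κ K G Φ h hh n w₀ ((isProdL_iff Φ h n w₀).mp hw₀))

end

end Pool.Agent.UNQ
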