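import Pool.Agent.Lib.UNQ.QB
import Pool.Agent.Lib.UNQ.QC
import Pool.Agent.Lib.UNQ.QI
import Pool.Agent.Lib.UNQ.QJ
import Pool.Agent.Lib.UNQ.QL
import Pool.Agent.Lib.UNQ.QM
import Pool.Agent.Lib.UNQ.QO
import Pool.Agent.Lib.UNQ.QP
import Pool.Agent.Lib.UNQ.SoFft
import Pool.Agent.Lib.UNIT.UD
import Pool.Agent.Lib.UNIT.UF
import Pool.Agent.Lib.UNIT.UG
import Pool.Agent.Lib.UNIT.UH
import Pool.Agent.Lib.UNIT.UI
import Pool.Agent.Lib.UNIT.UJ
import Pool.Agent.Lib.UNIT.UK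
import Pool.Agent.Lib.UNIT.UL
import Pool.Agent.Lib.UNIT.UM
import Pool.Agent.Lib.RAT.Fin

/-!
# UNQ: final assembly (helper16)
-/

set_option autoImplicit false

open Pool.Agent.HCM Pool.Agent.RAT

namespace Pool.Agent.UNQ

theorem qb' : QB :=
  qb_of_so fun _ _ _ _ _ _ i hi h h0 hh v hv => sofft i hi h h0 hh v hv

/-- **The Tate conjecture for powers of abelian varieties of all Albert types**, up to
`K`-determinants. -/
theorem tateQ : TateQ :=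
  qp (qo qb' qc qi qj UNIT.ud (UNIT.uH (UNIT.uf_of hodgeQ) UNIT.uG) UNIT.ui UNIT.uj UNIT.uk)
    ql qm UNIT.uL UNIT.um

end Pool.Agent.UNQ
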