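import Pool.Agent.Lib.UNJ.Glue

/-!
# Gluing of blocks, relations with any number of terms
-/

set_option autoImplicit false
set_option linter.unusedSectionVars false

open Function Pool.Agent.UNJ.Gl

namespace Pool.Agent.UNQ.Gl

noncomputable section

/-- From words in few letters, with weights, to words in all letters. -/
theorem pushW {Λ' Λ P : Type} [Fintype P] (j : P → Λ' → Λ) (wt : P → Λ' → ℂ)
    (hwt : ∀ a z, wt a z ≠ 0) (S' : Set ((P → Λ') → ℂ)) (S : Set ((P → Λ) → ℂ))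
    (hS : ∀ w ∈ S', ∃ W ∈ Submodule.span ℂ S,
      (∀ s : P → Λ', (∏ a, wt a (s a)) * W (fun a => j a (s a)) = w s) ∧
      ∀ t, W t ≠ 0 → ∃ s : P → Λ', t = fun a => j a (s a))
    (φ : (P → Λ) → ℂ) (hφ : ∀ t, φ t ≠ 0 → ∃ s : P → Λ', t = fun a => j a (s a))
    (h : (fun s : P → Λ' => (∏ a, wt a (s a)) * φ (fun a => j a (s a))) ∈
      Submodule.span ℂ S') :
    φ ∈ Submodule.span ℂ S := by
  have key : ∀ w ∈ Submodule.span ℂ S', ∃ W ∈ Submodule.span ℂ S,
      (∀ s : P → Λ', (∏ a, wt a (s a)) * W (fun a => j a (s a)) = w s) ∧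
      ∀ t, W t ≠ 0 → ∃ s : P → Λ', t = fun a => j a (s a) := by
    intro w hw
    induction hw using Submodule.span_induction with
    | mem w hw => exact hS w hw
    | zero =>
      refine ⟨0, Submodule.zero_mem _, fun _ => ?_, fun t ht => absurd rfl ht⟩
      rw [Pi.zero_apply, Pi.zero_apply, mul_zero]
    | add w w' _ _ ih ih' =>
      obtain ⟨W, h1, h2, h3⟩ := ih
      obtain ⟨W', h1', h2', h3'⟩ := ih'
      refine ⟨W + W', Submodule.add_mem _ h1 h1', fun s => ?_, fun t ht => ?_⟩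
      · rw [Pi.add_apply, mul_add, h2, h2', Pi.add_apply]
      · by_cases h4 : W t = 0
        · refine h3' t fun h5 => ht ?_
          rw [Pi.add_apply, h4, h5, add_zero]
        · exact h3 t h4
    | smul z w _ ih =>
      obtain ⟨W, h1, h2, h3⟩ := ih
      refine ⟨z • W, Submodule.smul_mem _ _ h1, fun s => ?_, fun t ht => ?_⟩
      · rw [Pi.smul_apply, Pi.smul_apply, ← h2, smul_eq_mul, smul_eq_mul]
        ring
      · refine h3 t fun h5 => ht ?_
        rw [Pi.smul_apply, h5, smul_zero]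
  obtain ⟨W, h1, h2, h3⟩ := key _ h
  have h4 : φ = W := by
    funext t
    by_cases ht : ∃ s : P → Λ', t = fun a => j a (s a)
    · obtain ⟨s, rfl⟩ := ht
      exact (mul_left_cancel₀ (Finset.prod_ne_zero_iff.mpr fun a _ => hwt a (s a)) (h2 s)).symm
    · have h5 : φ t = 0 := by
        by_contra h6
        exact ht (hφ t h6)
      have h6 : W t = 0 := by
        by_contra h6
        exact ht (h3 t h6)
      rw [h5, h6]
  rw [h4]
  exact h1

variable {Λ Bk : Type} [Fintype Λ] [DecidableEq Λ] [Fintype Bk] [DecidableEq Bk] {T : Type}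
  [Fintype T] [DecidableEq T] {β : Λ → Bk}

/-- A relation applied to a function. -/
def rl (l : List (Λ × Λ × ℂ)) (u : (T → Λ) → ℂ) (t : T → Λ) : ℂ :=
  (l.map fun r => r.2.2 * el r.1 r.2.1 u t).sum

theorem rl_section {c : T → Bk} (u : (T → Λ) → ℂ) (x : ∀ b, {a // c a = b} → Λ) {b : Bk}
    (l : List (Λ × Λ × ℂ)) (hl : ∀ r ∈ l, β r.1 = b ∧ β r.2.1 = b) (hu : ∀ t, rl l u t = 0)
    (y : {a // c a = b} → Λ) :
    rl l (fun y => part β c u (wrd c (update x b y))) y = 0 := by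
  have h1 : rl l (fun y => part β c u (wrd c (update x b y))) y =
      if ∀ a, β (wrd c (update x b y) a) = c a then rl l u (wrd c (update x b y)) else 0 := by
    unfold rl
    have h2 : (l.map fun r => r.2.2 * el r.1 r.2.1
        (fun y => part β c u (wrd c (update x b y))) y) =
        l.map fun r => (if ∀ a, β (wrd c (update x b y) a) = c a then (1 : ℂ) else 0) *
          (r.2.2 * el r.1 r.2.1 u (wrd c (update x b y))) := by
      refine List.map_congr_left fun r hr => ?_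
      obtain ⟨h3, h4⟩ := hl r hr
      rw [el_section u x h3 h4, el_part c u (h4.trans h3.symm)]
      unfold part
      split_ifs
      · rw [one_mul]
      · rw [mul_zero, zero_mul]
    rw [h2, List.sum_map_mul_left]
    split_ifs
    · rw [one_mul]
    · rw [zero_mul]
  rw [h1, hu]
  split_ifs <;> rfl

/-- **Gluing of blocks.** -/
theorem glue (S : ∀ (P : Type) [Fintype P] [DecidableEq P], Set ((P → Λ) → ℂ))
    (rel : Bk → List (Λ × Λ × ℂ) → Prop)
    (hrel : ∀ b l, rel b l → ∀ r ∈ l, β r.1 = b ∧ β r.2.1 = b)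
    (one : ∀ (b : Bk) (P : Type) [Fintype P] [DecidableEq P] (φ : (P → Λ) → ℂ),
      (∀ x, φ x ≠ 0 → ∀ a, β (x a) = b) → (∀ l, rel b l → ∀ x, rl l φ x = 0) →
      φ ∈ Submodule.span ℂ (S P))
    (u : (T → Λ) → ℂ) (hu : ∀ b l, rel b l → ∀ t, rl l u t = 0) :
    u ∈ Submodule.span ℂ {w : (T → Λ) → ℂ | ∃ (c : T → Bk)
      (ψ : ∀ b, ({a // c a = b} → Λ) → ℂ), (∀ b, ψ b ∈ S {a // c a = b}) ∧
      w = fun t => ∏ b, ψ b fun a => t a.1} := by
  rw [sum_part (β := β) u]
  refine Submodule.sum_mem _ fun c _ => ?_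
  have h1 : ∀ b (x : ∀ b, {a // c a = b} → Λ), (fun y : {a // c a = b} → Λ =>
      part β c u (wrd c (update x b y))) ∈ Submodule.span ℂ (S {a // c a = b}) := by
    intro b x
    refine one b _ _ ?_ ?_
    · intro y hy a
      have h2 : ∀ a, β (wrd c (update x b y) a) = c a := by
        by_contra h3
        exact hy (if_neg h3)
      have h3 := h2 a.1
      rwa [wrd_apply _ a.2, update_self, a.2] at h3
    · intro l hl y
      exact rl_section u x l (hrel b l hl) (hu b l hl) y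
  have h2 := UNIT.mem_span_prod (fun b => {a // c a = b} → Λ)
    (fun b => Submodule.span ℂ (S {a // c a = b})) (fun x => part β c u (wrd c x)) h1
  have h3 : (fun x => part β c u (wrd c x)) ∈ Submodule.span ℂ
      {F : (∀ b, {a // c a = b} → Λ) → ℂ | ∃ ψ : ∀ b, ({a // c a = b} → Λ) → ℂ,
        (∀ b, ψ b ∈ S {a // c a = b}) ∧ F = fun x => ∏ b, ψ b (x b)} := by
    refine Submodule.span_le.mpr ?_ h2
    rintro F ⟨φ, hφ, rfl⟩
    exact UNIT.Ub.prod_span (fun b => {a // c a = b} → Λ) (fun b => S {a // c a = b}) φ hφ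
  let R : ((∀ b, {a // c a = b} → Λ) → ℂ) →ₗ[ℂ] ((T → Λ) → ℂ) :=
    LinearMap.funLeft ℂ ℂ fun t b a => t a.1
  have h4 : part β c u = R fun x => part β c u (wrd c x) := rfl
  rw [h4]
  have h5 : Submodule.span ℂ {F : (∀ b, {a // c a = b} → Λ) → ℂ |
      ∃ ψ : ∀ b, ({a // c a = b} → Λ) → ℂ,
        (∀ b, ψ b ∈ S {a // c a = b}) ∧ F = fun x => ∏ b, ψ b (x b)} ≤
      (Submodule.span ℂ {w : (T → Λ) → ℂ | ∃ (c : T → Bk)
      (ψ : ∀ b, ({a // c a = b} → Λ) → ℂ), (∀ b, ψ b ∈ S {a // c a = b}) ∧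
      w = fun t => ∏ b, ψ b fun a => t a.1}).comap R := by
    rw [Submodule.span_le]
    rintro F ⟨ψ, hψ, rfl⟩
    exact Submodule.subset_span ⟨c, ψ, hψ, rfl⟩
  exact h5 h3

end

end Pool.Agent.UNQ.Gl
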