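import Mathlib

/-!
# The first fundamental theorem for `𝔰𝔬`, scalar tensors, with determinants (helper26)

`G` is a basis of the orthogonal space with the form `∑ x_g y_(π g)`, `π` an involution of `G`.
A function of words in `G` killed by all `E_ab - E_(π b)(π a)` is a combination of products of
pairings and of at most one determinant.
-/

set_option autoImplicit false
set_option linter.unusedSectionVars false

open Function
open scoped ComplexConjugate

namespace Pool.Agent.UNQ.So

noncomputable section

section basic

variable {T G : Type} [Fintype T] [DecidableEq T] [Fintype G] [DecidableEq G]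

/-- The operator `E_ab` on the places `S`. -/
def E (S : Finset T) (a b : G) (u : (T → G) → ℂ) (t : T → G) : ℂ :=
  ∑ i ∈ S, if t i = a then u (update t i b) else 0

/-- The function depends only on the places `S`. -/
def Dep (S : Finset T) (u : (T → G) → ℂ) : Prop :=
  ∀ t t' : T → G, (∀ i ∈ S, t i = t' i) → u t = u t'

/-- The determinant of a word. -/
def D {S : Finset T} (e : G ≃ S) (t : T → G) : ℂ :=
  (Matrix.of fun g g' : G => if t (e g) = g' then (1 : ℂ) else 0).det

theorem E_add (S : Finset T) (a b : G) (u v : (T → G) → ℂ) :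
    E S a b (u + v) = E S a b u + E S a b v := by
  funext t
  simp only [E, Pi.add_apply]
  rw [← Finset.sum_add_distrib]
  refine Finset.sum_congr rfl fun i _ => ?_
  split_ifs
  · rfl
  · rw [add_zero]

theorem E_smul (S : Finset T) (a b : G) (c : ℂ) (u : (T → G) → ℂ) :
    E S a b (c • u) = c • E S a b u := by
  funext t
  simp only [E, Pi.smul_apply, smul_eq_mul]
  rw [Finset.mul_sum]
  refine Finset.sum_congr rfl fun i _ => ?_
  split_ifs
  · rfl
  · rw [mul_zero]

theorem E_zero (S : Finset T) (a b : G) : E S a b (0 : (T → G) → ℂ) = 0 := by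
  funext t
  simp [E]

/-- The exchange of a letter. -/
theorem sum_swap (i : T) (a b : G) (F : (T → G) → (T → G) → ℂ) :
    (∑ t : T → G, if t i = a then F t (update t i b) else 0) =
      ∑ s : T → G, if s i = b then F (update s i a) s else 0 := by
  rw [← Finset.sum_filter, ← Finset.sum_filter]
  refine Finset.sum_nbij' (fun t => update t i b) (fun s => update s i a) ?_ ?_ ?_ ?_ ?_
  · intro t _
    simp
  · intro t _
    simp
  · intro t ht
    have h1 := (Finset.mem_filter.1 ht).2
    simp only [update_idem]
    rw [← h1, update_eq_self]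
  · intro t ht
    have h1 := (Finset.mem_filter.1 ht).2
    simp only [update_idem]
    rw [← h1, update_eq_self]
  · intro t ht
    have h1 := (Finset.mem_filter.1 ht).2
    simp only [update_idem]
    rw [← h1, update_eq_self]

theorem E_adj (S : Finset T) (a b : G) (u v : (T → G) → ℂ) :
    ∑ t, E S a b u t * conj (v t) = ∑ t, u t * conj (E S b a v t) := by
  have h1 : ∀ t, E S a b u t * conj (v t) =
      ∑ i ∈ S, if t i = a then u (update t i b) * conj (v t) else 0 := by
    intro t
    rw [E, Finset.sum_mul]
    refine Finset.sum_congr rfl fun i _ => ?_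
    split_ifs
    · rfl
    · rw [zero_mul]
  have h2 : ∀ t, u t * conj (E S b a v t) =
      ∑ i ∈ S, if t i = b then u t * conj (v (update t i a)) else 0 := by
    intro t
    rw [E, map_sum, Finset.mul_sum]
    refine Finset.sum_congr rfl fun i _ => ?_
    split_ifs
    · rfl
    · rw [map_zero, mul_zero]
  rw [Finset.sum_congr rfl fun t _ => h1 t, Finset.sum_congr rfl fun t _ => h2 t,
    Finset.sum_comm, Finset.sum_comm (s := Finset.univ) (t := S)]
  refine Finset.sum_congr rfl fun i _ => ?_
  exact sum_swap i a b fun t s => u s * conj (v t)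

/-- The sum over one letter. -/
theorem sum_one (i : T) (g : G) (F : (T → G) → ℂ) :
    ∑ t : T → G, F (update t i g) =
      (Fintype.card G : ℂ) * ∑ t : T → G, if t i = g then F t else 0 := by
  have h1 : ∀ t : T → G, F (update t i g) = ∑ x, if t i = x then F (update t i g) else 0 := by
    intro t
    rw [Finset.sum_ite_eq, if_pos (Finset.mem_univ _)]
  rw [Finset.sum_congr rfl fun t _ => h1 t, Finset.sum_comm,
    Finset.sum_congr rfl fun x _ => sum_swap i x g fun _ s => F s, Finset.sum_const,
    Finset.card_univ, nsmul_eq_mul]

theorem sum_two (i j : T) (hij : i ≠ j) (g g' : G) (F : (T → G) → ℂ) :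
    ∑ t : T → G, F (update (update t i g) j g') =
      (Fintype.card G : ℂ) ^ 2 * ∑ t : T → G, if t i = g ∧ t j = g' then F t else 0 := by
  rw [sum_one i g fun s => F (update s j g')]
  have h1 : ∀ t : T → G, (if t i = g then F (update t j g') else 0) =
      (fun s : T → G => if s i = g then F s else 0) (update t j g') := by
    intro t
    simp only [update_of_ne hij]
  rw [Finset.sum_congr rfl fun t _ => h1 t, sum_one j g' fun s => if s i = g then F s else 0,
    ← mul_assoc, sq]
  congr 1
  refine Finset.sum_congr rfl fun t _ => ?_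
  by_cases h2 : t i = g
  · by_cases h3 : t j = g'
    · simp [h2, h3]
    · simp [h3]
  · simp [h2]

end basic

section invol

variable {T G : Type} [Fintype T] [DecidableEq T] [Fintype G] [DecidableEq G] (π : G → G)

/-- The contraction of two places. -/
def K (i j : T) (v : (T → G) → ℂ) (t : T → G) : ℂ := ∑ g, v (update (update t i g) j (π g))

/-- The product with a pairing. -/
def prs (i j : T) (f : (T → G) → ℂ) (t : T → G) : ℂ := (if t j = π (t i) then 1 else 0) * f t

/-- The generators. -/
inductive Gen : Finset T → ((T → G) → ℂ) → Prop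
  | one : Gen ∅ (fun _ => 1)
  | det (S : Finset T) (e : G ≃ S) : Gen S (D e)
  | pair (S : Finset T) (f : (T → G) → ℂ) (i j : T) (hij : i ≠ j) (hi : i ∉ S) (hj : j ∉ S)
      (hf : Gen S f) : Gen (insert i (insert j S)) (prs π i j f)

/-- The span of the generators. -/
def P (S : Finset T) : Submodule ℂ ((T → G) → ℂ) := Submodule.span ℂ {f | Gen π S f}

variable {π}

theorem D_dep {S : Finset T} (e : G ≃ S) : Dep S (D e) := by
  intro t t' h
  unfold D
  congr 1
  ext g g'
  simp only [Matrix.of_apply]
  rw [h _ (e g).2]

theorem Gen.dep {S : Finset T} {f : (T → G) → ℂ} (h : Gen π S f) : Dep S f := by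
  induction h with
  | one => intro t t' _; rfl
  | det S e => exact D_dep e
  | pair S f i j hij hi hj hf ih =>
    intro t t' h
    unfold prs
    rw [h i (by simp), h j (by simp), ih t t' fun k hk => h k (by simp [hk])]

theorem P_dep {S : Finset T} {f : (T → G) → ℂ} (h : f ∈ P π S) : Dep S f := by
  unfold P at h
  induction h using Submodule.span_induction with
  | mem x hx => exact Gen.dep hx
  | zero => intro t t' _; rfl
  | add x y _ _ hx hy =>
    intro t t' h
    rw [Pi.add_apply, Pi.add_apply, hx t t' h, hy t t' h]
  | smul c x _ hx =>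
    intro t t' h
    rw [Pi.smul_apply, Pi.smul_apply, hx t t' h]

/-- The derivation on a determinant. -/
theorem E_det {S : Finset T} (e : G ≃ S) (a b : G) (t : T → G) :
    E S a b (D e) t = if a = b then D e t else 0 := by
  set M : Matrix G G ℂ := Matrix.of fun g g' : G => if t (e g) = g' then (1 : ℂ) else 0 with hM
  have h1 : E S a b (D e) t = ∑ g, M g a * M.adjugate b g := by
    rw [E, ← Finset.sum_coe_sort, ← Equiv.sum_comp e]
    refine Finset.sum_congr rfl fun g _ => ?_
    have h2 : D e (update t (e g) b) = M.adjugate b g := by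
      rw [Matrix.adjugate_apply]
      unfold D
      congr 1
      ext g' g''
      rw [Matrix.updateRow_apply, Matrix.of_apply]
      by_cases h3 : g' = g
      · subst h3
        rw [if_pos rfl, update_self, Pi.single_apply]
        by_cases h4 : b = g''
        · rw [if_pos h4, if_pos h4.symm]
        · rw [if_neg h4, if_neg fun h5 => h4 h5.symm]
      · have h4 : (e g' : T) ≠ e g := fun h5 => h3 (e.injective (Subtype.ext h5))
        rw [if_neg h3, update_of_ne h4, hM, Matrix.of_apply]
    rw [h2, hM, Matrix.of_apply, ite_mul, one_mul, zero_mul]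
  have h2 : (M.adjugate * M) b a = ∑ g, M g a * M.adjugate b g := by
    rw [Matrix.mul_apply]
    exact Finset.sum_congr rfl fun g _ => mul_comm _ _
  rw [h1, ← h2, Matrix.adjugate_mul, Matrix.smul_apply, Matrix.one_apply, smul_eq_mul]
  have h3 : D e t = M.det := rfl
  rw [h3]
  by_cases h4 : a = b
  · rw [if_pos h4, if_pos h4.symm, mul_one]
  · rw [if_neg h4, if_neg fun h5 => h4 h5.symm, mul_zero]

theorem aux (p q r s : Prop) [Decidable p] [Decidable q] [Decidable r] [Decidable s] (x y : ℂ) :
    (if p then (if q then 1 else 0) * x else 0) + ((if r then (if s then 1 else 0) * x else 0) +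
      y) = y + ((if p ∧ q then 1 else 0) + (if r ∧ s then 1 else 0)) * x := by
  by_cases hp : p <;> by_cases hq : q <;> by_cases hr : r <;> by_cases hs : s <;>
    simp [hp, hq, hr, hs] <;> ring

theorem E_prs (hπ : ∀ g, π (π g) = g) {S : Finset T} {f : (T → G) → ℂ} (hf : Dep S f) {i j : T}
    (hij : i ≠ j) (hi : i ∉ S) (hj : j ∉ S) (a b : G) (t : T → G) :
    E (insert i (insert j S)) a b (prs π i j f) t = prs π i j (E S a b f) t +
      ((if t i = a ∧ t j = π b then 1 else 0) + (if t j = a ∧ t i = π b then 1 else 0)) * f t := by
  have hi' : i ∉ insert j S := by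
    rw [Finset.mem_insert]
    rintro (h | h)
    · exact hij h
    · exact hi h
  rw [E, Finset.sum_insert hi', Finset.sum_insert hj]
  have h1 : ∀ x, f (update t i x) = f t := fun x => hf _ _ fun k hk => by
    rw [update_of_ne]
    rintro rfl
    exact hi hk
  have h2 : ∀ x, f (update t j x) = f t := fun x => hf _ _ fun k hk => by
    rw [update_of_ne]
    rintro rfl
    exact hj hk
  have h3 : (∑ k ∈ S, if t k = a then prs π i j f (update t k b) else 0) =
      prs π i j (E S a b f) t := by
    unfold prs E
    rw [Finset.mul_sum]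
    refine Finset.sum_congr rfl fun k hk => ?_
    have hki : i ≠ k := by
      rintro rfl
      exact hi hk
    have hkj : j ≠ k := by
      rintro rfl
      exact hj hk
    rw [update_of_ne hki, update_of_ne hkj]
    by_cases h4 : t k = a
    · rw [if_pos h4, if_pos h4]
    · rw [if_neg h4, if_neg h4, mul_zero]
  have h4 : prs π i j f (update t i b) = (if t j = π b then 1 else 0) * f t := by
    unfold prs
    rw [h1, update_self, update_of_ne hij.symm]
  have h5 : prs π i j f (update t j b) = (if t i = π b then 1 else 0) * f t := by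
    unfold prs
    rw [h2, update_self, update_of_ne hij]
    congr 1
    by_cases h6 : b = π (t i)
    · rw [if_pos h6, if_pos (by rw [h6, hπ])]
    · rw [if_neg h6, if_neg]
      intro h7
      exact h6 (by rw [h7, hπ])
  rw [h3, h4, h5]
  exact aux _ _ _ _ _ _

/-- The function is killed by the orthogonal algebra. -/
def Inv (π : G → G) (S : Finset T) (u : (T → G) → ℂ) : Prop :=
  ∀ a b, E S a b u = E S (π b) (π a) u

theorem Gen.inv (hπ : ∀ g, π (π g) = g) {S : Finset T} {f : (T → G) → ℂ} (h : Gen π S f) :
    Inv π S f := by
  induction h with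
  | one =>
    intro a b
    funext t
    simp [E]
  | det S e =>
    intro a b
    funext t
    rw [E_det, E_det]
    by_cases h1 : a = b
    · rw [if_pos h1, if_pos (by rw [h1])]
    · rw [if_neg h1, if_neg]
      intro h2
      exact h1 (by rw [← hπ a, ← h2, hπ])
  | pair S f i j hij hi hj hf ih =>
    intro a b
    funext t
    rw [E_prs hπ hf.dep hij hi hj, E_prs hπ hf.dep hij hi hj, ih a b, hπ]
    have h1 : (t i = π b ∧ t j = a) ↔ (t j = a ∧ t i = π b) := and_comm
    have h2 : (t j = π b ∧ t i = a) ↔ (t i = a ∧ t j = π b) := and_comm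
    simp only [h1, h2]
    ring

theorem P_inv (hπ : ∀ g, π (π g) = g) {S : Finset T} {f : (T → G) → ℂ} (h : f ∈ P π S) :
    Inv π S f := by
  unfold P at h
  induction h using Submodule.span_induction with
  | mem x hx => exact Gen.inv hπ hx
  | zero => intro a b; rw [E_zero, E_zero]
  | add x y _ _ hx hy =>
    intro a b
    rw [E_add, E_add, hx a b, hy a b]
  | smul c x _ hx =>
    intro a b
    rw [E_smul, E_smul, hx a b]

theorem prs_mem {S : Finset T} {f : (T → G) → ℂ} (hf : f ∈ P π S) {i j : T}
    (hij : i ≠ j) (hi : i ∉ S) (hj : j ∉ S) : prs π i j f ∈ P π (insert i (insert j S)) := by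
  unfold P at hf
  induction hf using Submodule.span_induction with
  | mem x hx => exact Submodule.subset_span (Gen.pair S x i j hij hi hj hx)
  | zero =>
    have h1 : prs π i j (0 : (T → G) → ℂ) = 0 := by
      funext t
      simp [prs]
    rw [h1]
    exact Submodule.zero_mem _
  | add x y _ _ hx hy =>
    have h1 : prs π i j (x + y) = prs π i j x + prs π i j y := by
      funext t
      simp only [prs, Pi.add_apply]
      ring
    rw [h1]
    exact Submodule.add_mem _ hx hy
  | smul c x _ hx =>
    have h1 : prs π i j (c • x) = c • prs π i j x := by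
      funext t
      simp only [prs, Pi.smul_apply, smul_eq_mul]
      ring
    rw [h1]
    exact Submodule.smul_mem _ _ hx

theorem K_adj (i j : T) (hij : i ≠ j) (f v : (T → G) → ℂ)
    (hf : ∀ t x y, f (update (update t i x) j y) = f t) :
    ∑ t, f t * conj (K π i j v t) =
      (Fintype.card G : ℂ) ^ 2 * ∑ t, prs π i j f t * conj (v t) := by
  have h1 : ∀ t, f t * conj (K π i j v t) = ∑ g, (fun s : T → G => f s * conj (v s))
      (update (update t i g) j (π g)) := by
    intro t
    rw [K, map_sum, Finset.mul_sum]
    refine Finset.sum_congr rfl fun g _ => ?_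
    simp only [hf]
  rw [Finset.sum_congr rfl fun t _ => h1 t, Finset.sum_comm,
    Finset.sum_congr rfl fun g _ => sum_two i j hij g (π g) fun s => f s * conj (v s),
    ← Finset.mul_sum, Finset.sum_comm]
  congr 1
  refine Finset.sum_congr rfl fun t _ => ?_
  rw [Finset.sum_eq_single (t i)]
  · unfold prs
    by_cases h2 : t j = π (t i)
    · rw [if_pos ⟨rfl, h2⟩, if_pos h2, one_mul]
    · rw [if_neg fun h3 => h2 h3.2, if_neg h2, zero_mul, zero_mul]
  · intro g _ hg
    rw [if_neg]
    rintro ⟨h2, -⟩
    exact hg h2.symm
  · intro h2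
    exact absurd (Finset.mem_univ _) h2

theorem K_dep {S : Finset T} {v : (T → G) → ℂ} (hv : Dep S v) (i j : T) :
    Dep ((S.erase i).erase j) (K π i j v) := by
  intro t t' h
  unfold K
  refine Finset.sum_congr rfl fun g _ => hv _ _ fun k hk => ?_
  by_cases hkj : k = j
  · subst hkj
    rw [update_self, update_self]
  · rw [update_of_ne hkj, update_of_ne hkj]
    by_cases hki : k = i
    · subst hki
      rw [update_self, update_self]
    · rw [update_of_ne hki, update_of_ne hki]
      exact h k (Finset.mem_erase.2 ⟨hkj, Finset.mem_erase.2 ⟨hki, hk⟩⟩)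

theorem E_K (hπ : ∀ g, π (π g) = g) {S : Finset T} (v : (T → G) → ℂ) {i j : T} (hij : i ≠ j)
    (hi : i ∈ S) (hj : j ∈ S) (a b : G) (t : T → G) :
    K π i j (E S a b v) t = E ((S.erase i).erase j) a b (K π i j v) t +
      (v (update (update t i b) j (π a)) + v (update (update t i (π a)) j b)) := by
  have hj' : j ∈ S.erase i := Finset.mem_erase.2 ⟨hij.symm, hj⟩
  have h1 : ∀ g, E S a b v (update (update t i g) j (π g)) =
      (if g = a then v (update (update t i b) j (π g)) else 0) +
      ((if π g = a then v (update (update t i g) j b) else 0) +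
      ∑ k ∈ (S.erase i).erase j, if t k = a then
        v (update (update (update t k b) i g) j (π g)) else 0) := by
    intro g
    rw [E, ← Finset.add_sum_erase _ _ hi, ← Finset.add_sum_erase _ _ hj', update_self,
      update_of_ne hij, update_self]
    congr 1
    · rw [update_comm hij.symm, update_idem]
    · congr 1
      · rw [update_idem]
      · refine Finset.sum_congr rfl fun k hk => ?_
        have hkj : k ≠ j := (Finset.mem_erase.1 hk).1
        have hki : k ≠ i := (Finset.mem_erase.1 (Finset.mem_erase.1 hk).2).1
        rw [update_of_ne hkj, update_of_ne hki, update_comm hkj.symm, update_comm hki.symm]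
  rw [K, Finset.sum_congr rfl fun g _ => h1 g, Finset.sum_add_distrib, Finset.sum_add_distrib]
  have h2 : (∑ g, if g = a then v (update (update t i b) j (π g)) else 0) =
      v (update (update t i b) j (π a)) := by
    rw [Finset.sum_ite_eq', if_pos (Finset.mem_univ _)]
  have h3 : (∑ g, if π g = a then v (update (update t i g) j b) else 0) =
      v (update (update t i (π a)) j b) := by
    rw [Finset.sum_eq_single (π a)]
    · rw [if_pos (hπ a)]
    · intro g _ hg
      rw [if_neg]
      intro h4
      exact hg (by rw [← h4, hπ])
    · intro h4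
      exact absurd (Finset.mem_univ _) h4
  have h4 : (∑ g, ∑ k ∈ (S.erase i).erase j, if t k = a then
        v (update (update (update t k b) i g) j (π g)) else 0) =
      E ((S.erase i).erase j) a b (K π i j v) t := by
    rw [Finset.sum_comm, E]
    refine Finset.sum_congr rfl fun k _ => ?_
    by_cases h5 : t k = a
    · rw [if_pos h5, K]
      exact Finset.sum_congr rfl fun g _ => if_pos h5
    · rw [if_neg h5]
      exact Finset.sum_eq_zero fun g _ => if_neg h5
  rw [h2, h3, h4]
  ring

theorem K_inv (hπ : ∀ g, π (π g) = g) {S : Finset T} {v : (T → G) → ℂ} (hv : Inv π S v) {i j : T}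
    (hij : i ≠ j) (hi : i ∈ S) (hj : j ∈ S) : Inv π ((S.erase i).erase j) (K π i j v) := by
  intro a b
  funext t
  have h1 := E_K hπ v hij hi hj a b t
  have h2 := E_K hπ v hij hi hj (π b) (π a) t
  rw [← hv a b, h1, hπ] at h2
  linear_combination h2

end invol

end

end Pool.Agent.UNQ.So
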