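import Pool.Agent.Lib.UNQ.SoFftA

/-!
# The first fundamental theorem for `𝔰𝔬`: the energy argument and the induction (helper26)
-/

set_option autoImplicit false
set_option linter.unusedSectionVars false

open Function
open scoped ComplexConjugate

namespace Pool.Agent.UNQ.So

noncomputable section

variable {T G : Type} [Fintype T] [DecidableEq T] [Fintype G] [DecidableEq G] {π : G → G}

/-- The Casimir operator on a harmonic function. -/
theorem casimir (hπ : ∀ g, π (π g) = g) {S : Finset T} (v : (T → G) → ℂ)
    (hK : ∀ i ∈ S, ∀ j ∈ S, i ≠ j → K π i j v = 0) (t : T → G) :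
    ∑ a, ∑ b, E S a b (E S (π a) (π b) v) t = (S.card : ℂ) * v t := by
  have h1 : ∀ a b, E S a b (E S (π a) (π b) v) t = ∑ i ∈ S, if t i = a then
      E S (π (t i)) (π b) v (update t i b) else 0 := by
    intro a b
    rw [E]
    refine Finset.sum_congr rfl fun i _ => ?_
    by_cases h2 : t i = a
    · rw [if_pos h2, if_pos h2, h2]
    · rw [if_neg h2, if_neg h2]
  have h2 : ∑ a, ∑ b, E S a b (E S (π a) (π b) v) t =
      ∑ i ∈ S, ∑ b, E S (π (t i)) (π b) v (update t i b) := by
    rw [Finset.sum_congr rfl fun a _ => Finset.sum_congr rfl fun b _ => h1 a b]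
    rw [Finset.sum_congr rfl fun a _ => Finset.sum_comm, Finset.sum_comm]
    refine Finset.sum_congr rfl fun i _ => ?_
    rw [Finset.sum_eq_single (t i)]
    · exact Finset.sum_congr rfl fun b _ => if_pos rfl
    · intro a _ ha
      exact Finset.sum_eq_zero fun b _ => if_neg fun h => ha h.symm
    · intro h
      exact absurd (Finset.mem_univ _) h
  rw [h2, ← nsmul_eq_mul, ← Finset.sum_const]
  refine Finset.sum_congr rfl fun i hi => ?_
  have h3 : ∀ b, E S (π (t i)) (π b) v (update t i b) = (if b = π (t i) then v t else 0) +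
      ∑ j ∈ S.erase i, if t j = π (t i) then v (update (update t i b) j (π b)) else 0 := by
    intro b
    rw [E, ← Finset.add_sum_erase _ _ hi, update_self, update_idem]
    congr 1
    · by_cases h4 : b = π (t i)
      · rw [if_pos h4, if_pos h4, h4, hπ, update_eq_self]
      · rw [if_neg h4, if_neg h4]
    · refine Finset.sum_congr rfl fun j hj => ?_
      rw [update_of_ne (Finset.ne_of_mem_erase hj)]
  rw [Finset.sum_congr rfl fun b _ => h3 b, Finset.sum_add_distrib, Finset.sum_ite_eq',
    if_pos (Finset.mem_univ _), Finset.sum_comm]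
  rw [Finset.sum_eq_zero, add_zero]
  intro j hj
  by_cases h4 : t j = π (t i)
  · have h5 := congrFun (hK i hi j (Finset.mem_of_mem_erase hj)
      (Finset.ne_of_mem_erase hj).symm) t
    exact Eq.trans (Finset.sum_congr rfl fun b _ => if_pos h4) h5
  · exact Finset.sum_eq_zero fun b _ => if_neg h4

/-- The number of places of a letter. -/
def cnt (S : Finset T) (a : G) (t : T → G) : ℕ := (S.filter fun i => t i = a).card

theorem E_self (S : Finset T) (a : G) (v : (T → G) → ℂ) (t : T → G) :
    E S a a v t = (cnt S a t : ℂ) * v t := by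
  rw [E, cnt, ← nsmul_eq_mul, ← Finset.sum_const, Finset.sum_filter]
  refine Finset.sum_congr rfl fun i _ => ?_
  by_cases h : t i = a
  · rw [if_pos h, if_pos h, ← h, update_eq_self]
  · rw [if_neg h, if_neg h]

theorem sum_cnt (S : Finset T) (t : T → G) : ∑ a, cnt S a t = S.card := by
  unfold cnt
  exact Finset.sum_card_fiberwise_eq_card_filter S Finset.univ (fun i => t i) |>.trans (by simp)

/-- The energy identity. -/
theorem energy {S : Finset T} (v : (T → G) → ℂ)
    (hC : ∀ t, ∑ a, ∑ b, E S a b (E S b a v) t = (S.card : ℂ) * v t) :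
    (∀ t a, v t ≠ 0 → cnt S a t ≤ 1) ∧ ∀ a b, a ≠ b → E S a b v = 0 := by
  have h1 : ∑ t, ∑ a, ∑ b, (‖E S b a v t‖ ^ 2 -
      if a = b then (cnt S a t : ℝ) * ‖v t‖ ^ 2 else 0) = 0 := by
    have h2 : ∑ t, (∑ a, ∑ b, E S a b (E S b a v) t) * conj (v t) =
        ∑ t, ∑ a, ∑ b, E S b a v t * conj (E S b a v t) := by
      rw [Finset.sum_congr rfl fun t _ => Finset.sum_mul _ _ _, Finset.sum_comm,
        Finset.sum_comm (s := Finset.univ) (t := Finset.univ)
          (f := fun t a => ∑ b, E S b a v t * conj (E S b a v t))]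
      refine Finset.sum_congr rfl fun a _ => ?_
      rw [Finset.sum_congr rfl fun t _ => Finset.sum_mul _ _ _, Finset.sum_comm,
        Finset.sum_comm (s := Finset.univ) (t := Finset.univ)
          (f := fun t b => E S b a v t * conj (E S b a v t))]
      exact Finset.sum_congr rfl fun b _ => E_adj S a b _ _
    have h3 : ∑ t, (∑ a, ∑ b, E S a b (E S b a v) t) * conj (v t) =
        ((∑ t, (S.card : ℝ) * ‖v t‖ ^ 2 : ℝ) : ℂ) := by
      rw [Complex.ofReal_sum]
      refine Finset.sum_congr rfl fun t _ => ?_
      rw [hC, mul_assoc, Complex.mul_conj']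
      push_cast
      ring
    have h4 : ∑ t, ∑ a, ∑ b, E S b a v t * conj (E S b a v t) =
        ((∑ t, ∑ a, ∑ b, ‖E S b a v t‖ ^ 2 : ℝ) : ℂ) := by
      rw [Complex.ofReal_sum]
      refine Finset.sum_congr rfl fun t _ => ?_
      rw [Complex.ofReal_sum]
      refine Finset.sum_congr rfl fun a _ => ?_
      rw [Complex.ofReal_sum]
      refine Finset.sum_congr rfl fun b _ => ?_
      rw [Complex.mul_conj']
      push_cast
      ring
    have h5 : ∑ t, ∑ a, ∑ b, ‖E S b a v t‖ ^ 2 = ∑ t : T → G, (S.card : ℝ) * ‖v t‖ ^ 2 := by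
      have h6 := h3.symm.trans (h2.trans h4)
      exact_mod_cast h6.symm
    have h6 : ∀ t : T → G, ∑ a, ∑ b, (‖E S b a v t‖ ^ 2 -
        if a = b then (cnt S a t : ℝ) * ‖v t‖ ^ 2 else 0) =
        (∑ a, ∑ b, ‖E S b a v t‖ ^ 2) - (S.card : ℝ) * ‖v t‖ ^ 2 := by
      intro t
      simp only [Finset.sum_sub_distrib]
      congr 1
      have h7 : ∀ a, (∑ b, if a = b then (cnt S a t : ℝ) * ‖v t‖ ^ 2 else 0) =
          (cnt S a t : ℝ) * ‖v t‖ ^ 2 := by
        intro a
        rw [Finset.sum_ite_eq, if_pos (Finset.mem_univ _)]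
      rw [Finset.sum_congr rfl fun a _ => h7 a, ← Finset.sum_mul, ← sum_cnt S t]
      push_cast
      rfl
    rw [Finset.sum_congr rfl fun t _ => h6 t, Finset.sum_sub_distrib, h5, sub_self]
  have hnn : ∀ t a b, 0 ≤ ‖E S b a v t‖ ^ 2 -
      if a = b then (cnt S a t : ℝ) * ‖v t‖ ^ 2 else 0 := by
    intro t a b
    by_cases hab : a = b
    · subst hab
      rw [if_pos rfl, E_self, norm_mul, mul_pow, ← sub_mul, Complex.norm_natCast]
      refine mul_nonneg ?_ (by positivity)
      have h2 : cnt S a t ≤ cnt S a t ^ 2 := Nat.le_self_pow (by norm_num) _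
      have h3 : (cnt S a t : ℝ) ≤ (cnt S a t : ℝ) ^ 2 := by exact_mod_cast h2
      linarith
    · rw [if_neg hab, sub_zero]
      positivity
  have h2 : ∀ t a b, ‖E S b a v t‖ ^ 2 -
      (if a = b then (cnt S a t : ℝ) * ‖v t‖ ^ 2 else 0) = 0 := by
    intro t a b
    have h3 := (Finset.sum_eq_zero_iff_of_nonneg fun t _ => Finset.sum_nonneg fun a _ =>
      Finset.sum_nonneg fun b _ => hnn t a b).1 h1 t (Finset.mem_univ _)
    have h4 := (Finset.sum_eq_zero_iff_of_nonneg fun a _ =>
      Finset.sum_nonneg fun b _ => hnn t a b).1 h3 a (Finset.mem_univ _)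
    exact (Finset.sum_eq_zero_iff_of_nonneg fun b _ => hnn t a b).1 h4 b (Finset.mem_univ _)
  constructor
  · intro t a ht
    have h3 := h2 t a a
    rw [if_pos rfl, E_self, norm_mul, mul_pow, ← sub_mul, Complex.norm_natCast] at h3
    have h4 : ‖v t‖ ^ 2 ≠ 0 := pow_ne_zero _ (norm_ne_zero_iff.2 ht)
    have h5 : (cnt S a t : ℝ) ^ 2 - (cnt S a t : ℝ) = 0 := by
      rcases mul_eq_zero.1 h3 with h6 | h6
      · exact h6
      · exact absurd h6 h4
    have h6 : cnt S a t ^ 2 = cnt S a t := by
      have h7 : (cnt S a t : ℝ) ^ 2 = (cnt S a t : ℝ) := by linarith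
      exact_mod_cast h7
    by_contra h7
    nlinarith
  · intro a b hab
    funext t
    have h3 := h2 t b a
    rw [if_neg hab.symm, sub_zero] at h3
    have h4 : ‖E S a b v t‖ = 0 := by
      exact pow_eq_zero_iff (two_ne_zero) |>.1 h3
    exact norm_eq_zero.1 h4

section alt

variable {S : Finset T} {v : (T → G) → ℂ}

/-- A function killed by the `E_ab`, `a ≠ b`, is antisymmetric. -/
theorem antisymm (hv : Dep S v) (hE : ∀ a b, a ≠ b → E S a b v = 0) (t : T → G)
    (hinj : ∀ i ∈ S, ∀ j ∈ S, t i = t j → i = j) (hsurj : ∀ g, ∃ i ∈ S, t i = g) (x y : G)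
    (hxy : x ≠ y) : v (fun i => Equiv.swap x y (t i)) = -v t := by
  obtain ⟨i, hi, hix⟩ := hsurj x
  obtain ⟨j, hj, hjy⟩ := hsurj y
  have hij : i ≠ j := by
    rintro rfl
    exact hxy (hix.symm.trans hjy)
  have h1 := congrFun (hE x y hxy) (update t j x)
  have hj' : j ∈ S.erase i := Finset.mem_erase.2 ⟨hij.symm, hj⟩
  rw [E, ← Finset.add_sum_erase _ _ hi, ← Finset.add_sum_erase _ _ hj', update_of_ne hij,
    if_pos hix, update_self, if_pos rfl, update_idem, Finset.sum_eq_zero, add_zero] at h1
  · have h2 : update t j y = t := by rw [← hjy, update_eq_self]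
    rw [h2] at h1
    have h3 : v (update (update t j x) i y) = v (fun i => Equiv.swap x y (t i)) := by
      refine hv _ _ fun k hk => ?_
      by_cases hki : k = i
      · subst hki
        rw [update_self, hix, Equiv.swap_apply_left]
      · rw [update_of_ne hki]
        by_cases hkj : k = j
        · subst hkj
          rw [update_self, hjy, Equiv.swap_apply_right]
        · rw [update_of_ne hkj, Equiv.swap_apply_of_ne_of_ne]
          · intro h4
            exact hki (hinj k hk i hi (h4.trans hix.symm))
          · intro h4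
            exact hkj (hinj k hk j hj (h4.trans hjy.symm))
    rw [h3] at h1
    exact eq_neg_of_add_eq_zero_left h1
  · intro k hk
    have hkj : k ≠ j := (Finset.mem_erase.1 hk).1
    have hki : k ≠ i := (Finset.mem_erase.1 (Finset.mem_erase.1 hk).2).1
    have hkS : k ∈ S := (Finset.mem_erase.1 (Finset.mem_erase.1 hk).2).2
    rw [update_of_ne hkj, if_neg]
    intro h4
    exact hki (hinj k hkS i hi (h4.trans hix.symm))

/-- Such a function which vanishes at one word with all letters vanishes at all of them. -/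
theorem vanish (hv : Dep S v) (hE : ∀ a b, a ≠ b → E S a b v = 0) (t : T → G)
    (hinj : ∀ i ∈ S, ∀ j ∈ S, t i = t j → i = j) (hsurj : ∀ g, ∃ i ∈ S, t i = g)
    (h0 : v t = 0) (σ : Equiv.Perm G) : v (fun i => σ (t i)) = 0 := by
  induction σ using Equiv.Perm.swap_induction_on with
  | one => exact h0
  | swap_mul f x y hxy ih =>
    have h1 := antisymm hv hE (fun i => f (t i))
      (fun i hi j hj h => hinj i hi j hj (f.injective h))
      (fun g => by
        obtain ⟨i, hi, h⟩ := hsurj (f.symm g)
        exact ⟨i, hi, by rw [h, Equiv.apply_symm_apply]⟩) x y hxy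
    rw [ih, neg_zero] at h1
    exact h1

/-- Functions killed by the `E_ab`, `a ≠ b`, and supported on words without repetition. -/
theorem alt_mem (hv : Dep S v) (hE : ∀ a b, a ≠ b → E S a b v = 0)
    (hc : ∀ t a, v t ≠ 0 → cnt S a t ≤ 1) : v ∈ P π S := by
  by_cases hz : v = 0
  · rw [hz]
    exact Submodule.zero_mem _
  · have hinj : ∀ t, v t ≠ 0 → ∀ i ∈ S, ∀ j ∈ S, t i = t j → i = j := by
      intro t ht i hi j hj hij
      have h1 := hc t (t i) ht
      exact Finset.card_le_one.1 h1 i (Finset.mem_filter.2 ⟨hi, rfl⟩) j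
        (Finset.mem_filter.2 ⟨hj, hij.symm⟩)
    obtain ⟨t0, ht0⟩ : ∃ t0, v t0 ≠ 0 := by
      by_contra h1
      push_neg at h1
      exact hz (funext h1)
    rcases S.eq_empty_or_nonempty with hS | ⟨i0, hi0⟩
    · subst hS
      have h1 : v = v t0 • fun _ => (1 : ℂ) := by
        funext t
        rw [Pi.smul_apply, smul_eq_mul, mul_one]
        exact hv t t0 fun i hi => absurd hi (Finset.notMem_empty i)
      rw [h1]
      exact Submodule.smul_mem _ _ (Submodule.subset_span Gen.one)
    · have hsurj : ∀ g, ∃ i ∈ S, t0 i = g := by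
        intro g
        by_contra h1
        push_neg at h1
        have h2 : t0 i0 ≠ g := h1 i0 hi0
        have h3 := congrFun (hE g (t0 i0) h2.symm) (update t0 i0 g)
        rw [E, ← Finset.add_sum_erase _ _ hi0, update_self, if_pos rfl, update_idem,
          update_eq_self, Finset.sum_eq_zero, add_zero] at h3
        · exact ht0 h3
        · intro k hk
          rw [update_of_ne (Finset.ne_of_mem_erase hk), if_neg]
          exact h1 k (Finset.mem_of_mem_erase hk)
      choose p hp hpg using hsurj
      have hpi : Function.Bijective fun g => (⟨p g, hp g⟩ : S) := by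
        constructor
        · intro g g' h
          have h1 : p g = p g' := congrArg Subtype.val h
          rw [← hpg g, ← hpg g', h1]
        · rintro ⟨i, hi⟩
          refine ⟨t0 i, Subtype.ext ?_⟩
          exact hinj t0 ht0 _ (hp _) _ hi (hpg _)
      let e : G ≃ S := Equiv.ofBijective _ hpi
      have he : ∀ g, t0 (e g) = g := hpg
      have hD0 : D e t0 = 1 := by
        unfold D
        have h1 : (Matrix.of fun g g' : G => if t0 (e g) = g' then (1 : ℂ) else 0) = 1 := by
          ext g g'
          rw [Matrix.of_apply, he, Matrix.one_apply]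
        rw [h1, Matrix.det_one]
      have hDr : ∀ t : T → G, (∃ i ∈ S, ∃ j ∈ S, i ≠ j ∧ t i = t j) → D e t = 0 := by
        rintro t ⟨i, hi, j, hj, hij, htt⟩
        unfold D
        have h1 : e.symm ⟨i, hi⟩ ≠ e.symm ⟨j, hj⟩ := fun h =>
          hij (congrArg Subtype.val (e.symm.injective h))
        refine Matrix.det_zero_of_row_eq h1 ?_
        funext g
        rw [Matrix.of_apply, Matrix.of_apply, Equiv.apply_symm_apply, Equiv.apply_symm_apply, htt]
      let w : (T → G) → ℂ := v + (-v t0) • D e
      have hw : Dep S w := by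
        intro t t' h
        change v t + -v t0 * D e t = v t' + -v t0 * D e t'
        rw [hv t t' h, D_dep e t t' h]
      have hEw : ∀ a b, a ≠ b → E S a b w = 0 := by
        intro a b hab
        rw [E_add, E_smul, hE a b hab]
        funext t
        rw [Pi.add_apply, Pi.smul_apply, E_det, if_neg hab, smul_zero, add_zero]
      have hw0 : w t0 = 0 := by
        change v t0 + -v t0 * D e t0 = 0
        rw [hD0]
        ring
      have hall : w = 0 := by
        funext t
        by_cases hr : ∃ i ∈ S, ∃ j ∈ S, i ≠ j ∧ t i = t j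
        · change v t + -v t0 * D e t = 0
          rw [hDr t hr]
          have h1 : v t = 0 := by
            by_contra h2
            obtain ⟨i, hi, j, hj, hij, htt⟩ := hr
            exact hij (hinj t h2 i hi j hj htt)
          rw [h1]
          ring
        · push_neg at hr
          have h1 : Function.Injective fun g => t (e g) := by
            intro g g' h
            by_contra h2
            refine hr _ (e g).2 _ (e g').2 (fun h3 => h2 (e.injective (Subtype.ext h3))) h
          let σ : Equiv.Perm G := Equiv.ofBijective _ (Finite.injective_iff_bijective.1 h1)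
          have h2 := vanish hw hEw t0 (hinj t0 ht0) (fun g => ⟨p g, hp g, hpg g⟩) hw0 σ
          refine Eq.trans (hw _ _ fun i hi => ?_) h2
          change t i = t (e (t0 i))
          have h3 : (⟨i, hi⟩ : S) = e (t0 i) := by
            apply e.symm.injective
            rw [Equiv.symm_apply_apply]
            have h4 := he (e.symm ⟨i, hi⟩)
            rw [Equiv.apply_symm_apply] at h4
            exact h4.symm
          rw [← h3]
      have hfin : v = v t0 • D e := by
        have h1 : v = w + v t0 • D e := by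
          funext t
          change v t = (v t + -v t0 * D e t) + v t0 * D e t
          ring
        rw [hall, zero_add] at h1
        exact h1
      rw [hfin]
      exact Submodule.smul_mem _ _ (Submodule.subset_span (Gen.det S e))

end alt

/-- Orthogonal projection, for functions. -/
theorem exists_orth {X : Type} [Fintype X] (Q : Submodule ℂ (X → ℂ)) (u : X → ℂ) :
    ∃ p ∈ Q, ∀ w ∈ Q, ∑ x, w x * conj ((u - p) x) = 0 := by
  classical
  let L := WithLp.linearEquiv 2 ℂ (X → ℂ)
  let Q' : Submodule ℂ (EuclideanSpace ℂ X) := Q.comap L.toLinearMap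
  obtain ⟨y, hy, z, hz, hyz⟩ := Submodule.exists_add_mem_mem_orthogonal (K := Q') (L.symm u)
  refine ⟨L y, hy, fun w hw => ?_⟩
  have h1 : u - L y = L z := by
    have h2 : u = L y + L z := by
      rw [← map_add, ← hyz, LinearEquiv.apply_symm_apply]
    rw [h2]
    abel
  have h2 : L.symm w ∈ Q' := by
    change L (L.symm w) ∈ Q
    rw [LinearEquiv.apply_symm_apply]
    exact hw
  have h3 := Submodule.inner_left_of_mem_orthogonal h2 hz
  rw [h1]
  rw [EuclideanSpace.inner_eq_star_dotProduct] at h3
  rw [← h3]
  rfl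

/-- **The first fundamental theorem for `𝔰𝔬`** on the places `S`. -/
theorem core (hπ : ∀ g, π (π g) = g) : ∀ (n : ℕ) (S : Finset T) (_ : S.card = n)
    (u : (T → G) → ℂ) (_ : Dep S u) (_ : Inv π S u), u ∈ P π S := by
  intro n
  induction n using Nat.strong_induction_on with
  | _ n ih =>
  intro S hS u hu hi
  obtain ⟨p, hp, ho⟩ := exists_orth (P π S) u
  set v : (T → G) → ℂ := u - p with hv
  have hvd : Dep S v := by
    intro t t' h
    change u t - p t = u t' - p t'
    rw [hu t t' h, P_dep hp t t' h]
  have hvi : Inv π S v := by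
    intro a b
    have h1 : v = u + (-1 : ℂ) • p := by
      rw [hv]
      funext t
      simp [sub_eq_add_neg]
    rw [h1, E_add, E_smul, E_add, E_smul, hi a b, P_inv hπ hp a b]
  have hK : ∀ i ∈ S, ∀ j ∈ S, i ≠ j → K π i j v = 0 := by
    intro i hi' j hj hij
    have hj' : j ∈ S.erase i := Finset.mem_erase.2 ⟨hij.symm, hj⟩
    have hcard : ((S.erase i).erase j).card < n := by
      rw [← hS]
      exact lt_of_lt_of_le (Finset.card_erase_lt_of_mem hj') (Finset.card_le_card
        (Finset.erase_subset _ _))
    have h1 : K π i j v ∈ P π ((S.erase i).erase j) :=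
      ih _ hcard _ rfl _ (K_dep hvd i j) (K_inv hπ hvi hij hi' hj)
    have h2 : prs π i j (K π i j v) ∈ P π S := by
      have h3 := prs_mem h1 hij (by simp) (by simp)
      rw [Finset.insert_erase hj', Finset.insert_erase hi'] at h3
      exact h3
    have h3 := K_adj (π := π) i j hij (K π i j v) v (fun t x y => by
      refine K_dep hvd i j _ _ fun k hk => ?_
      have hkj : k ≠ j := (Finset.mem_erase.1 hk).1
      have hki : k ≠ i := (Finset.mem_erase.1 (Finset.mem_erase.1 hk).2).1
      rw [update_of_ne hkj, update_of_ne hki])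
    rw [ho _ h2, mul_zero] at h3
    have h4 : ∑ t, ‖K π i j v t‖ ^ 2 = 0 := by
      have h5 : ∀ t, K π i j v t * conj (K π i j v t) = ((‖K π i j v t‖ ^ 2 : ℝ) : ℂ) := by
        intro t
        rw [Complex.mul_conj']
        push_cast
        ring
      rw [Finset.sum_congr rfl fun t _ => h5 t, ← Complex.ofReal_sum] at h3
      exact_mod_cast h3
    funext t
    have h5 := (Finset.sum_eq_zero_iff_of_nonneg fun t _ => by positivity).1 h4 t
      (Finset.mem_univ _)
    exact norm_eq_zero.1 (pow_eq_zero_iff two_ne_zero |>.1 h5)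
  have hC : ∀ t, ∑ a, ∑ b, E S a b (E S b a v) t = (S.card : ℂ) * v t := by
    intro t
    rw [← casimir hπ v hK t]
    refine Finset.sum_congr rfl fun a _ => Finset.sum_congr rfl fun b _ => ?_
    rw [hvi b a]
  obtain ⟨hc, hE⟩ := energy v hC
  have hmem : v ∈ P π S := alt_mem hvd hE hc
  have h0 := ho v hmem
  have h1 : ∑ t, ‖v t‖ ^ 2 = 0 := by
    have h5 : ∀ t, v t * conj (v t) = ((‖v t‖ ^ 2 : ℝ) : ℂ) := by
      intro t
      rw [Complex.mul_conj']
      push_cast
      ring
    rw [Finset.sum_congr rfl fun t _ => h5 t, ← Complex.ofReal_sum] at h0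
    exact_mod_cast h0
  have h2 : u = p := by
    funext t
    have h5 := (Finset.sum_eq_zero_iff_of_nonneg fun t _ => by positivity).1 h1 t
      (Finset.mem_univ _)
    have h6 := norm_eq_zero.1 (pow_eq_zero_iff two_ne_zero |>.1 h5)
    exact sub_eq_zero.1 h6
  rw [h2]
  exact hp

end

end Pool.Agent.UNQ.So
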