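import Pool.Agent.Lib.UNIT.Short

/-!
# The Tate conjecture for abelian varieties of all Albert types: statement

`K k`, `k : κ`, are finitely many CM fields, `G k` finite nonempty sets.  `X = ∏ k, A k` is an abelian
variety, `A k` has multiplication by `K k`, `H_1(A k, ℚ) = (K k)^(G k)`, and is polarised by the
hermitian form `∑ g, h k g * x g * conj (y g)`.  For some `k` there is also the endomorphism
`J(x)_(q g) = d g * conj (x g)`, `g : G k`, of `A k`, with `J ^ 2 = b`: then `H_1(A k, ℚ)` is a module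
over the quaternion algebra `K k + K k * J` over the real subfield `F` of `K k` (`s = 1`: totally
definite, Albert's type III; `s = -1`: type II, or type I for the algebra `M_2(F)`, that is
`A k = A' × A'` with real multiplication of `A'` by `F`).  For the other `k` we take `d k = 0`.

For an embedding `τ : K k → ℂ` the part of `H_1(A k, ℂ)` on which `K k` acts by `τ` has the basis
`(k, g, τ)`, `g : G k`, and is of type `(1,0)^a + (0,1)^b`, `a` the number of the `g` with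
`τ ∈ Φ (k, g)`.  The notation is that of `Pool.Agent.Lib.UNIT.Stat` and `Pool.Agent.Lib.UNIT.Short`.
-/

set_option autoImplicit false

open scoped TensorProduct ComplexConjugate
open Complex Pool.Agent.HCM Pool.Agent.RAT Pool.Agent.UNIT

namespace Pool.Agent.UNQ

noncomputable section

/-- `J(x)_(q g) = d g * conj (x g)` is zero, or `J ^ 2 = b` and
`h g * d (q g) = s * h (q g) * d g`, `s = 1` or `s = -1`. -/
def IsQuat {F G : Type} [Field F] (h : G → F) (q : G → G) (d : G → F) : Prop :=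
  (∀ g, d g = 0) ∨ ((∀ g, q (q g) = g) ∧ ∃ b s : F, b ≠ 0 ∧ (s = 1 ∨ s = -1) ∧
    ∀ g, (∀ τ : F →+* ℂ, τ (d g) * conj (τ (d (q g))) = τ b) ∧ h g * d (q g) = s * h (q g) * d g)

section tensors

variable {κ : Type} {K G : κ → Type} [∀ k, Field (K k)]

/-- The `Φ (k, g)` are CM types, and `J` is an endomorphism of the abelian variety. -/
def IsTypeQ (q : ∀ k, G k → G k) (d : ∀ k, G k → K k) (Φ : ∀ i : Σ k, G k, Set (K i.1 →+* ℂ)) :
    Prop :=
  (∀ i, IsCMType (Φ i)) ∧ ∀ k g, d k g ≠ 0 → ∀ τ, cj τ ∈ Φ ⟨k, q k g⟩ ↔ τ ∈ Φ ⟨k, g⟩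

/-- `X` lies in the product of the Lie algebras `𝔰𝔲` of the hermitian forms `h k` and commutes with
`J`. -/
def IsSUQ [∀ k, Fintype (G k)] (h : ∀ k, G k → K k) (q : ∀ k, G k → G k) (d : ∀ k, G k → K k)
    (X : ∀ k, Matrix (G k) (G k) (K k)) : Prop :=
  IsSU h X ∧ ∀ (k : κ) (τ : K k →+* ℂ) (a b : G k),
    τ (d k b * X k (q k a) (q k b)) = τ (d k a) * conj (τ (X k a b))

/-- The letter `(k, q g, conj τ)`, for `y = (k, g, τ)`. -/
def jm (q : ∀ k, G k → G k) (y : LU K G) : LU K G := cjL (mv y (q _ (pl y)))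

/-- The number `τ (d (q g))`, for `y = (k, g, τ)`. -/
def jv (q : ∀ k, G k → G k) (d : ∀ k, G k → K k) (y : LU K G) : ℂ := ev y (d _ (q _ (pl y)))

/-- The endomorphism `J` applied to a tensor at the places `a ∈ S`: the letter `(k, g, τ)` is the
linear form `x ↦ τ (x (k, g))`, and composed with `J` this is `τ (d (q g))` times the letter
`(k, q g, conj τ)`. -/
def mvJ {T : Type} [Fintype T] [DecidableEq T] (q : ∀ k, G k → G k) (d : ∀ k, G k → K k)
    (S : Finset T) (u : (T → LU K G) → ℂ) (t : T → LU K G) : ℂ :=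
  (∏ a ∈ S, jv q d (t a)) * u fun a => if a ∈ S then jm q (t a) else t a

/-- Tate classes in `H_1(X, ℚ_p)^{⊗ 2n}` (`N = e k * card (G k)` for all `k`): the Lie algebras `IsSUQ`
kill `c`, and, for some `m`, for every `x ∈ 𝓞 E` with `x ≡ 1 mod p^m` the multiplication by the
`e k`-th power of the product over `g : G k` of the reflex norms `z (k, g)` of `x` acts on `c` by the
`nN`-th power of the norm of `x`. -/
def IsTateQ (p : ℕ) [Fact p.Prime] [∀ k, Fintype (G k)] {n : ℕ} {E : Type} [Field E]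
    [NumberField E] (Φ : ∀ i : Σ k, G k, Set (K i.1 →+* ℂ)) (h : ∀ k, G k → K k)
    (q : ∀ k, G k → G k) (d : ∀ k, G k → K k) (N : ℕ) (e : κ → ℕ) (j : ∀ k, K k →+* E)
    (τ₀ : E →+* ℂ) (c : ℚ_[p] ⊗[ℚ] ((Fin (2 * n) → LU K G) → ℂ)) : Prop :=
  (∀ X : ∀ k, Matrix (G k) (G k) (K k), IsSUQ h q d X → KillsP p X c) ∧
  ∃ m : ℕ, ∀ y : E, IsIntegral ℤ y → ∀ z : ∀ i : Σ k, G k, K i.1,
    IsReflexNorm Φ (fun i => j i.1) τ₀ (1 + (p : E) ^ m * y) z →
      ActsP p (fun k => (∏ g, z ⟨k, g⟩) ^ e k)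
        (Algebra.norm ℚ (1 + (p : E) ^ m * y) ^ (n * N)) c

/-- `u` is obtained by the endomorphism `J`, at some places, from a product `IsProdL`: a tensor product
of divisor classes (given by the hermitian forms) and of the transfer, by `K`-determinants, of a
combination of classes of maps from compact arithmetic ball quotients to a CM abelian variety. -/
def IsProdQ [∀ k, Fintype (G k)] [∀ k, NumberField (K k)]
    (Φ : ∀ i : Σ k, G k, Set (K i.1 →+* ℂ)) (h : ∀ k, G k → K k) (q : ∀ k, G k → G k)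
    (d : ∀ k, G k → K k) (n : ℕ) (u : (Fin (2 * n) → LU K G) → ℂ) : Prop :=
  ∃ (S : Finset (Fin (2 * n))) (u₀ : (Fin (2 * n) → LU K G) → ℂ),
    IsProdL Φ h n u₀ ∧ u = mvJ q d S u₀

/-- `c` is a combination, with coefficients in `ℚ_p`, of the products `IsProdQ`. -/
def IsAlgQ (p : ℕ) [Fact p.Prime] [∀ k, Fintype (G k)] [∀ k, NumberField (K k)]
    (Φ : ∀ i : Σ k, G k, Set (K i.1 →+* ℂ)) (h : ∀ k, G k → K k) (q : ∀ k, G k → G k)
    (d : ∀ k, G k → K k) {n : ℕ} (c : ℚ_[p] ⊗[ℚ] ((Fin (2 * n) → LU K G) → ℂ)) : Prop :=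
  c ∈ Submodule.span ℚ_[p] {w | ∃ u, IsProdQ Φ h q d n u ∧ w = (1 : ℚ_[p]) ⊗ₜ[ℚ] u}

end tensors

/-- **The Tate conjecture for powers of `X`**, up to `K`-determinants: the Tate classes in
`H_1(X, ℚ_p)^{⊗ 2n}` are the `ℚ_p`-linear combinations of the products of divisor classes and of
transfers of classes of maps from compact arithmetic ball quotients to CM abelian varieties, with the
endomorphism `J` applied at some places. -/
def TateQ : Prop :=
  ∀ (p : ℕ) [Fact p.Prime] (n : ℕ) (κ : Type) [Fintype κ] (K G : κ → Type) [∀ k, Field (K k)]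
    [∀ k, NumberField (K k)] [∀ k, NumberField.IsCMField (K k)] [∀ k, Fintype (G k)]
    [∀ k, Nonempty (G k)] (h : ∀ k, G k → K k),
    (∀ k g, h k g ≠ 0 ∧ ∀ τ : K k →+* ℂ, (τ (h k g)).im = 0) →
    ∀ (q : ∀ k, G k → G k) (d : ∀ k, G k → K k), (∀ k, IsQuat (h k) (q k) (d k)) →
    ∀ Φ : ∀ i : Σ k, G k, Set (K i.1 →+* ℂ), IsTypeQ q d Φ →
    ∀ (N : ℕ) (e : κ → ℕ), 0 < N → (∀ k, e k * Fintype.card (G k) = N) →
    ∀ (E : Type) [Field E] [NumberField E] [IsGalois ℚ E] (j : ∀ k, K k →+* E) (τ₀ : E →+* ℂ)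
      (c : ℚ_[p] ⊗[ℚ] ((Fin (2 * n) → LU K G) → ℂ)), IsTensP p c →
      (IsTateQ p Φ h q d N e j τ₀ c ↔ IsAlgQ p Φ h q d c)

end

end Pool.Agent.UNQ
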