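import Pool.Agent.Lib.UNQ.Glue
import Pool.Agent.Lib.UNJ.SpFft
import Pool.Agent.Lib.UNIT.UB

/-!
# One block with a quaternionic structure
-/

set_option autoImplicit false
set_option linter.unusedSectionVars false

open Function Pool.Agent.HCM Pool.Agent.RAT Pool.Agent.UNIT Pool.Agent.UNJ.Gl

namespace Pool.Agent.UNQ

/-- One alternating block. -/
def SpF : Prop :=
  ∀ (G T : Type) [Fintype G] [DecidableEq G] [Fintype T] [DecidableEq T] (ι : G → G),
    (∀ g, ι (ι g) = g) → ∀ h : G → ℂ, (∀ g, h g ≠ 0) → (∀ g, h (ι g) = -h g) →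
    ∀ v : (T → G) → ℂ, (∀ g g' t,
      (∑ a, if t a = g then v (update t a g') else 0) -
        h g / h g' * ∑ a, (if t a = ι g' then v (update t a (ι g)) else 0) = 0) →
    v ∈ Submodule.span ℂ {w | ∃ (d : ℕ) (e : Fin d × Fin 2 ≃ T), w = fun t => ∏ i,
      if t (e (i, 1)) = ι (t (e (i, 0))) then (h (t (e (i, 0))))⁻¹ else 0}

/-- One symmetric block. -/
def SoF : Prop :=
  ∀ (G T : Type) [Fintype G] [DecidableEq G] [Fintype T] [DecidableEq T] (ι : G → G),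
    (∀ g, ι (ι g) = g) → ∀ h : G → ℂ, (∀ g, h g ≠ 0) → (∀ g, h (ι g) = h g) →
    ∀ v : (T → G) → ℂ, (∀ g g' t,
      (∑ a, if t a = g then v (update t a g') else 0) -
        h g / h g' * ∑ a, (if t a = ι g' then v (update t a (ι g)) else 0) = 0) →
    v ∈ Submodule.span ℂ {w | ∃ (d r : ℕ) (e : (Fin d × Fin 2) ⊕ (Fin r × G) ≃ T),
      w = fun t => (∏ i, if t (e (Sum.inl (i, 1))) = ι (t (e (Sum.inl (i, 0)))) then
        (h (t (e (Sum.inl (i, 0)))))⁻¹ else 0) *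
        ∏ j, ∑ π : Equiv.Perm G, ((Equiv.Perm.sign π : ℤ) : ℂ) *
          if (fun g => t (e (Sum.inr (j, g)))) = fun g => π g then 1 else 0}

namespace VB

noncomputable section

variable {κ : Type} {K G : κ → Type} [∀ k, Field (K k)] [∀ k, Fintype (G k)]

/-- Products of pairings and determinants with any index sets. -/
structure PD (K G : κ → Type) [∀ k, Field (K k)] (T : Type) where
  /-- the pairings -/
  J1 : Type
  /-- the determinants -/
  J2 : Type
  f1 : Fintype J1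
  f2 : Fintype J2
  /-- blocks of the pairings -/
  pk : J1 → κ
  /-- embeddings of the pairings -/
  pτ : ∀ i, K (pk i) →+* ℂ
  /-- blocks of the determinants -/
  blk : J2 → κ
  /-- embeddings of the determinants -/
  τ : ∀ j, K (blk j) →+* ℂ
  /-- places -/
  e : (J1 × Fin 2) ⊕ (Σ j, G (blk j)) ≃ T

attribute [instance] PD.f1 PD.f2

variable (h : ∀ k, G k → K k) {T : Type}

/-- The product. -/
def PD.val (D : PD K G T) (t : T → LU K G) : ℂ :=
  (∏ i, pc h (D.pk i) (D.pτ i) (t (D.e (Sum.inl (i, 0)))) (t (D.e (Sum.inl (i, 1))))) *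
    ∏ j, dc (D.blk j) (D.τ j) fun g => t (D.e (Sum.inr ⟨j, g⟩))

theorem PD.isBT (D : PD K G T) : IsBT h (D.val h) := by
  obtain ⟨J1, J2, f1, f2, pk, pτ, blk, τ, e⟩ := D
  let φ1 : Fin (Fintype.card J1) ≃ J1 := (Fintype.equivFin J1).symm
  let φ2 : Fin (Fintype.card J2) ≃ J2 := (Fintype.equivFin J2).symm
  let e' : (Fin (Fintype.card J1) × Fin 2) ⊕ (Σ j, G (blk (φ2 j))) ≃ T :=
    (Equiv.sumCongr (Equiv.prodCongr φ1 (Equiv.refl _))
      (Equiv.sigmaCongrLeft (β := fun j => G (blk j)) φ2)).trans e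
  refine ⟨_, _, fun i => pk (φ1 i), fun i => pτ (φ1 i), fun j => blk (φ2 j), fun j => τ (φ2 j), e',
    ?_⟩
  funext t
  unfold PD.val bt
  congr 1
  · exact (Equiv.prod_comp φ1 fun i => pc h (pk i) (pτ i) (t (e (Sum.inl (i, 0))))
      (t (e (Sum.inl (i, 1))))).symm
  · exact (Equiv.prod_comp φ2 fun j => dc (blk j) (τ j) fun g => t (e (Sum.inr ⟨j, g⟩))).symm

/-- Gluing. -/
def PD.glue {Bk : Type} [Fintype Bk] {c : T → Bk} (D : ∀ b, PD K G {a // c a = b}) :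
    PD K G T where
  J1 := Σ b, (D b).J1
  J2 := Σ b, (D b).J2
  f1 := inferInstance
  f2 := inferInstance
  pk := fun i => (D i.1).pk i.2
  pτ := fun i => (D i.1).pτ i.2
  blk := fun j => (D j.1).blk j.2
  τ := fun j => (D j.1).τ j.2
  e := (Equiv.sumCongr (Equiv.sigmaProdDistrib (fun b => (D b).J1) (Fin 2))
    (Equiv.sigmaAssoc fun (b : Bk) (j : (D b).J2) => G ((D b).blk j))).trans
    ((Equiv.sigmaSumDistrib (fun b => (D b).J1 × Fin 2)
      (fun b => Σ j : (D b).J2, G ((D b).blk j))).symm.trans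
    ((Equiv.sigmaCongrRight fun b => (D b).e).trans (Equiv.sigmaFiberEquiv c)))

theorem PD.glue_val {Bk : Type} [Fintype Bk] {c : T → Bk} (D : ∀ b, PD K G {a // c a = b})
    (t : T → LU K G) : (PD.glue D).val h t = ∏ b, (D b).val h fun a => t a.1 := by
  have h1 : (PD.glue D).val h t =
      (∏ i : Σ b, (D b).J1, pc h ((D i.1).pk i.2) ((D i.1).pτ i.2)
        (t ((D i.1).e (Sum.inl (i.2, 0))).1) (t ((D i.1).e (Sum.inl (i.2, 1))).1)) *
      ∏ j : Σ b, (D b).J2, dc ((D j.1).blk j.2) ((D j.1).τ j.2) fun g =>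
        t ((D j.1).e (Sum.inr ⟨j.2, g⟩)).1 := rfl
  rw [h1, Fintype.prod_sigma, Fintype.prod_sigma, ← Finset.prod_mul_distrib]
  rfl

theorem pc_ne {k : κ} {τ : K k →+* ℂ} {y y' : LU K G} (h1 : pc h k τ y y' ≠ 0) :
    ∃ g : G k, y = ⟨⟨k, g⟩, τ⟩ ∧ y' = ⟨⟨k, g⟩, cj τ⟩ := by
  by_contra h2
  push Not at h2
  refine h1 (Finset.sum_eq_zero fun g _ => if_neg ?_)
  rintro ⟨h3, h4⟩
  exact h2 g h3 h4

theorem dc_ne {k : κ} {τ : K k →+* ℂ} {w : G k → LU K G} (h1 : dc k τ w ≠ 0) :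
    ∃ π : Equiv.Perm (G k), w = fun g => ⟨⟨k, π g⟩, τ⟩ := by
  by_contra h2
  push Not at h2
  refine h1 (Finset.sum_eq_zero fun π _ => ?_)
  rw [if_neg (h2 π), mul_zero]

theorem ite_iff {p q : Prop} {dp : Decidable p} {dq : Decidable q} {a b : ℂ} (h : p ↔ q) :
    @ite ℂ p dp a b = @ite ℂ q dq a b := by
  by_cases hp : p
  · rw [if_pos hp, if_pos (h.mp hp)]
  · rw [if_neg hp, if_neg fun hq => hp (h.mpr hq)]

end

end VB

end Pool.Agent.UNQ
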