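import Pool.Agent.Lib.UNQ.UBJ

/-!
# One block with a quaternionic structure: the letters
-/

set_option autoImplicit false
set_option linter.unusedSectionVars false

open Function Pool.Agent.HCM Pool.Agent.RAT Pool.Agent.UNIT Pool.Agent.UNJ.Gl

namespace Pool.Agent.UNQ.VB

noncomputable section

variable {κ : Type} {K G : κ → Type} [∀ k, Field (K k)]
  (q : ∀ k, G k → G k) (d : ∀ k, G k → K k) {P : Type} [Fintype P] [DecidableEq P]
  {k : κ} (τ : K k →+* ℂ) (S : Finset P)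

/-- The letter at the place `a`. -/
def jl (a : P) (g : G k) : LU K G := if a ∈ S then ⟨⟨k, q k g⟩, cj τ⟩ else ⟨⟨k, g⟩, τ⟩

/-- Its weight. -/
def jw (a : P) (g : G k) : ℂ := if a ∈ S then τ (d k (q k g)) else 1

theorem jl_pos {a : P} (h : a ∈ S) (g : G k) : jl q τ S a g = ⟨⟨k, q k g⟩, cj τ⟩ := if_pos h

theorem jl_neg {a : P} (h : a ∉ S) (g : G k) : jl q τ S a g = ⟨⟨k, g⟩, τ⟩ := if_neg h

theorem jw_pos {a : P} (h : a ∈ S) (g : G k) : jw q d τ S a g = τ (d k (q k g)) := if_pos h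

theorem jw_neg {a : P} (h : a ∉ S) (g : G k) : jw q d τ S a g = 1 := if_neg h

variable {q d} {τ} {S}

theorem jw_ne (hd : ∀ g, d k g ≠ 0) (a : P) (g : G k) : jw q d τ S a g ≠ 0 := by
  by_cases h : a ∈ S
  · rw [jw_pos q d τ S h, map_ne_zero]
    exact hd _
  · rw [jw_neg q d τ S h]
    exact one_ne_zero

variable (q d τ S)

/-- The function of words in `G k`. -/
def jf (φ : (P → LU K G) → ℂ) (s : P → G k) : ℂ :=
  (∏ a, jw q d τ S a (s a)) * φ fun a => jl q τ S a (s a)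

variable {q d τ S}

theorem jf_update (hd : ∀ g, d k g ≠ 0) (φ : (P → LU K G) → ℂ) (s : P → G k) (a : P) (g : G k) :
    jf q d τ S φ (update s a g) = (∏ a, jw q d τ S a (s a)) *
      (jw q d τ S a g / jw q d τ S a (s a)) *
      φ (update (fun a => jl q τ S a (s a)) a (jl q τ S a g)) := by
  have h0 := jw_ne (q := q) (τ := τ) (S := S) hd a (s a)
  unfold jf
  congr 1
  · rw [← Finset.mul_prod_erase _ _ (Finset.mem_univ a),
      ← Finset.mul_prod_erase (f := fun a => jw q d τ S a (s a)) _ (Finset.mem_univ a), update_self]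
    have h1 : ∏ c ∈ Finset.univ.erase a, jw q d τ S c (update s a g c) =
        ∏ c ∈ Finset.univ.erase a, jw q d τ S c (s c) := by
      refine Finset.prod_congr rfl fun c hc => ?_
      rw [update_of_ne (Finset.ne_of_mem_erase hc)]
    rw [h1]
    field_simp
  · congr 1
    funext c
    by_cases hc : c = a
    · subst hc
      rw [update_self, update_self]
    · rw [update_of_ne hc, update_of_ne hc]

open Classical in
theorem jf_sum (hd : ∀ g, d k g ≠ 0) (hq : ∀ g, q k (q k g) = g) (hτ : cj τ ≠ τ)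
    (φ : (P → LU K G) → ℂ) (s : P → G k) (g g' : G k) :
    (∑ a, if s a = g then jf q d τ S φ (update s a g') else 0) =
      (∏ a, jw q d τ S a (s a)) *
        (el ⟨⟨k, g⟩, τ⟩ ⟨⟨k, g'⟩, τ⟩ φ (fun a => jl q τ S a (s a)) +
          τ (d k (q k g')) / τ (d k (q k g)) *
            el ⟨⟨k, q k g⟩, cj τ⟩ ⟨⟨k, q k g'⟩, cj τ⟩ φ (fun a => jl q τ S a (s a))) := by
  unfold el
  rw [Finset.mul_sum, ← Finset.sum_add_distrib, Finset.mul_sum]
  refine Finset.sum_congr rfl fun a _ => ?_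
  have hinj : Injective (q k) := fun x y h => by rw [← hq x, h, hq]
  by_cases ha : a ∈ S
  · have e1 : (fun a => jl q τ S a (s a)) a = ⟨⟨k, q k (s a)⟩, cj τ⟩ := jl_pos q τ S ha _
    have h1 : ¬ (fun a => jl q τ S a (s a)) a = ⟨⟨k, g⟩, τ⟩ := by
      rw [e1]
      intro h2
      simp only [Sigma.mk.injEq, heq_eq_eq, true_and] at h2
      exact hτ h2.2
    rw [if_neg h1, zero_add]
    by_cases h2 : s a = g
    · rw [if_pos h2, jf_update hd, jl_pos q τ S ha, jw_pos q d τ S ha, jw_pos q d τ S ha, h2,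
        if_pos (e1.trans (by rw [h2]))]
      ring
    · rw [if_neg h2, if_neg]
      · ring
      · rw [e1]
        intro h3
        simp only [Sigma.mk.injEq, heq_eq_eq, true_and, and_true] at h3
        exact h2 (hinj h3)
  · have e1 : (fun a => jl q τ S a (s a)) a = ⟨⟨k, s a⟩, τ⟩ := jl_neg q τ S ha _
    have h1 : ¬ (fun a => jl q τ S a (s a)) a = ⟨⟨k, q k g⟩, cj τ⟩ := by
      rw [e1]
      intro h2
      simp only [Sigma.mk.injEq, heq_eq_eq, true_and] at h2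
      exact hτ h2.2.symm
    rw [if_neg h1, mul_zero, add_zero]
    by_cases h2 : s a = g
    · rw [if_pos h2, jf_update hd, jl_neg q τ S ha, jw_neg q d τ S ha, jw_neg q d τ S ha,
        if_pos (e1.trans (by rw [h2]))]
      ring
    · rw [if_neg h2, if_neg]
      · ring
      · rw [e1]
        intro h3
        simp only [Sigma.mk.injEq, heq_eq_eq, true_and, and_true] at h3
        exact h2 h3

open Classical in
theorem jf_rel (hd : ∀ g, d k g ≠ 0) (hq : ∀ g, q k (q k g) = g) (hτ : cj τ ≠ τ)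
    (h : ∀ k, G k → K k) (h0 : ∀ g, h k g ≠ 0) (sg : ℂ) (hs : ∀ g, τ (h k g) * τ (d k (q k g)) =
      sg * τ (h k (q k g)) * τ (d k g)) (hr : ∀ g, cj τ (h k g) = τ (h k g))
    (φ : (P → LU K G) → ℂ) (g g' : G k)
    (hu : ∀ t, (el ⟨⟨k, g⟩, τ⟩ ⟨⟨k, g'⟩, τ⟩ φ t -
      τ (h k g) / τ (h k g') * el ⟨⟨k, g'⟩, cj τ⟩ ⟨⟨k, g⟩, cj τ⟩ φ t) +
      τ (d k (q k g')) / τ (d k (q k g)) *
      (el ⟨⟨k, q k g⟩, cj τ⟩ ⟨⟨k, q k g'⟩, cj τ⟩ φ t -
      cj τ (h k (q k g)) / cj τ (h k (q k g')) *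
        el ⟨⟨k, q k g'⟩, cj (cj τ)⟩ ⟨⟨k, q k g⟩, cj (cj τ)⟩ φ t) = 0) (s : P → G k) :
    (∑ a, if s a = g then jf q d τ S φ (update s a g') else 0) -
      (τ (h k g) / τ (d k g)) / (τ (h k g') / τ (d k g')) *
        ∑ a, (if s a = q k g' then jf q d τ S φ (update s a (q k g)) else 0) = 0 := by
  have hn : ∀ g, τ (h k g) ≠ 0 := fun g => (map_ne_zero τ).mpr (h0 g)
  have hn' : ∀ g, τ (d k g) ≠ 0 := fun g => (map_ne_zero τ).mpr (hd g)
  rw [jf_sum hd hq hτ, jf_sum hd hq hτ, hq, hq]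
  have h1 := hu fun a => jl q τ S a (s a)
  rw [UBx.cj_cj', hr, hr] at h1
  have h2 : τ (h k g) / τ (d k g) / (τ (h k g') / τ (d k g')) =
      τ (d k (q k g')) / τ (d k (q k g)) * (τ (h k (q k g)) / τ (h k (q k g'))) := by
    have h3 := hs g
    have h4 := hs g'
    have h5 := hn g
    have h5' := hn g'
    have h6 := hn (q k g)
    have h6' := hn (q k g')
    have h7 := hn' g
    have h7' := hn' g'
    have h8 := hn' (q k g)
    have h8' := hn' (q k g')
    field_simp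
    have h9 : (τ (h k g) * τ (d k (q k g))) * (sg * τ (h k (q k g')) * τ (d k g')) =
        (sg * τ (h k (q k g)) * τ (d k g)) * (τ (h k g') * τ (d k (q k g'))) := by
      rw [h3, h4]
    have hsg : sg ≠ 0 := by
      rintro rfl
      rw [zero_mul, zero_mul] at h3
      exact mul_ne_zero h5 h8 h3
    refine mul_left_cancel₀ hsg ?_
    linear_combination h9
  have h3 : τ (h k g) / τ (d k g) / (τ (h k g') / τ (d k g')) * (τ (d k g) / τ (d k g')) =
      τ (h k g) / τ (h k g') := by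
    have h5 := hn g
    have h5' := hn g'
    have h7 := hn' g
    have h7' := hn' g'
    field_simp
  set A := el (⟨⟨k, g⟩, τ⟩ : LU K G) ⟨⟨k, g'⟩, τ⟩ φ (fun a => jl q τ S a (s a))
  set B := el (⟨⟨k, q k g⟩, cj τ⟩ : LU K G) ⟨⟨k, q k g'⟩, cj τ⟩ φ (fun a => jl q τ S a (s a))
  set C := el (⟨⟨k, q k g'⟩, τ⟩ : LU K G) ⟨⟨k, q k g⟩, τ⟩ φ (fun a => jl q τ S a (s a))
  set D := el (⟨⟨k, g'⟩, cj τ⟩ : LU K G) ⟨⟨k, g⟩, cj τ⟩ φ (fun a => jl q τ S a (s a))
  linear_combination (∏ a, jw q d τ S a (s a)) * h1 - (∏ a, jw q d τ S a (s a)) * C * h2 -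
    (∏ a, jw q d τ S a (s a)) * D * h3

end

end Pool.Agent.UNQ.VB
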