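import Pool.Agent.Lib.UNQ.UBK
import Pool.Agent.Lib.UNQ.Rows

/-!
# One block with a quaternionic structure: the moves
-/

set_option autoImplicit false
set_option linter.unusedSectionVars false

open Function Pool.Agent.HCM Pool.Agent.RAT Pool.Agent.UNIT Pool.Agent.UNJ.Gl
open scoped ComplexConjugate symmDiff

namespace Pool.Agent.UNQ.VB

noncomputable section

variable {κ : Type} {K G : κ → Type} [∀ k, Field (K k)] [∀ k, Fintype (G k)]
  {q : ∀ k, G k → G k} {d : ∀ k, G k → K k} {h : ∀ k, G k → K k}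
  {P : Type} [Fintype P] [DecidableEq P] {k : κ} {τ : K k →+* ℂ} {S : Finset P}

open Classical in
theorem pc_val (hd : ∀ g, d k g ≠ 0) (h0 : ∀ g, h k g ≠ 0)
    (hq : ∀ g, q k (q k g) = g) (x x' : G k) :
    τ (d k (q k x')) * pc h k τ ⟨⟨k, x⟩, τ⟩ ⟨⟨k, q k x'⟩, cj τ⟩ =
      if x' = q k x then (τ (h k x) / τ (d k x))⁻¹ else 0 := by
  have hn : ∀ g, τ (h k g) ≠ 0 := fun g => (map_ne_zero τ).mpr (h0 g)
  have hn' : ∀ g, τ (d k g) ≠ 0 := fun g => (map_ne_zero τ).mpr (hd g)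
  have h1 : pc h k τ (⟨⟨k, x⟩, τ⟩ : LU K G) ⟨⟨k, q k x'⟩, cj τ⟩ =
      if x' = q k x then (τ (h k x))⁻¹ else 0 := by
    unfold pc
    rw [Finset.sum_eq_single x]
    · refine ite_iff ?_
      simp only [Sigma.mk.injEq, heq_eq_eq, true_and, and_true]
      constructor
      · intro h2
        rw [← h2, hq]
      · rintro rfl
        exact hq x
    · intro g _ hg
      rw [if_neg]
      rintro ⟨h2, -⟩
      simp only [Sigma.mk.injEq, heq_eq_eq, true_and, and_true] at h2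
      exact hg h2.symm
    · intro h2
      exact absurd (Finset.mem_univ _) h2
  rw [h1]
  by_cases h2 : x' = q k x
  · rw [if_pos h2, if_pos h2, h2, hq]
    have h3 := hn x
    have h4 := hn' x
    field_simp
  · rw [if_neg h2, if_neg h2, mul_zero]

open Classical in
theorem dc_val (s : G k → G k) : dc k τ (fun g => (⟨⟨k, s g⟩, τ⟩ : LU K G)) =
    ∑ π : Equiv.Perm (G k), ((Equiv.Perm.sign π : ℤ) : ℂ) *
      if s = fun g => π g then 1 else 0 := by
  unfold dc
  refine Finset.sum_congr rfl fun π _ => ?_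
  congr 1
  refine ite_iff ?_
  constructor
  · intro h1
    funext g
    have h2 := congrFun h1 g
    simp only [Sigma.mk.injEq, heq_eq_eq, true_and, and_true] at h2
    exact h2
  · rintro rfl
    rfl

theorem jm_eq (hq : ∀ g, q k (q k g) = g) {y : LU K G} {g : G k} {σ : K k →+* ℂ}
    (h1 : jm q y = ⟨⟨k, g⟩, σ⟩) : y = ⟨⟨k, q k g⟩, cj σ⟩ := by
  obtain ⟨⟨k', g'⟩, σ'⟩ := y
  rw [jm_mk] at h1
  simp only [Sigma.mk.injEq] at h1
  obtain ⟨⟨rfl, h2⟩, h3⟩ := h1
  have h4 := eq_of_heq h2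
  have h5 := eq_of_heq h3
  subst h4
  subst h5
  rw [hq, UBx.cj_cj']

section mv

variable {n r : ℕ} (e : (Fin n × Fin 2) ⊕ (Fin r × G k) ≃ P)

/-- The second places of the pairs. -/
def sec : Finset P := Finset.univ.image fun i : Fin n => e (Sum.inl (i, 1))

theorem mem_sec (z : (Fin n × Fin 2) ⊕ (Fin r × G k)) :
    e z ∈ sec e ↔ ∃ i, z = Sum.inl (i, 1) := by
  unfold sec
  rw [Finset.mem_image]
  constructor
  · rintro ⟨i, -, hi⟩
    exact ⟨i, (e.injective hi).symm⟩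
  · rintro ⟨i, rfl⟩
    exact ⟨i, Finset.mem_univ i, rfl⟩

theorem inl1_mem (i : Fin n) : e (Sum.inl (i, 1)) ∈ sec e := (mem_sec e _).mpr ⟨i, rfl⟩

theorem inl0_notMem (i : Fin n) : e (Sum.inl (i, 0)) ∉ sec e := by
  rw [mem_sec]
  rintro ⟨j, hj⟩
  simp at hj

theorem inr_notMem (j : Fin r × G k) : e (Sum.inr j) ∉ sec e := by
  rw [mem_sec]
  rintro ⟨j', hj⟩
  simp at hj

variable (τ) in
/-- The data of a product in one block. -/
def pd1 : PD K G P where
  J1 := Fin n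
  J2 := Fin r
  f1 := inferInstance
  f2 := inferInstance
  pk := fun _ => k
  pτ := fun _ => τ
  blk := fun _ => k
  τ := fun _ => τ
  e := (Equiv.sumCongr (Equiv.refl _) (Equiv.sigmaEquivProd (Fin r) (G k))).trans e

theorem pd1_val (t : P → LU K G) : (pd1 τ e).val h t =
    (∏ i, pc h k τ (t (e (Sum.inl (i, 0)))) (t (e (Sum.inl (i, 1))))) *
      ∏ j, dc k τ fun g => t (e (Sum.inr (j, g))) := rfl

/-- The moved letter. -/
theorem mw_jl (hq : ∀ g, q k (q k g) = g) (s : P → G k) (a : P) :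
    mw q (S ∆ sec e) (fun a => jl q τ S a (s a)) a =
      if a ∈ sec e then ⟨⟨k, q k (s a)⟩, cj τ⟩ else ⟨⟨k, s a⟩, τ⟩ := by
  unfold mw
  beta_reduce
  by_cases h1 : a ∈ S <;> by_cases h2 : a ∈ sec e
  · rw [if_neg (by simp [Finset.mem_symmDiff, h1, h2]), if_pos h2, jl_pos q τ S h1]
  · rw [if_pos (by simp [Finset.mem_symmDiff, h1, h2]), if_neg h2, jl_pos q τ S h1, jm_mk, hq,
      UBx.cj_cj']
  · rw [if_pos (by simp [Finset.mem_symmDiff, h1, h2]), if_pos h2, jl_neg q τ S h1, jm_mk]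
  · rw [if_neg (by simp [Finset.mem_symmDiff, h1, h2]), if_neg h2, jl_neg q τ S h1]

open Classical in
theorem mv_val (hd : ∀ g, d k g ≠ 0) (h0 : ∀ g, h k g ≠ 0) (hq : ∀ g, q k (q k g) = g)
    (b : ℂ) (hb : ∀ g, τ (d k g) * conj (τ (d k (q k g))) = b) (s : P → G k) :
    (∏ a, jw q d τ S a (s a)) *
      mvJ q d (S ∆ sec e) ((pd1 τ e).val h) (fun a => jl q τ S a (s a)) =
    (∏ a, if a ∈ S ∧ a ∉ sec e then b else 1) *
      ((∏ i, if s (e (Sum.inl (i, 1))) = q k (s (e (Sum.inl (i, 0)))) then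
        (τ (h k (s (e (Sum.inl (i, 0))))) / τ (d k (s (e (Sum.inl (i, 0))))))⁻¹ else 0) *
        ∏ j, ∑ π : Equiv.Perm (G k), ((Equiv.Perm.sign π : ℤ) : ℂ) *
          if (fun g => s (e (Sum.inr (j, g)))) = fun g => π g then 1 else 0) := by
  have h1 : (∏ a, jw q d τ S a (s a)) * (∏ a ∈ S ∆ sec e, jv q d (jl q τ S a (s a))) =
      (∏ a, if a ∈ S ∧ a ∉ sec e then b else 1) *
        ∏ i, τ (d k (q k (s (e (Sum.inl (i, 1)))))) := by
    have h2 : (∏ a ∈ S ∆ sec e, jv q d (jl q τ S a (s a))) =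
        ∏ a, if a ∈ S ∆ sec e then jv q d (jl q τ S a (s a)) else 1 := by
      rw [Finset.prod_ite_mem, Finset.univ_inter]
    have h3 : (∏ i, τ (d k (q k (s (e (Sum.inl (i, 1))))))) =
        ∏ a, if a ∈ sec e then τ (d k (q k (s a))) else 1 := by
      rw [← Equiv.prod_comp e, Fintype.prod_sum_type, Fintype.prod_prod_type]
      have h4 : (∏ j : Fin r × G k, if e (Sum.inr j) ∈ sec e then
          τ (d k (q k (s (e (Sum.inr j))))) else 1) = 1 :=
        Finset.prod_eq_one fun j _ => if_neg (inr_notMem e j)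
      rw [h4, mul_one]
      refine Finset.prod_congr rfl fun i _ => ?_
      rw [Fin.prod_univ_two, if_neg (inl0_notMem e i), if_pos (inl1_mem e i), one_mul]
    rw [h2, h3, ← Finset.prod_mul_distrib, ← Finset.prod_mul_distrib]
    refine Finset.prod_congr rfl fun a _ => ?_
    by_cases h1 : a ∈ S <;> by_cases h2 : a ∈ sec e
    · rw [if_neg (c := a ∈ S ∆ sec e) (by simp [Finset.mem_symmDiff, h1, h2]), if_pos h2,
        if_neg (by simp [h2]), jw_pos q d τ S h1]
      ring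
    · rw [if_pos (c := a ∈ S ∆ sec e) (by simp [Finset.mem_symmDiff, h1, h2]), if_neg h2,
        if_pos ⟨h1, h2⟩, jl_pos q τ S h1, jw_pos q d τ S h1, jv_mk, hq, mul_one]
      have h3 := hb (q k (s a))
      rw [hq] at h3
      exact h3
    · rw [if_pos (c := a ∈ S ∆ sec e) (by simp [Finset.mem_symmDiff, h1, h2]), if_pos h2,
        if_neg (by simp [h2]), jl_neg q τ S h1, jw_neg q d τ S h1, jv_mk]
    · rw [if_neg (c := a ∈ S ∆ sec e) (by simp [Finset.mem_symmDiff, h1, h2]), if_neg h2,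
        if_neg (by simp [h1]), jw_neg q d τ S h1]
  rw [mvJ_apply, ← mul_assoc, h1, mul_assoc, pd1_val]
  congr 1
  rw [← mul_assoc, ← Finset.prod_mul_distrib]
  congr 1
  · refine Finset.prod_congr rfl fun i _ => ?_
    rw [mw_jl e hq, mw_jl e hq, if_neg (inl0_notMem e i), if_pos (inl1_mem e i),
      pc_val hd h0 hq]
  · refine Finset.prod_congr rfl fun j _ => ?_
    rw [← dc_val (τ := τ)]
    congr 1
    funext g
    rw [mw_jl e hq, if_neg (inr_notMem e (j, g))]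

theorem mv_supp (hq : ∀ g, q k (q k g) = g) (t : P → LU K G)
    (ht : mvJ q d (S ∆ sec e) ((pd1 τ e).val h) t ≠ 0) :
    ∃ s : P → G k, t = fun a => jl q τ S a (s a) := by
  have h1 : (pd1 τ e).val h (mw q (S ∆ sec e) t) ≠ 0 := right_ne_zero_of_mul ht
  rw [pd1_val] at h1
  have h2 := left_ne_zero_of_mul h1
  have h3 := right_ne_zero_of_mul h1
  rw [Finset.prod_ne_zero_iff] at h2 h3
  have h4 : ∀ a, ∃ g : G k, mw q (S ∆ sec e) t a =
      if a ∈ sec e then ⟨⟨k, g⟩, cj τ⟩ else ⟨⟨k, g⟩, τ⟩ := by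
    intro a
    obtain ⟨z, rfl⟩ := e.surjective a
    rcases z with ⟨i, ε⟩ | ⟨j, g⟩
    · obtain ⟨g, h5, h6⟩ := pc_ne h (h2 i (Finset.mem_univ i))
      fin_cases ε
      · exact ⟨g, h5.trans (if_neg (inl0_notMem e i)).symm⟩
      · exact ⟨g, h6.trans (if_pos (inl1_mem e i)).symm⟩
    · obtain ⟨π, h5⟩ := dc_ne (h3 j (Finset.mem_univ j))
      refine ⟨π g, ?_⟩
      rw [if_neg (inr_notMem e (j, g))]
      exact congrFun h5 g
  have h5 : ∀ a, ∃ g : G k, t a = jl q τ S a g := by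
    intro a
    obtain ⟨g, hg⟩ := h4 a
    unfold mw at hg
    by_cases h1 : a ∈ S <;> by_cases h2 : a ∈ sec e
    · rw [if_neg (by simp [Finset.mem_symmDiff, h1, h2]), if_pos h2] at hg
      refine ⟨q k g, ?_⟩
      rw [jl_pos q τ S h1, hq, hg]
    · rw [if_pos (by simp [Finset.mem_symmDiff, h1, h2]), if_neg h2] at hg
      refine ⟨g, ?_⟩
      rw [jl_pos q τ S h1]
      exact jm_eq hq hg
    · rw [if_pos (by simp [Finset.mem_symmDiff, h1, h2]), if_pos h2] at hg
      refine ⟨q k g, ?_⟩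
      rw [jl_neg q τ S h1]
      have h6 := jm_eq hq hg
      rw [UBx.cj_cj'] at h6
      exact h6
    · rw [if_neg (by simp [Finset.mem_symmDiff, h1, h2]), if_neg h2] at hg
      refine ⟨g, ?_⟩
      rw [jl_neg q τ S h1, hg]
  choose s hs using h5
  exact ⟨s, funext hs⟩

end mv

end

end Pool.Agent.UNQ.VB
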