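import Pool.Agent.Lib.UNQ.UBM

/-!
# One block, with and without quaternionic structure
-/

set_option autoImplicit false
set_option linter.unusedSectionVars false

open Function Pool.Agent.HCM Pool.Agent.RAT Pool.Agent.UNIT Pool.Agent.UNJ.Gl
open scoped ComplexConjugate symmDiff

namespace Pool.Agent.UNQ.VB

noncomputable section

variable {κ : Type} {K G : κ → Type} [∀ k, Field (K k)] [∀ k, Fintype (G k)]
  (q : ∀ k, G k → G k) (d : ∀ k, G k → K k) (h : ∀ k, G k → K k)
  {P : Type} [Fintype P] [DecidableEq P] {k : κ}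

/-- The products, with moves. -/
def SQ (P : Type) [Fintype P] [DecidableEq P] : Set ((P → LU K G) → ℂ) :=
  {w | ∃ (D : PD K G P) (S : Finset P), w = mvJ q d S (D.val h)}

variable {q d h}

open Classical in
/-- **One block with `J`.** -/
theorem one_J (sp : SpF) (so : SoF) (τ : K k →+* ℂ) (hτ : cj τ ≠ τ) (hd : ∀ g, d k g ≠ 0)
    (hq : ∀ g, q k (q k g) = g) (h0 : ∀ g, h k g ≠ 0) (b : K k) (hb0 : b ≠ 0)
    (hb : ∀ g, τ (d k g) * conj (τ (d k (q k g))) = τ b) (sg : K k) (hsg : sg = 1 ∨ sg = -1)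
    (hs : ∀ g, h k g * d k (q k g) = sg * h k (q k g) * d k g)
    (hr : ∀ g, cj τ (h k g) = τ (h k g)) (φ : (P → LU K G) → ℂ)
    (hφ : ∀ x, φ x ≠ 0 → ∀ a, (∃ g, x a = ⟨⟨k, g⟩, τ⟩) ∨ ∃ g, x a = ⟨⟨k, g⟩, cj τ⟩)
    (hu : ∀ (g g' : G k) (t : P → LU K G), rootQ h q d k g g' τ φ t = 0) :
    φ ∈ Submodule.span ℂ (SQ q d h P) := by
  have hs' : ∀ g, τ (h k g) * τ (d k (q k g)) = τ sg * τ (h k (q k g)) * τ (d k g) := by
    intro g
    rw [← map_mul, hs, map_mul, map_mul]
  have hn : ∀ g, τ (h k g) ≠ 0 := fun g => (map_ne_zero τ).mpr (h0 g)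
  have hn' : ∀ g, τ (d k g) ≠ 0 := fun g => (map_ne_zero τ).mpr (hd g)
  have hh0 : ∀ g, τ (h k g) / τ (d k g) ≠ 0 := fun g => div_ne_zero (hn g) (hn' g)
  let ps : Finset P → (P → LU K G) → ℂ := fun S t =>
    if ∀ a, a ∈ S ↔ ∃ g, t a = ⟨⟨k, g⟩, cj τ⟩ then φ t else 0
  have hps : ∀ S t, ps S t = if ∀ a, a ∈ S ↔ ∃ g, t a = ⟨⟨k, g⟩, cj τ⟩ then φ t else 0 :=
    fun _ _ => rfl
  have h1 : φ = ∑ S, ps S := by
    funext t
    rw [Finset.sum_apply, Finset.sum_eq_single
      (Finset.univ.filter fun a => ∃ g, t a = ⟨⟨k, g⟩, cj τ⟩)]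
    · rw [hps, if_pos]
      intro a
      simp
    · intro S _ hS
      rw [hps, if_neg]
      intro h2
      refine hS (Finset.ext fun a => ?_)
      rw [h2 a]
      simp
    · intro h2
      exact absurd (Finset.mem_univ _) h2
  rw [h1]
  refine Submodule.sum_mem _ fun S _ => ?_
  have hpat : ∀ (s : P → G k) (a : P), a ∈ S ↔ ∃ g : G k, jl q τ S a (s a) = ⟨⟨k, g⟩, cj τ⟩ := by
    intro s a
    by_cases ha : a ∈ S
    · exact ⟨fun _ => ⟨_, jl_pos q τ S ha _⟩, fun _ => ha⟩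
    · refine ⟨fun h2 => absurd h2 ha, ?_⟩
      rintro ⟨g, hg⟩
      rw [jl_neg q τ S ha] at hg
      simp only [Sigma.mk.injEq, heq_eq_eq, true_and] at hg
      exact absurd hg.2.symm hτ
  have hpj : ∀ s : P → G k, ps S (fun a => jl q τ S a (s a)) = φ fun a => jl q τ S a (s a) :=
    fun s => if_pos fun a => hpat s a
  have hrel : ∀ (g g' : G k) (s : P → G k),
      (∑ a, if s a = g then jf q d τ S φ (update s a g') else 0) -
      (τ (h k g) / τ (d k g)) / (τ (h k g') / τ (d k g')) *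
        ∑ a, (if s a = q k g' then jf q d τ S φ (update s a (q k g)) else 0) = 0 := by
    intro g g' s
    refine jf_rel hd hq hτ h h0 (τ sg) hs' hr φ g g' ?_ s
    intro t
    exact hu g g' t
  have hfin : ∀ (n r : ℕ) (e : (Fin n × Fin 2) ⊕ (Fin r × G k) ≃ P),
      ∃ W ∈ Submodule.span ℂ (SQ q d h P), (∀ s : P → G k, (∏ a, jw q d τ S a (s a)) *
        W (fun a => jl q τ S a (s a)) =
        (∏ i, if s (e (Sum.inl (i, 1))) = q k (s (e (Sum.inl (i, 0)))) then
        (τ (h k (s (e (Sum.inl (i, 0))))) / τ (d k (s (e (Sum.inl (i, 0))))))⁻¹ else 0) *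
        ∏ j, ∑ π : Equiv.Perm (G k), ((Equiv.Perm.sign π : ℤ) : ℂ) *
          if (fun g => s (e (Sum.inr (j, g)))) = fun g => π g then 1 else 0) ∧
      ∀ t, W t ≠ 0 → ∃ s : P → G k, t = fun a => jl q τ S a (s a) := by
    intro n r e
    let C : ℂ := ∏ a, if a ∈ S ∧ a ∉ sec e then τ b else 1
    have hC : C ≠ 0 := by
      refine Finset.prod_ne_zero_iff.mpr fun a _ => ?_
      split_ifs
      · exact (map_ne_zero τ).mpr hb0
      · exact one_ne_zero
    refine ⟨C⁻¹ • mvJ q d (S ∆ sec e) ((pd1 τ e).val h),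
      Submodule.smul_mem _ _ (Submodule.subset_span ⟨_, _, rfl⟩), fun s => ?_, fun t ht => ?_⟩
    · rw [Pi.smul_apply, smul_eq_mul, mul_left_comm, mv_val e hd h0 hq (τ b) hb s, ← mul_assoc,
        inv_mul_cancel₀ hC, one_mul]
    · refine mv_supp (h := h) (d := d) e hq t fun h2 => ht ?_
      rw [Pi.smul_apply, h2, smul_zero]
  rcases hsg with rfl | rfl
  · have h2 := so (G k) P (q k) hq (fun g => τ (h k g) / τ (d k g)) hh0 (by
      intro g
      have h3 := hs' g
      have h4 := hn g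
      have h5 := hn (q k g)
      have h6 := hn' g
      have h7 := hn' (q k g)
      rw [map_one, one_mul] at h3
      rw [div_eq_div_iff h7 h6]
      exact h3.symm) (jf q d τ S φ) (fun g g' s => hrel g g' s)
    refine Gl.pushW (jl q τ S) (jw q d τ S) (fun a z => jw_ne hd a z) _ _ ?_ (ps S) ?_
      (by simp only [hpj]; exact h2)
    · rintro w ⟨n, r, e, rfl⟩
      exact hfin n r e
    · intro t ht
      have h3 : ∀ a, a ∈ S ↔ ∃ g, t a = ⟨⟨k, g⟩, cj τ⟩ := by
        by_contra h4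
        exact ht (if_neg h4)
      have h4 : φ t ≠ 0 := by
        intro h5
        refine ht ?_
        rw [hps, h5, ite_self]
      have h5 : ∀ a, ∃ g : G k, t a = jl q τ S a g := by
        intro a
        by_cases ha : a ∈ S
        · obtain ⟨g, hg⟩ := (h3 a).mp ha
          exact ⟨q k g, by rw [jl_pos q τ S ha, hq, hg]⟩
        · rcases hφ t h4 a with ⟨g, hg⟩ | ⟨g, hg⟩
          · exact ⟨g, by rw [jl_neg q τ S ha, hg]⟩
          · exact absurd ((h3 a).mpr ⟨g, hg⟩) ha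
      choose s hs using h5
      exact ⟨s, funext hs⟩
  · have h2 := sp (G k) P (q k) hq (fun g => τ (h k g) / τ (d k g)) hh0 (by
      intro g
      have h3 := hs' g
      have h4 := hn g
      have h5 := hn (q k g)
      have h6 := hn' g
      have h7 := hn' (q k g)
      rw [map_neg, map_one] at h3
      rw [← neg_div, div_eq_div_iff h7 h6]
      linear_combination h3) (jf q d τ S φ) (fun g g' s => hrel g g' s)
    refine Gl.pushW (jl q τ S) (jw q d τ S) (fun a z => jw_ne hd a z) _ _ ?_ (ps S) ?_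
      (by simp only [hpj]; exact h2)
    · rintro w ⟨n, e, rfl⟩
      obtain ⟨W, h3, h4, h5⟩ := hfin n 0 ((Equiv.sumEmpty _ _).trans e)
      refine ⟨W, h3, fun s => ?_, h5⟩
      rw [h4, Finset.prod_eq_one (s := (Finset.univ : Finset (Fin 0))) fun j _ => j.elim0,
        mul_one]
      rfl
    · intro t ht
      have h3 : ∀ a, a ∈ S ↔ ∃ g, t a = ⟨⟨k, g⟩, cj τ⟩ := by
        by_contra h4
        exact ht (if_neg h4)
      have h4 : φ t ≠ 0 := by
        intro h5
        refine ht ?_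
        rw [hps, h5, ite_self]
      have h5 : ∀ a, ∃ g : G k, t a = jl q τ S a g := by
        intro a
        by_cases ha : a ∈ S
        · obtain ⟨g, hg⟩ := (h3 a).mp ha
          exact ⟨q k g, by rw [jl_pos q τ S ha, hq, hg]⟩
        · rcases hφ t h4 a with ⟨g, hg⟩ | ⟨g, hg⟩
          · exact ⟨g, by rw [jl_neg q τ S ha, hg]⟩
          · exact absurd ((h3 a).mpr ⟨g, hg⟩) ha
      choose s hs using h5
      exact ⟨s, funext hs⟩

end

end Pool.Agent.UNQ.VB
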